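import Pool.Agent.Q266.Perm4

/-!
`(2,2)`-acceptable Hamilton cycles.  A Hamilton cycle of the complete graph on `Fin n` is given by
a cyclic ordering: a permutation `c` of `Fin n`, whose edges are `{c i, c (i + 1)}` (cyclically).
-/

set_option autoImplicit false

namespace Pool.Agent.Q266.HamAcc

open Finset

/-- The edge of the Hamilton cycle `c` between the positions `i` and `i + 1`. -/
def edge {n : ℕ} (c : Equiv.Perm (Fin n)) (i : Fin n) : Finset (Fin n) := {c i, c (finRotate n i)}

/-- The Hamilton cycle `c` is `(2,2)`-acceptable with respect to `F`: no two vertex-disjoint edges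
of `c` have their union in `F`. -/
def Acceptable {n : ℕ} (F : Finset (Finset (Fin n))) (c : Equiv.Perm (Fin n)) : Prop :=
  ∀ i j, Disjoint (edge c i) (edge c j) → edge c i ∪ edge c j ∉ F

/-- `F` consists of sets of size four, and no Hamilton cycle is acceptable with respect to `F`. -/
def Blocks {n : ℕ} (F : Finset (Finset (Fin n))) : Prop :=
  (∀ X ∈ F, X.card = 4) ∧ ∀ c : Equiv.Perm (Fin n), ¬ Acceptable F c

/-- `F` is vertex-transitive. -/
def VertexTransitive {n : ℕ} (F : Finset (Finset (Fin n))) : Prop :=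
  ∀ x y : Fin n, ∃ σ : Equiv.Perm (Fin n), (∀ X, X ∈ F ↔ X.map σ.toEmbedding ∈ F) ∧ σ x = y

/-- The least size of a vertex-transitive family blocking all Hamilton cycles. -/
noncomputable def v (n : ℕ) : ℕ :=
  sInf {k | ∃ F : Finset (Finset (Fin n)), Blocks F ∧ VertexTransitive F ∧ F.card = k}

/-- The largest number of members of `F` containing a pair. -/
def d2 {n : ℕ} (F : Finset (Finset (Fin n))) : ℕ :=
  (univ.filter (fun D : Finset (Fin n) => D.card = 2)).sup
    (fun D => (F.filter (fun X => D ⊆ X)).card)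

/-- The least pair degree of a family blocking all Hamilton cycles. -/
noncomputable def m2 (n : ℕ) : ℕ :=
  sInf {k | ∃ F : Finset (Finset (Fin n)), Blocks F ∧ d2 F = k}

/-- degree of a point -/
def deg {n : ℕ} (F : Finset (Finset (Fin n))) (x : Fin n) : ℕ := (F.filter (fun X => x ∈ X)).card

theorem card_emb {n : ℕ} (X : Finset (Fin n)) (hX : X.card = 4) :
    (univ.filter (fun w : Fin 4 ↪ Fin n => univ.map w = X)).card ≤ 24 := by
  classical
  have h1 : (univ.filter (fun w : Fin 4 ↪ Fin n => univ.map w = X)).card ≤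
      (univ : Finset (Fin 4 ↪ X)).card := by
    refine card_le_card_of_injOn (fun w => if h : ∀ k, w k ∈ X then
      ⟨fun k => ⟨w k, h k⟩, fun a b hab => w.injective (congrArg Subtype.val hab)⟩ else
      (Equiv.toEmbedding ((X.equivFinOfCardEq hX).symm))) (fun _ _ => mem_coe.2 (mem_univ _)) ?_
    intro w hw w' hw' h
    simp only [coe_filter, mem_univ, true_and, Set.mem_ofPred_eq] at hw hw'
    have h1 : ∀ k, w k ∈ X := fun k => by rw [← hw]; exact mem_map_of_mem _ (mem_univ _)
    have h2 : ∀ k, w' k ∈ X := fun k => by rw [← hw']; exact mem_map_of_mem _ (mem_univ _)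
    simp only [dif_pos h1, dif_pos h2] at h
    apply DFunLike.ext
    intro k
    have := DFunLike.congr_fun h k
    exact congrArg Subtype.val this
  refine h1.trans ?_
  rw [card_univ, Fintype.card_embedding_eq, Fintype.card_coe, hX, Fintype.card_fin]
  decide

/-- if all degrees are small then there is an acceptable Hamilton cycle -/
theorem exists_acceptable {n : ℕ} (F : Finset (Finset (Fin n))) (hF : ∀ X ∈ F, X.card = 4) (Δ : ℕ)
    (hΔ : ∀ x, deg F x ≤ Δ) (hn : 4 * (480 * Δ * n ^ 2 + 1) ≤ n.descFactorial 4) :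
    ∃ c, Acceptable F c := by
  classical
  let T : Finset (Fin 4 ↪ Fin n) := univ.filter (fun w => univ.map w ∈ F)
  have hD : ∀ x, (T.filter (fun w : Fin 4 ↪ Fin n => x ∈ Set.range (w : Fin 4 → Fin n))).card ≤
      24 * Δ := by
    intro x
    have hsub : (T.filter (fun w : Fin 4 ↪ Fin n => x ∈ Set.range (w : Fin 4 → Fin n))) ⊆
        (F.filter (fun X => x ∈ X)).biUnion
          (fun X => univ.filter (fun w : Fin 4 ↪ Fin n => univ.map w = X)) := by
      intro w hw
      simp only [T, mem_filter, mem_univ, true_and] at hw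
      rw [mem_biUnion]
      refine ⟨univ.map w, ?_, ?_⟩
      · rw [mem_filter]
        refine ⟨hw.1, ?_⟩
        obtain ⟨k, hk⟩ := hw.2
        rw [← hk]
        exact mem_map_of_mem _ (mem_univ _)
      · simp
    calc _ ≤ _ := card_le_card hsub
      _ ≤ ∑ X ∈ F.filter (fun X => x ∈ X),
          (univ.filter (fun w : Fin 4 ↪ Fin n => univ.map w = X)).card := card_biUnion_le
      _ ≤ ∑ X ∈ F.filter (fun X => x ∈ X), 24 := by
          apply sum_le_sum
          intro X hX
          exact card_emb X (hF X (mem_filter.1 hX).1)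
      _ = deg F x * 24 := by rw [sum_const, smul_eq_mul]; rfl
      _ ≤ 24 * Δ := by have := hΔ x; omega
  obtain ⟨p, hp⟩ := Pool.Agent.Q266.Perm4.exists_order T (24 * Δ) hD (by
    rw [show 20 * (24 * Δ) * n ^ 2 = 480 * Δ * n ^ 2 by ring]; exact hn)
  refine ⟨p, fun i j hij hmem => ?_⟩
  have hcard := hF _ hmem
  rw [card_union_of_disjoint hij] at hcard
  have hi : (edge p i).card ≤ 2 := card_le_two
  have hj : (edge p j).card ≤ 2 := card_le_two
  have hi2 : (edge p i).card = 2 := by omega
  have hj2 : (edge p j).card = 2 := by omega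
  have hi3 : p i ≠ p (finRotate n i) := by
    intro h
    rw [edge, h, pair_eq_singleton, card_singleton] at hi2
    omega
  have hj3 : p j ≠ p (finRotate n j) := by
    intro h
    rw [edge, h, pair_eq_singleton, card_singleton] at hj2
    omega
  have hdis : ∀ a ∈ edge p i, ∀ b ∈ edge p j, a ≠ b := fun a ha b hb h =>
    disjoint_left.1 hij ha (h ▸ hb)
  have m1 : p i ∈ edge p i := by simp [edge]
  have m2 : p (finRotate n i) ∈ edge p i := by simp [edge]
  have m3 : p j ∈ edge p j := by simp [edge]
  have m4 : p (finRotate n j) ∈ edge p j := by simp [edge]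
  have d1 := hdis _ m1 _ m3
  have d2 := hdis _ m1 _ m4
  have d3 := hdis _ m2 _ m3
  have d4 := hdis _ m2 _ m4
  have hinj : Function.Injective (fun k => p (Pool.Agent.Q266.Perm4.posn i j k)) := by
    intro k l hkl
    fin_cases k <;> fin_cases l <;> first
      | rfl
      | exact absurd hkl hi3
      | exact absurd hkl hi3.symm
      | exact absurd hkl hj3
      | exact absurd hkl hj3.symm
      | exact absurd hkl d1
      | exact absurd hkl d1.symm
      | exact absurd hkl d2
      | exact absurd hkl d2.symm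
      | exact absurd hkl d3
      | exact absurd hkl d3.symm
      | exact absurd hkl d4
      | exact absurd hkl d4.symm
  have hinj' : Function.Injective (Pool.Agent.Q266.Perm4.posn i j) := fun a b h =>
    hinj (congrArg p h)
  refine hp ⟨_, hinj⟩ ?_ i j hinj' (fun k => rfl)
  simp only [T, mem_filter, mem_univ, true_and]
  convert hmem using 1
  ext x
  simp only [mem_map, mem_univ, true_and, edge, mem_union, mem_insert, mem_singleton]
  constructor
  · rintro ⟨k, rfl⟩
    fin_cases k
    · exact Or.inl (Or.inl rfl)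
    · exact Or.inl (Or.inr rfl)
    · exact Or.inr (Or.inl rfl)
    · exact Or.inr (Or.inr rfl)
  · rintro ((rfl | rfl) | (rfl | rfl))
    · exact ⟨0, rfl⟩
    · exact ⟨1, rfl⟩
    · exact ⟨2, rfl⟩
    · exact ⟨3, rfl⟩

/-- any two points are covered by two disjoint edges of every Hamilton cycle -/
theorem cover {m : ℕ} (c : Equiv.Perm (Fin (m + 4))) (x y : Fin (m + 4)) (hxy : x ≠ y) :
    ∃ i j, Disjoint (edge c i) (edge c j) ∧ x ∈ edge c i ∪ edge c j ∧ y ∈ edge c i ∪ edge c j ∧
      (edge c i ∪ edge c j).card = 4 := by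
  classical
  have key : ∀ a b : Fin (m + 4), a ≠ b → a ≠ finRotate _ b → finRotate _ a ≠ b →
      Disjoint (edge c a) (edge c b) ∧ (edge c a ∪ edge c b).card = 4 := by
    intro a b h1 h2 h3
    have hr : ∀ a : Fin (m + 4), a ≠ finRotate _ a := by
      intro a h
      have h' := congrArg Fin.val h
      rw [finRotate_apply, Fin.val_add_one] at h'
      split_ifs at h' with hl
      · rw [hl] at h'; simp at h'
      · omega
    have hd : Disjoint (edge c a) (edge c b) := by
      rw [disjoint_left]
      intro z hz hz'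
      simp only [edge, mem_insert, mem_singleton] at hz hz'
      rcases hz with rfl | rfl <;> rcases hz' with h | h
      · exact h1 (c.injective h)
      · exact h2 (c.injective h)
      · exact h3 (c.injective h)
      · exact h1 ((finRotate _).injective (c.injective h))
    refine ⟨hd, ?_⟩
    rw [card_union_of_disjoint hd]
    have e1 : (edge c a).card = 2 := card_pair (fun h => hr a (c.injective h))
    have e2 : (edge c b).card = 2 := card_pair (fun h => hr b (c.injective h))
    omega
  obtain ⟨a, rfl⟩ := c.surjective x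
  obtain ⟨b, rfl⟩ := c.surjective y
  have hab : a ≠ b := fun h => hxy (by rw [h])
  have mem1 : ∀ a, c a ∈ edge c a := fun a => by simp [edge]
  have mem2 : ∀ a, c (finRotate _ a) ∈ edge c a := fun a => by simp [edge]
  have far : ∀ a : Fin (m + 4), a ≠ finRotate _ (finRotate _ a) ∧
      a ≠ finRotate _ (finRotate _ (finRotate _ a)) ∧
      finRotate _ a ≠ finRotate _ (finRotate _ a) := by
    intro a
    have ha := a.isLt
    have hv : ∀ b : Fin (m + 4), (finRotate _ b).val = if b.val = m + 3 then 0 else b.val + 1 := by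
      intro b
      rw [finRotate_apply, Fin.val_add_one]
      by_cases hb : b = Fin.last (m + 3)
      · rw [if_pos hb, if_pos (by rw [hb]; rfl)]
      · rw [if_neg hb, if_neg (fun h : b.val = m + 3 => hb (Fin.ext h))]
    refine ⟨?_, ?_, ?_⟩ <;>
    · intro h
      have h' := congrArg Fin.val h
      simp only [hv] at h'
      split_ifs at h' <;> omega
  by_cases h1 : b = finRotate _ a
  · subst h1
    obtain ⟨f1, f2, f3⟩ := far a
    obtain ⟨g1, g2⟩ := key a (finRotate _ (finRotate _ a)) f1 f2 f3
    exact ⟨a, _, g1, mem_union_left _ (mem1 a), mem_union_left _ (mem2 a), g2⟩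
  · by_cases h2 : a = finRotate _ b
    · subst h2
      obtain ⟨f1, f2, f3⟩ := far b
      obtain ⟨g1, g2⟩ := key b (finRotate _ (finRotate _ b)) f1 f2 f3
      exact ⟨b, _, g1, mem_union_left _ (mem2 b), mem_union_left _ (mem1 b), g2⟩
    · obtain ⟨g1, g2⟩ := key a b hab h2 (fun h => h1 h.symm)
      exact ⟨a, b, g1, mem_union_left _ (mem1 a), mem_union_right _ (mem1 b), g2⟩

theorem desc4 (m : ℕ) : (m + 4).descFactorial 4 = (m + 4) * (m + 3) * (m + 2) * (m + 1) := by
  simp only [Nat.descFactorial_succ, Nat.descFactorial_zero]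
  have e1 : m + 4 - 3 = m + 1 := by omega
  have e2 : m + 4 - 2 = m + 2 := by omega
  have e3 : m + 4 - 1 = m + 3 := by omega
  rw [e1, e2, e3, Nat.sub_zero]
  ring

theorem numeric (m a : ℕ) (h : (m + 4).descFactorial 4 < 4 * (1920 * ((m + 4) * a) + 1)) :
    (m + 4) ^ 3 ≤ 1000000 * a := by
  by_contra hcon
  push Not at hcon
  rw [desc4] at h
  have h1 : 1000000 * ((m + 4) * a) < (m + 4) ^ 4 := by
    calc 1000000 * ((m + 4) * a) = (m + 4) * (1000000 * a) := by ring
      _ < (m + 4) * (m + 4) ^ 3 := by
          apply Nat.mul_lt_mul_of_pos_left hcon (by omega)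
      _ = (m + 4) ^ 4 := by ring
  generalize (m + 4) * a = b at h h1
  nlinarith [sq_nonneg m, pow_pos (Nat.succ_pos m) 3, Nat.zero_le (m ^ 3), Nat.zero_le (m ^ 4),
    Nat.zero_le (m ^ 2)]

/-- the family of all sets of size four containing two cyclically consecutive points -/
def CF (n : ℕ) : Finset (Finset (Fin n)) :=
  univ.filter (fun X => X.card = 4 ∧ ∃ i, i ∈ X ∧ finRotate n i ∈ X)

theorem CF_blocks (m : ℕ) : Blocks (CF (m + 4)) := by
  refine ⟨fun X hX => (mem_filter.1 hX).2.1, fun c hc => ?_⟩
  have hne : (0 : Fin (m + 4)) ≠ finRotate _ 0 := by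
    rw [finRotate_apply]
    intro h
    have := congrArg Fin.val h
    simp at this
  obtain ⟨i, j, h1, h2, h3, h4⟩ := cover c 0 (finRotate _ 0) hne
  exact hc i j h1 (mem_filter.2 ⟨mem_univ _, h4, 0, h2, h3⟩)

theorem CF_vt (m : ℕ) : VertexTransitive (CF (m + 4)) := by
  intro x y
  refine ⟨Equiv.addRight (y - x), ?_, by simp⟩
  have hcomm : ∀ i : Fin (m + 4), (Equiv.addRight (y - x)) (finRotate _ i) =
      finRotate _ ((Equiv.addRight (y - x)) i) := by
    intro i
    simp only [finRotate_apply, Equiv.coe_addRight]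
    exact add_right_comm _ _ _
  intro X
  simp only [CF, mem_filter, mem_univ, true_and, card_map]
  constructor
  · rintro ⟨h1, i, h2, h3⟩
    refine ⟨h1, Equiv.addRight (y - x) i, mem_map_of_mem _ h2, ?_⟩
    rw [← hcomm]
    exact mem_map_of_mem _ h3
  · rintro ⟨h1, i, h2, h3⟩
    rw [mem_map] at h2
    obtain ⟨i', h4, rfl⟩ := h2
    refine ⟨h1, i', h4, ?_⟩
    have h5 : finRotate (m + 4) ((Equiv.addRight (y - x)).toEmbedding i') =
      (Equiv.addRight (y - x)).toEmbedding (finRotate _ i') := (hcomm i').symm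
    rw [h5] at h3
    exact (mem_map' _).1 h3

theorem CF_card (n : ℕ) : (CF n).card ≤ n ^ 3 := by
  classical
  have hsub : CF n ⊆ (univ : Finset (Fin n × Fin n × Fin n)).image
      (fun t => {t.1, finRotate n t.1, t.2.1, t.2.2}) := by
    intro X hX
    obtain ⟨h1, i, h2, h3⟩ := (mem_filter.1 hX).2
    rw [mem_image]
    by_cases hne : i = finRotate n i
    · -- then all rotations are trivial; this happens only for small `n`
      exfalso
      rcases n with _ | n
      · exact i.elim0
      · rcases n with _ | n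
        · have : X.card ≤ 1 := by
            calc X.card ≤ (univ : Finset (Fin 1)).card := card_le_card (subset_univ _)
              _ = 1 := by simp
          omega
        · rw [finRotate_apply] at hne
          have h' := congrArg Fin.val hne
          rw [Fin.val_add_one] at h'
          split_ifs at h' with hl
          · rw [hl] at h'; simp at h'
          · omega
    · have h4 : (X \ {i, finRotate n i}).card = 2 := by
        rw [card_sdiff_of_subset (by
          intro z hz
          simp only [mem_insert, mem_singleton] at hz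
          rcases hz with rfl | rfl
          · exact h2
          · exact h3), h1, card_pair hne]
      obtain ⟨a, b, hab, hX2⟩ := card_eq_two.1 h4
      refine ⟨(i, a, b), mem_univ _, ?_⟩
      ext z
      have hz : z ∈ X \ {i, finRotate n i} ↔ z ∈ ({a, b} : Finset (Fin n)) := by rw [hX2]
      simp only [mem_sdiff, mem_insert, mem_singleton, not_or] at hz ⊢
      constructor
      · rintro (rfl | rfl | h | h)
        · exact h2
        · exact h3
        · exact (hz.2 (Or.inl h)).1
        · exact (hz.2 (Or.inr h)).1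
      · intro h
        by_cases e1 : z = i
        · exact Or.inl e1
        · by_cases e2 : z = finRotate n i
          · exact Or.inr (Or.inl e2)
          · exact Or.inr (Or.inr (hz.1 ⟨h, e1, e2⟩))
  calc (CF n).card ≤ _ := card_le_card hsub
    _ ≤ _ := card_image_le
    _ = n ^ 3 := by simp; ring

theorem deg_eq {n : ℕ} {F : Finset (Finset (Fin n))} (h : VertexTransitive F) (x y : Fin n) :
    deg F x ≤ deg F y := by
  obtain ⟨σ, h1, h2⟩ := h x y
  unfold deg
  refine card_le_card_of_injOn (fun X => X.map σ.toEmbedding) ?_ ?_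
  · intro X hX
    simp only [coe_filter, Set.mem_ofPred_eq] at hX ⊢
    refine ⟨(h1 X).1 hX.1, ?_⟩
    rw [← h2]
    exact mem_map_of_mem _ hX.2
  · intro X _ Y _ h
    exact map_injective _ h

theorem sum_deg {n : ℕ} {F : Finset (Finset (Fin n))} (hF : ∀ X ∈ F, X.card = 4) :
    ∑ x, deg F x = 4 * F.card := by
  classical
  unfold deg
  simp only [card_filter]
  rw [sum_comm]
  calc ∑ X ∈ F, ∑ x : Fin n, (if x ∈ X then 1 else 0) = ∑ X ∈ F, 4 := by
        apply sum_congr rfl
        intro X hX
        rw [← hF X hX]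
        simp
    _ = 4 * F.card := by rw [sum_const, smul_eq_mul, mul_comm]

theorem v_lower {m : ℕ} {F : Finset (Finset (Fin (m + 4)))} (hF : Blocks F)
    (hvt : VertexTransitive F) : (m + 4) ^ 3 ≤ 1000000 * F.card := by
  have hall : ∀ x, deg F x = deg F 0 := fun x => le_antisymm (deg_eq hvt _ _) (deg_eq hvt _ _)
  have hsum := sum_deg hF.1
  simp only [hall] at hsum
  rw [sum_const, card_univ, Fintype.card_fin, smul_eq_mul] at hsum
  apply numeric
  by_contra hcon
  push Not at hcon
  obtain ⟨c, hc⟩ := exists_acceptable F hF.1 (deg F 0) (fun x => (hall x).le) (by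
    calc 4 * (480 * deg F 0 * (m + 4) ^ 2 + 1)
        = 4 * (480 * ((m + 4) * ((m + 4) * deg F 0)) + 1) := by ring
      _ = 4 * (1920 * ((m + 4) * F.card) + 1) := by rw [hsum]; ring
      _ ≤ _ := hcon)
  exact hF.2 c hc

theorem v_bounds (n : ℕ) (hn : 4 ≤ n) : n ^ 3 ≤ 1000000 * v n ∧ v n ≤ n ^ 3 := by
  obtain ⟨m, rfl⟩ : ∃ m, n = m + 4 := ⟨n - 4, by omega⟩
  have hmem : (CF (m + 4)).card ∈
      {k | ∃ F : Finset (Finset (Fin (m + 4))), Blocks F ∧ VertexTransitive F ∧ F.card = k} :=
    ⟨_, CF_blocks m, CF_vt m, rfl⟩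
  constructor
  · obtain ⟨F, h1, h2, h3⟩ := Nat.sInf_mem ⟨_, hmem⟩
    have h4 := v_lower h1 h2
    rw [h3] at h4
    exact h4
  · exact (Nat.sInf_le hmem).trans (CF_card _)

theorem deg_le_d2 {n : ℕ} {F : Finset (Finset (Fin n))} (hF : ∀ X ∈ F, X.card = 4) (x : Fin n) :
    deg F x ≤ n * d2 F := by
  classical
  have hsub : F.filter (fun X => x ∈ X) ⊆
      (univ.erase x).biUnion (fun y => F.filter (fun X => ({x, y} : Finset (Fin n)) ⊆ X)) := by
    intro X hX
    obtain ⟨h1, h2⟩ := mem_filter.1 hX
    have h3 : (X.erase x).card = 3 := by rw [card_erase_of_mem h2, hF X h1]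
    obtain ⟨y, hy⟩ := card_pos.1 (by omega : 0 < (X.erase x).card)
    rw [mem_biUnion]
    refine ⟨y, mem_erase.2 ⟨(mem_erase.1 hy).1, mem_univ _⟩, mem_filter.2 ⟨h1, ?_⟩⟩
    intro z hz
    simp only [mem_insert, mem_singleton] at hz
    rcases hz with rfl | rfl
    · exact h2
    · exact (mem_erase.1 hy).2
  calc deg F x ≤ _ := card_le_card hsub
    _ ≤ ∑ y ∈ univ.erase x, (F.filter (fun X => ({x, y} : Finset (Fin n)) ⊆ X)).card :=
        card_biUnion_le
    _ ≤ ∑ y ∈ univ.erase x, d2 F := by
        apply sum_le_sum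
        intro y hy
        exact le_sup (f := fun D : Finset (Fin n) => (F.filter (fun X => D ⊆ X)).card)
          (mem_filter.2 ⟨mem_univ _, card_pair (mem_erase.1 hy).1.symm⟩)
    _ ≤ n * d2 F := by
        rw [sum_const, smul_eq_mul]
        apply Nat.mul_le_mul_right
        calc (univ.erase x).card ≤ (univ : Finset (Fin n)).card := card_le_card (erase_subset _ _)
          _ = n := by simp

theorem m2_lower {m : ℕ} {F : Finset (Finset (Fin (m + 4)))} (hF : Blocks F) :
    m + 4 ≤ 1000000 * d2 F := by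
  by_contra hcon
  push Not at hcon
  have h1 : (m + 4) ^ 3 ≤ 1000000 * ((m + 4) ^ 2 * d2 F) := by
    apply numeric
    by_contra hcon2
    push Not at hcon2
    obtain ⟨c, hc⟩ := exists_acceptable F hF.1 ((m + 4) * d2 F) (deg_le_d2 hF.1) (by
      refine le_trans ?_ hcon2
      nlinarith [Nat.zero_le ((m + 4) * ((m + 4) ^ 2 * d2 F))])
    exact hF.2 c hc
  have h2 : (m + 4) ^ 2 * (m + 4) ≤ (m + 4) ^ 2 * (1000000 * d2 F) := by
    calc (m + 4) ^ 2 * (m + 4) = (m + 4) ^ 3 := by ring
      _ ≤ _ := h1
      _ = _ := by ring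
  have h3 := Nat.le_of_mul_le_mul_left h2 (by positivity)
  omega

theorem m2_bound (n : ℕ) (hn : 4 ≤ n) : n ≤ 1000000 * m2 n := by
  obtain ⟨m, rfl⟩ : ∃ m, n = m + 4 := ⟨n - 4, by omega⟩
  obtain ⟨F, h1, h2⟩ := Nat.sInf_mem (s := {k | ∃ F : Finset (Finset (Fin (m + 4))), Blocks F ∧
    d2 F = k}) ⟨_, CF (m + 4), CF_blocks m, rfl⟩
  have h3 := m2_lower h1
  rw [h2] at h3
  exact h3

end Pool.Agent.Q266.HamAcc
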