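import Mathlib

set_option autoImplicit false

open Finset

namespace Pool.Agent.Q266.Mos

open Classical in
/-- degree of `v` inside `S` -/
noncomputable def dg {V : Type*} (G : SimpleGraph V) (S : Finset V) (v : V) : ℕ :=
  (S.filter (fun u => G.Adj v u)).card

/-- `S` induces an odd subgraph -/
def OddInd {V : Type*} (G : SimpleGraph V) (S : Finset V) : Prop := ∀ v ∈ S, Odd (dg G S v)

/-- The diagonal of a symmetric matrix over `ZMod 2` is in its range. -/
lemma diag_mem_range {ι : Type*} [Fintype ι] [DecidableEq ι] (M : ι → ι → ZMod 2)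
    (hM : ∀ i j, M i j = M j i) : ∃ x : ι → ZMod 2, ∀ i, ∑ j, M i j * x j = M i i := by
  classical
  set f : (ι → ZMod 2) →ₗ[ZMod 2] (ι → ZMod 2) := Matrix.mulVecLin (Matrix.of M) with hf
  by_contra hcon
  have hnot : (fun i => M i i) ∉ LinearMap.range f := by
    rintro ⟨x, hx⟩
    refine hcon ⟨x, fun i => ?_⟩
    have := congrFun hx i
    simpa [hf, Matrix.mulVec, dotProduct] using this
  obtain ⟨g, hg1, hg2⟩ := Submodule.exists_dual_map_eq_bot_of_notMem hnot inferInstance
  have hgr : ∀ x, g (f x) = 0 := by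
    intro x
    have : g (f x) ∈ (LinearMap.range f).map g := ⟨f x, ⟨x, rfl⟩, rfl⟩
    rw [hg2] at this
    exact (Submodule.mem_bot (ZMod 2)).1 this
  set y : ι → ZMod 2 := fun i => g (Pi.single i 1) with hy
  have hgy : ∀ v : ι → ZMod 2, g v = ∑ i, v i * y i := by
    intro v
    conv_lhs => rw [pi_eq_sum_univ' v]
    rw [map_sum]
    refine sum_congr rfl fun i _ => ?_
    rw [map_smul, smul_eq_mul, hy]
  have hcol : ∀ j, ∑ i, M i j * y i = 0 := by
    intro j
    have := hgr (Pi.single j 1)
    rw [hgy] at this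
    have e : ∀ x, f (Pi.single j 1) x = M x j := by
      intro x
      simp only [hf, Matrix.mulVecLin_apply, Matrix.mulVec, dotProduct, Matrix.of_apply]
      rw [sum_eq_single j]
      · rw [Pi.single_eq_same, mul_one]
      · intro b _ hb
        rw [Pi.single_eq_of_ne hb, mul_zero]
      · intro h; exact absurd (mem_univ j) h
    rw [← this]
    exact sum_congr rfl fun x _ => by rw [e]
  apply hg1
  rw [hgy]
  have h0 : ∑ j, y j * ∑ i, M i j * y i = 0 := by
    refine sum_eq_zero fun j _ => ?_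
    rw [hcol, mul_zero]
  have h1 : ∑ j, y j * ∑ i, M i j * y i =
      ∑ p : ι × ι, y p.2 * (M p.1 p.2 * y p.1) := by
    rw [Fintype.sum_prod_type_right]
    exact sum_congr rfl fun j _ => by rw [mul_sum]
  have h2 : ∑ p : ι × ι, y p.2 * (M p.1 p.2 * y p.1) =
      ∑ p ∈ univ.filter (fun p : ι × ι => p.1 = p.2), y p.2 * (M p.1 p.2 * y p.1) +
      ∑ p ∈ univ.filter (fun p : ι × ι => ¬ p.1 = p.2), y p.2 * (M p.1 p.2 * y p.1) :=
    (sum_filter_add_sum_filter_not _ _ _).symm
  have h3 : ∑ p ∈ univ.filter (fun p : ι × ι => ¬ p.1 = p.2), y p.2 * (M p.1 p.2 * y p.1) = 0 := by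
    refine sum_involution (fun p _ => p.swap) ?_ ?_ ?_ ?_
    · rintro ⟨a, b⟩ _
      simp only [Prod.swap_prod_mk]
      rw [hM b a]
      have : y b * (M a b * y a) = y a * (M a b * y b) := by ring
      rw [this]
      exact CharTwo.add_self_eq_zero _
    · rintro ⟨a, b⟩ hp _ h
      simp only [mem_filter, mem_univ, true_and] at hp
      simp only [Prod.swap_prod_mk, Prod.mk.injEq] at h
      exact hp h.2
    · rintro ⟨a, b⟩ hp
      simp only [mem_filter, mem_univ, true_and, Prod.swap_prod_mk] at hp ⊢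
      exact fun h => hp h.symm
    · rintro ⟨a, b⟩ _
      rfl
  have h4 : ∑ p ∈ univ.filter (fun p : ι × ι => p.1 = p.2), y p.2 * (M p.1 p.2 * y p.1) =
      ∑ i, M i i * y i := by
    rw [sum_filter, Fintype.sum_prod_type]
    refine sum_congr rfl fun i _ => ?_
    simp only
    rw [sum_ite_eq univ i]
    simp only [mem_univ, if_true]
    have : y i * y i = y i := by
      generalize y i = z
      revert z
      decide
    calc y i * (M i i * y i) = M i i * (y i * y i) := by ring
      _ = M i i * y i := by rw [this]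
  rw [h1, h2, h3, h4, add_zero] at h0
  exact h0

/-- Gallai: a partition of `S` into an odd induced part `T` and an even induced part. -/
lemma gallai {V : Type*} [Fintype V] (G : SimpleGraph V) (S : Finset V) [DecidableEq V] :
    ∃ T ⊆ S, OddInd G T ∧ ∀ v ∈ S \ T, Even (dg G (S \ T) v) := by
  classical
  set A : V → V → ZMod 2 := fun u v => if u ∈ S ∧ v ∈ S ∧ G.Adj u v then 1 else 0 with hA
  set d : V → ZMod 2 := fun v => ∑ u, A v u with hd
  set M : V → V → ZMod 2 := fun u v => A u v + if u = v ∧ u ∈ S then 1 + d u else 0 with hM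
  have hAs : ∀ u v, A u v = A v u := by
    intro u v
    simp only [hA]
    congr 1
    rw [G.adj_comm]
    exact propext ⟨fun h => ⟨h.2.1, h.1, h.2.2⟩, fun h => ⟨h.2.1, h.1, h.2.2⟩⟩
  have hMs : ∀ u v, M u v = M v u := by
    intro u v
    simp only [hM]
    rw [hAs u v]
    congr 1
    by_cases h : u = v
    · subst h; rfl
    · rw [if_neg (fun h' => h h'.1), if_neg (fun h' => h h'.1.symm)]
  obtain ⟨x, hx⟩ := diag_mem_range M hMs
  -- rewrite
  have hsum : ∀ (z : V → ZMod 2) (v : V), v ∈ S →
      ∑ u, M v u * z u = ∑ u, A v u * z u + (1 + d v) * z v := by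
    intro z v hv
    simp only [hM, add_mul, sum_add_distrib]
    congr 1
    rw [sum_eq_single v]
    · simp [hv]; ring
    · intro b _ hb
      rw [if_neg (fun h => hb h.1.symm), zero_mul]
    · intro h; exact absurd (mem_univ v) h
  have hdiag : ∀ v ∈ S, M v v = 1 + d v := by
    intro v hv
    simp [hM, hA, hv]
  have hx2 : ∀ v ∈ S, ∑ u, A v u * (x u + 1) + (1 + d v) * (x v + 1) = d v := by
    intro v hv
    have h1 := hx v
    rw [hsum x v hv, hdiag v hv] at h1
    have h2 : ∑ u, A v u * (x u + 1) = ∑ u, A v u * x u + d v := by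
      simp only [mul_add, sum_add_distrib, mul_one, hd]
    rw [h2]
    have h3 : ∑ u, A v u * x u + d v + (1 + d v) * (x v + 1) =
        (∑ u, A v u * x u + (1 + d v) * x v) + (d v + (1 + d v)) := by ring
    rw [h3, h1]
    have : (1 + d v) + (d v + (1 + d v)) = d v + 2 * (1 + d v) := by ring
    rw [this]
    have h2 : (2 : ZMod 2) = 0 := by decide
    rw [h2, zero_mul, add_zero]
  set T := S.filter (fun v => x v + 1 = 1) with hT
  have two : ∀ z : ZMod 2, z ≠ 1 → z = 0 := by decide
  have hTd : ∀ v ∈ S, ((dg G T v : ℕ) : ZMod 2) = ∑ u, A v u * (x u + 1) := by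
    intro v hv
    rw [dg, card_filter, Nat.cast_sum]
    rw [hT, sum_filter]
    rw [← sum_subset (subset_univ S)]
    · refine sum_congr rfl fun u hu => ?_
      simp only [hA, hv, hu, true_and]
      by_cases h1 : x u + 1 = 1
      · rw [if_pos h1, h1, mul_one]
        split_ifs <;> simp
      · rw [if_neg h1, two _ h1, mul_zero]
    · intro u _ hu
      simp [hA, hu]
  have hSd : ∀ v ∈ S, ((dg G S v : ℕ) : ZMod 2) = d v := by
    intro v hv
    rw [dg, card_filter, Nat.cast_sum, hd]
    simp only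
    rw [← sum_subset (subset_univ S)]
    · refine sum_congr rfl fun u hu => ?_
      simp only [hA, hv, hu, true_and]
      split_ifs <;> simp
    · intro u _ hu
      simp [hA, hu]
  have hsplit : ∀ v, dg G S v = dg G T v + dg G (S \ T) v := by
    intro v
    rw [dg, dg, dg, ← card_union_of_disjoint]
    · congr 1
      ext u
      simp only [mem_filter, mem_union, mem_sdiff, hT]
      tauto
    · rw [disjoint_left]
      intro u h1 h2
      rw [mem_filter] at h1 h2
      exact (mem_sdiff.1 h2.1).2 h1.1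
  refine ⟨T, filter_subset _ _, ?_, ?_⟩
  · intro v hv
    have hvS : v ∈ S := (mem_filter.1 hv).1
    have hv1 : x v + 1 = 1 := (mem_filter.1 hv).2
    have h1 := hx2 v hvS
    rw [← hTd v hvS, hv1, mul_one] at h1
    have h2 : ((dg G T v : ℕ) : ZMod 2) = 1 := by
      have : ((dg G T v : ℕ) : ZMod 2) + (1 + d v) = (((dg G T v : ℕ) : ZMod 2) + 1) + d v := by
        ring
      rw [this] at h1
      have h3 : ((dg G T v : ℕ) : ZMod 2) + 1 = 0 := by
        have := h1
        nth_rewrite 2 [← zero_add (d v)] at this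
        exact add_right_cancel this
      revert h3
      generalize ((dg G T v : ℕ) : ZMod 2) = z
      revert z
      decide
    rwa [← Nat.cast_one, ZMod.natCast_eq_natCast_iff', Nat.one_mod, ← Nat.odd_iff] at h2
  · intro v hv
    rw [mem_sdiff] at hv
    have hvS := hv.1
    have hv1 : x v + 1 = 0 := two _ (fun h => hv.2 (mem_filter.2 ⟨hvS, h⟩))
    have h1 := hx2 v hvS
    rw [← hTd v hvS, hv1, mul_zero, add_zero, ← hSd v hvS, hsplit v, Nat.cast_add] at h1
    have h2 : ((dg G (S \ T) v : ℕ) : ZMod 2) = 0 := by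
      nth_rewrite 1 [← add_zero ((dg G T v : ℕ) : ZMod 2)] at h1
      exact (add_left_cancel h1).symm
    rwa [ZMod.natCast_eq_zero_iff, ← even_iff_two_dvd] at h2

/-- An odd induced subgraph has an even number of vertices. -/
lemma even_card_of_oddInd {V : Type*} [Fintype V] (G : SimpleGraph V) (T : Finset V)
    (h : OddInd G T) : Even T.card := by
  classical
  have h1 : ((∑ v ∈ T, dg G T v : ℕ) : ZMod 2) = 0 := by
    have : ∑ v ∈ T, dg G T v = ∑ p ∈ (T ×ˢ T).filter (fun p => G.Adj p.1 p.2), 1 := by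
      simp only [dg]
      rw [sum_filter, sum_product]
      refine sum_congr rfl fun v _ => ?_
      rw [card_filter]
    rw [this, Nat.cast_sum]
    refine sum_involution (fun p _ => p.swap) ?_ ?_ ?_ ?_
    · rintro ⟨a, b⟩ _
      decide
    · rintro ⟨a, b⟩ hp _ h
      simp only [mem_filter, mem_product] at hp
      simp only [Prod.swap_prod_mk, Prod.mk.injEq] at h
      exact G.ne_of_adj hp.2 h.2
    · rintro ⟨a, b⟩ hp
      simp only [mem_filter, mem_product, Prod.swap_prod_mk] at hp ⊢
      exact ⟨⟨hp.1.2, hp.1.1⟩, hp.2.symm⟩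
    · rintro ⟨a, b⟩ _
      rfl
  rw [ZMod.natCast_eq_zero_iff, ← even_iff_two_dvd] at h1
  rwa [even_sum_iff_even_card_odd, filter_true_of_mem (fun v hv => h v hv)] at h1

lemma dg_union {V : Type*} [DecidableEq V] (G : SimpleGraph V) (A B : Finset V) (hAB : Disjoint A B)
    (v : V) : dg G (A ∪ B) v = dg G A v + dg G B v := by
  classical
  rw [dg, dg, dg, filter_union, card_union_of_disjoint (disjoint_filter_filter hAB)]

lemma dg_full {V : Type*} (G : SimpleGraph V) (B : Finset V) (v : V)
    (h : ∀ u ∈ B, G.Adj v u) : dg G B v = B.card := by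
  classical
  rw [dg, filter_true_of_mem h]

lemma dg_empty {V : Type*} (G : SimpleGraph V) (B : Finset V) (v : V)
    (h : ∀ u ∈ B, ¬ G.Adj v u) : dg G B v = 0 := by
  classical
  rw [dg, filter_false_of_mem h, card_empty]

/-- odd size subset missing at most one vertex -/
lemma odd_subset {V : Type*} (A : Finset V) (h : A.Nonempty) :
    ∃ B ⊆ A, Odd B.card ∧ A.card ≤ B.card + 1 := by
  by_cases ho : Odd A.card
  · exact ⟨A, Subset.rfl, ho, by omega⟩
  · obtain ⟨B, hB, hc⟩ := exists_subset_card_eq (s := A) (n := A.card - 1) (by omega)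
    have := h.card_pos
    refine ⟨B, hB, ?_, by omega⟩
    rw [hc]
    rw [Nat.not_odd_iff_even] at ho
    exact Nat.Even.sub_odd this ho odd_one

/-- The join bound. -/
lemma join_bound {V : Type*} [Fintype V] [DecidableEq V] (G : SimpleGraph V) (A B : Finset V)
    (hA : A.Nonempty) (hB : B.Nonempty) (hAB : Disjoint A B)
    (hadj : ∀ a ∈ A, ∀ b ∈ B, G.Adj a b) :
    ∃ T ⊆ A ∪ B, OddInd G T ∧ A.card + B.card ≤ 2 * T.card + 2 := by
  obtain ⟨A', hA', oA, cA⟩ := odd_subset A hA
  obtain ⟨B', hB', oB, cB⟩ := odd_subset B hB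
  obtain ⟨TA, hTA, o1, e1⟩ := gallai G A'
  obtain ⟨TB, hTB, o2, e2⟩ := gallai G B'
  have evA := even_card_of_oddInd G TA o1
  have evB := even_card_of_oddInd G TB o2
  have hdis : ∀ X ⊆ A', ∀ Y ⊆ B', Disjoint X Y := fun X hX Y hY =>
    disjoint_of_subset_left (hX.trans hA') (disjoint_of_subset_right (hY.trans hB') hAB)
  have hsA : (A' \ TA).card + TA.card = A'.card := card_sdiff_add_card_eq_card hTA
  have hsB : (B' \ TB).card + TB.card = B'.card := card_sdiff_add_card_eq_card hTB
  have odA : Odd (A' \ TA).card := by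
    rw [← hsA] at oA
    exact (Nat.odd_add.1 oA).2 evA
  have odB : Odd (B' \ TB).card := by
    rw [← hsB] at oB
    exact (Nat.odd_add.1 oB).2 evB
  have hadj' : ∀ X ⊆ A', ∀ Y ⊆ B', ∀ a ∈ X, ∀ b ∈ Y, G.Adj a b := fun X hX Y hY a ha b hb =>
    hadj a (hA' (hX ha)) b (hB' (hY hb))
  have n1 : OddInd G (TA ∪ TB) := by
    intro v hv
    rw [dg_union G _ _ (hdis TA hTA TB hTB)]
    rcases mem_union.1 hv with hv | hv
    · rw [dg_full G TB v (fun u hu => hadj' TA hTA TB hTB v hv u hu)]
      exact (o1 v hv).add_even evB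
    · rw [dg_full G TA v (fun u hu => (hadj' TA hTA TB hTB u hu v hv).symm)]
      exact evA.add_odd (o2 v hv)
  have n2 : OddInd G ((A' \ TA) ∪ (B' \ TB)) := by
    intro v hv
    rw [dg_union G _ _ (hdis _ sdiff_subset _ sdiff_subset)]
    rcases mem_union.1 hv with hv | hv
    · rw [dg_full G (B' \ TB) v (fun u hu => hadj' _ sdiff_subset _ sdiff_subset v hv u hu)]
      exact (e1 v hv).add_odd odB
    · rw [dg_full G (A' \ TA) v
        (fun u hu => (hadj' _ sdiff_subset _ sdiff_subset u hu v hv).symm)]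
      exact odA.add_even (e2 v hv)
  have c1 : (TA ∪ TB).card = TA.card + TB.card := card_union_of_disjoint (hdis TA hTA TB hTB)
  have c2 : ((A' \ TA) ∪ (B' \ TB)).card = (A' \ TA).card + (B' \ TB).card :=
    card_union_of_disjoint (hdis _ sdiff_subset _ sdiff_subset)
  by_cases h : A.card + B.card ≤ 2 * (TA ∪ TB).card + 2
  · exact ⟨TA ∪ TB, union_subset_union (hTA.trans hA') (hTB.trans hB'), n1, h⟩
  · exact ⟨(A' \ TA) ∪ (B' \ TB), union_subset_union (sdiff_subset.trans hA')
      (sdiff_subset.trans hB'), n2, by omega⟩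

/-- no induced path on four vertices -/
def P4Free {V : Type*} (G : SimpleGraph V) : Prop :=
  ∀ a b c d, G.Adj a b → G.Adj b c → G.Adj c d → G.Adj a c ∨ G.Adj b d ∨ G.Adj a d

lemma P4Free.compl' {V : Type*} (G : SimpleGraph V) (h : P4Free G) :
    ∀ a b c d, a ≠ b → b ≠ c → c ≠ d → a ≠ c → b ≠ d → a ≠ d → ¬ G.Adj a b → ¬ G.Adj b c →
      ¬ G.Adj c d → ¬ (G.Adj a c ∧ G.Adj b d ∧ G.Adj a d) := by
  rintro a b c d - - - - - - h1 h2 h3 ⟨h4, h5, h6⟩
  -- path c a d b
  rcases h c a d b h4.symm h6 h5.symm with h | h | h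
  · exact h3 h
  · exact h1 h
  · exact h2 h.symm

/-- abstract splitting step for a symmetric relation -/
lemma split_step {V : Type*} [DecidableEq V] (r : V → V → Prop) (hsym : ∀ a b, r a b → r b a)
    (hp : ∀ a b c d, a ≠ b → b ≠ c → c ≠ d → a ≠ c → b ≠ d → a ≠ d →
      r a b → r b c → r c d → r a c ∨ r b d ∨ r a d)
    (A B : Finset V) (v : V) (hAB : Disjoint A B) (hvA : v ∉ A) (hvB : v ∉ B)
    (hB : B.Nonempty) (hno : ∀ a ∈ A, ∀ b ∈ B, ¬ r a b)
    (u : V) (hu : u ∈ A) (huv : ¬ r v u) :
    ∃ C D : Finset V, C.Nonempty ∧ D.Nonempty ∧ Disjoint C D ∧ C ∪ D = insert v (A ∪ B) ∧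
      ∀ a ∈ C, ∀ b ∈ D, ¬ r a b := by
  classical
  by_cases hc : ∃ c ∈ B, r v c
  · obtain ⟨c, hcB, hvc⟩ := hc
    set C := A.filter (fun w => Relation.ReflTransGen (fun x y => y ∈ A ∧ r x y) u w) with hC
    by_cases hw : ∃ w ∈ C, r v w
    · exfalso
      obtain ⟨w, hwC, hvw⟩ := hw
      have hreach := (mem_filter.1 hwC).2
      have key : ∀ w, Relation.ReflTransGen (fun x y => y ∈ A ∧ r x y) u w → w ∈ A ∧ (r v w →
          ∃ x ∈ A, ∃ y ∈ A, r x y ∧ ¬ r v x ∧ r v y) := by
        intro w hw
        induction hw with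
        | refl => exact ⟨hu, fun h => absurd h huv⟩
        | tail h1 h2 ih =>
          rename_i b c'
          refine ⟨h2.1, fun h => ?_⟩
          by_cases hb : r v b
          · exact ih.2 hb
          · exact ⟨b, ih.1, c', h2.1, h2.2, hb, h⟩
      obtain ⟨x, hx, y, hy, hxy, hvx, hvy⟩ := (key w hreach).2 hvw
      have nyc : y ≠ c := fun h => disjoint_left.1 hAB hy (h ▸ hcB)
      have nxc : x ≠ c := fun h => disjoint_left.1 hAB hx (h ▸ hcB)
      have nvy : v ≠ y := fun h => hvA (h ▸ hy)
      have nvx : v ≠ x := fun h => hvA (h ▸ hx)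
      have nvc : v ≠ c := fun h => hvB (h ▸ hcB)
      have nxy : x ≠ y := fun h => hvx (h ▸ hvy)
      rcases hp c v y x nvc.symm nvy nxy.symm nyc.symm nvx nxc.symm (hsym _ _ hvc) hvy
        (hsym _ _ hxy) with h | h | h
      · exact hno y hy c hcB (hsym _ _ h)
      · exact hvx h
      · exact hno x hx c hcB (hsym _ _ h)
    · push Not at hw
      have huC : u ∈ C := mem_filter.2 ⟨hu, Relation.ReflTransGen.refl⟩
      refine ⟨C, insert v (A ∪ B) \ C, ⟨u, huC⟩, ⟨v, ?_⟩, disjoint_sdiff, ?_, ?_⟩
      · rw [mem_sdiff]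
        exact ⟨mem_insert_self _ _, fun h => hvA (mem_filter.1 h).1⟩
      · rw [union_sdiff_of_subset]
        exact (filter_subset _ _).trans (subset_union_left.trans (subset_insert _ _))
      · intro a ha b hb hab
        rw [mem_sdiff, mem_insert, mem_union] at hb
        rcases hb with ⟨rfl | hb | hb, hbC⟩
        · exact hw a ha (hsym _ _ hab)
        · exact hbC (mem_filter.2 ⟨hb, (mem_filter.1 ha).2.tail ⟨hb, hab⟩⟩)
        · exact hno a (mem_filter.1 ha).1 b hb hab
  · push Not at hc
    refine ⟨insert v A, B, ⟨v, mem_insert_self _ _⟩, hB, ?_, ?_, ?_⟩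
    · rw [disjoint_insert_left]
      exact ⟨hvB, hAB⟩
    · rw [insert_union]
    · intro a ha b hb hab
      rcases mem_insert.1 ha with rfl | ha
      · exact hc b hb hab
      · exact hno a ha b hb hab

/-- A `P₄`-free graph with at least two vertices splits as a join or as a disjoint union. -/
lemma dichotomy {V : Type*} [DecidableEq V] (G : SimpleGraph V) (h : P4Free G) :
    ∀ (k : ℕ) (S : Finset V), S.card = k + 2 →
    ∃ A B : Finset V, A.Nonempty ∧ B.Nonempty ∧ Disjoint A B ∧ A ∪ B = S ∧
      ((∀ a ∈ A, ∀ b ∈ B, G.Adj a b) ∨ (∀ a ∈ A, ∀ b ∈ B, ¬ G.Adj a b)) := by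
  classical
  intro k
  induction k with
  | zero =>
    intro S hS
    obtain ⟨a, b, hab, rfl⟩ := card_eq_two.1 hS
    refine ⟨{a}, {b}, singleton_nonempty _, singleton_nonempty _, ?_, ?_, ?_⟩
    · rw [disjoint_singleton]; exact hab
    · rfl
    · by_cases h : G.Adj a b
      · left; simpa using h
      · right; simpa using h
  | succ k ih =>
    intro S hS
    obtain ⟨v, hv⟩ : S.Nonempty := card_pos.1 (by omega)
    obtain ⟨A, B, hA, hB, hAB, hU, hadj⟩ := ih (S.erase v) (by
      rw [card_erase_of_mem hv]; omega)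
    have hvU : v ∉ A ∪ B := by rw [hU]; exact notMem_erase _ _
    have hvA : v ∉ A := fun h => hvU (mem_union_left _ h)
    have hvB : v ∉ B := fun h => hvU (mem_union_right _ h)
    have hins : insert v (A ∪ B) = S := by rw [hU, insert_erase hv]
    -- general treatment for a relation
    have gen : ∀ r : V → V → Prop, (∀ a b, r a b → r b a) →
        (∀ a b c d, a ≠ b → b ≠ c → c ≠ d → a ≠ c → b ≠ d → a ≠ d →
          r a b → r b c → r c d → r a c ∨ r b d ∨ r a d) →
        (∀ a ∈ A, ∀ b ∈ B, ¬ r a b) →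
        ∃ C D : Finset V, C.Nonempty ∧ D.Nonempty ∧ Disjoint C D ∧ C ∪ D = S ∧
          ((∀ a ∈ C, ∀ b ∈ D, ¬ r a b) ∨ (∀ a ∈ C, ∀ b ∈ D, r a b)) := by
      intro r hsym hp hno
      by_cases hu : ∃ u ∈ A ∪ B, ¬ r v u
      · obtain ⟨u, huU, huv⟩ := hu
        rcases mem_union.1 huU with hu | hu
        · obtain ⟨C, D, h1, h2, h3, h4, h5⟩ :=
            split_step r hsym hp A B v hAB hvA hvB hB hno u hu huv
          exact ⟨C, D, h1, h2, h3, by rw [h4, hins], Or.inl h5⟩
        · obtain ⟨C, D, h1, h2, h3, h4, h5⟩ :=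
            split_step r hsym hp B A v hAB.symm hvB hvA hA
              (fun a ha b hb hab => hno b hb a ha (hsym _ _ hab)) u hu huv
          exact ⟨C, D, h1, h2, h3, by rw [h4, union_comm B A, hins], Or.inl h5⟩
      · push Not at hu
        refine ⟨{v}, A ∪ B, singleton_nonempty _, hA.mono subset_union_left, ?_, ?_, Or.inr ?_⟩
        · rw [disjoint_singleton_left]; exact hvU
        · rw [← hins]; rfl
        · intro a ha b hb
          rw [mem_singleton] at ha
          subst ha
          exact hu b hb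
    rcases hadj with hadj | hadj
    · obtain ⟨C, D, h1, h2, h3, h4, h5⟩ := gen (fun a b => a ≠ b ∧ ¬ G.Adj a b)
        (fun a b hab => ⟨hab.1.symm, fun h => hab.2 h.symm⟩)
        (by
          intro a b c d n1 n2 n3 n4 n5 n6 h1 h2 h3
          by_contra hcon
          push Not at hcon
          obtain ⟨q1, q2, q3⟩ := hcon
          exact P4Free.compl' G h a b c d n1 n2 n3 n4 n5 n6 h1.2 h2.2 h3.2
            ⟨q1 n4, q2 n5, q3 n6⟩)
        (fun a ha b hb hab => hab.2 (hadj a ha b hb))
      refine ⟨C, D, h1, h2, h3, h4, ?_⟩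
      rcases h5 with h5 | h5
      · left
        intro a ha b hb
        have := h5 a ha b hb
        by_contra hcc
        exact this ⟨fun he => disjoint_left.1 h3 ha (he ▸ hb), hcc⟩
      · right
        intro a ha b hb
        exact (h5 a ha b hb).2
    · obtain ⟨C, D, h1, h2, h3, h4, h5⟩ := gen G.Adj (fun a b hab => hab.symm)
        (fun a b c d _ _ _ _ _ _ h1 h2 h3 => h a b c d h1 h2 h3) hadj
      exact ⟨C, D, h1, h2, h3, h4, h5.symm⟩

/-- Lower bound: an odd induced subgraph on at least a third of the vertices. -/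
lemma lower {V : Type*} [Fintype V] [DecidableEq V] (G : SimpleGraph V) (h : P4Free G) :
    ∀ (k : ℕ) (S : Finset V), S.card ≤ k → (∀ v ∈ S, ∃ u ∈ S, G.Adj v u) →
    ∃ T ⊆ S, OddInd G T ∧ S.card ≤ 3 * T.card := by
  classical
  intro k
  induction k with
  | zero =>
    intro S hS _
    exact ⟨∅, empty_subset _, fun v hv => absurd hv (notMem_empty _), by simpa using hS⟩
  | succ k ih =>
    intro S hS hiso
    rcases S.eq_empty_or_nonempty with rfl | ⟨v, hv⟩
    · exact ⟨∅, empty_subset _, fun v hv => absurd hv (notMem_empty _), by simp⟩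
    obtain ⟨u, hu, hvu⟩ := hiso v hv
    have hne := G.ne_of_adj hvu
    have h2 : 2 ≤ S.card := by
      have : ({v, u} : Finset V) ⊆ S := by
        intro z hz
        rcases mem_insert.1 hz with rfl | hz
        · exact hv
        · rw [mem_singleton.1 hz]; exact hu
      have := card_le_card this
      rwa [card_pair hne] at this
    obtain ⟨A, B, hA, hB, hAB, hU, hadj⟩ := dichotomy G h (S.card - 2) S (by omega)
    have hcard : A.card + B.card = S.card := by rw [← hU, card_union_of_disjoint hAB]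
    have pA := hA.card_pos
    have pB := hB.card_pos
    rcases hadj with hadj | hadj
    · by_cases h6 : S.card ≤ 6
      · refine ⟨{v, u}, ?_, ?_, by rw [card_pair hne]; omega⟩
        · intro z hz
          rcases mem_insert.1 hz with rfl | hz
          · exact hv
          · rw [mem_singleton.1 hz]; exact hu
        · intro w hw
          have : dg G {v, u} w = 1 := by
            rw [dg]
            rcases mem_insert.1 hw with rfl | hw
            · rw [filter_insert, if_neg (G.irrefl), filter_singleton, if_pos hvu, card_singleton]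
            · rw [mem_singleton.1 hw, filter_insert, if_pos hvu.symm, filter_singleton,
                if_neg (G.irrefl), insert_empty_eq, card_singleton]
          rw [this]
          exact odd_one
      · obtain ⟨T, hT, ho, hc⟩ := join_bound G A B hA hB hAB hadj
        exact ⟨T, hU ▸ hT, ho, by omega⟩
    · have isoA : ∀ v ∈ A, ∃ u ∈ A, G.Adj v u := by
        intro v hv
        obtain ⟨u, hu, hvu⟩ := hiso v (hU ▸ mem_union_left _ hv)
        rw [← hU] at hu
        rcases mem_union.1 hu with hu | hu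
        · exact ⟨u, hu, hvu⟩
        · exact absurd hvu (hadj v hv u hu)
      have isoB : ∀ v ∈ B, ∃ u ∈ B, G.Adj v u := by
        intro v hv
        obtain ⟨u, hu, hvu⟩ := hiso v (hU ▸ mem_union_right _ hv)
        rw [← hU] at hu
        rcases mem_union.1 hu with hu | hu
        · exact absurd hvu.symm (hadj u hu v hv)
        · exact ⟨u, hu, hvu⟩
      obtain ⟨T1, hT1, o1, c1⟩ := ih A (by omega) isoA
      obtain ⟨T2, hT2, o2, c2⟩ := ih B (by omega) isoB
      have hd : Disjoint T1 T2 := disjoint_of_subset_left hT1 (disjoint_of_subset_right hT2 hAB)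
      refine ⟨T1 ∪ T2, hU ▸ union_subset_union hT1 hT2, ?_, ?_⟩
      · intro w hw
        rw [dg_union G _ _ hd]
        rcases mem_union.1 hw with hw | hw
        · rw [dg_empty G T2 w (fun z hz => hadj w (hT1 hw) z (hT2 hz)), add_zero]
          exact o1 w hw
        · rw [dg_empty G T1 w (fun z hz hwz => hadj z (hT1 hz) w (hT2 hw) hwz.symm), zero_add]
          exact o2 w hw
      · rw [card_union_of_disjoint hd]
        omega

end Pool.Agent.Q266.Mos
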