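import Pool.Agent.Q266.Mos

set_option autoImplicit false

open Finset

namespace Pool.Agent.Q266.Mos

/-- block of the vertex `v` -/
def blk (n v : ℕ) : ℕ := if n % 6 = 1 ∧ v + 2 = n then v / 6 + 1 else v / 6

/-- disjoint union of complete tripartite graphs with parts of size at most two -/
def tri (n : ℕ) : SimpleGraph (Fin n) where
  Adj u v := blk n u.val = blk n v.val ∧ u.val % 3 ≠ v.val % 3
  symm := ⟨fun _ _ h => ⟨h.1.symm, h.2.symm⟩⟩
  loopless := ⟨fun _ h => h.2 rfl⟩

lemma tri_adj (n : ℕ) (u v : Fin n) : (tri n).Adj u v ↔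
    (blk n u.val = blk n v.val ∧ u.val % 3 ≠ v.val % 3) := Iff.rfl

lemma tri_p4 (n : ℕ) : P4Free (tri n) := by
  intro a b c d hab hbc hcd
  by_contra hcon
  push Not at hcon
  obtain ⟨h1, h2, h3⟩ := hcon
  simp only [tri, not_and, not_not] at hab hbc hcd h1 h2 h3
  have e1 := h1 (hab.1.trans hbc.1)
  have e2 := h2 (hbc.1.trans hcd.1)
  have e3 := h3 ((hab.1.trans hbc.1).trans hcd.1)
  omega

lemma tri_iso (n : ℕ) (hn : 2 ≤ n) : ∀ v, ∃ u, (tri n).Adj v u := by
  intro v
  have hv := v.isLt
  by_cases h1 : v.val + 1 < n ∧ blk n (v.val + 1) = blk n v.val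
  · refine ⟨⟨v.val + 1, h1.1⟩, ?_⟩
    simp only [tri]
    exact ⟨h1.2.symm, by omega⟩
  · have h2 : 1 ≤ v.val ∧ blk n (v.val - 1) = blk n v.val := by
      unfold blk at *
      split_ifs at h1 ⊢ <;> omega
    refine ⟨⟨v.val - 1, by omega⟩, ?_⟩
    simp only [tri]
    exact ⟨h2.2.symm, by omega⟩

/-- Each block contains at most two vertices of an odd induced subgraph. -/
lemma tri_block (n : ℕ) (S : Finset (Fin n)) (hS : OddInd (tri n) S) (b : ℕ) :
    (S.filter (fun v => blk n v.val = b)).card ≤ 2 := by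
  classical
  set B := S.filter (fun v => blk n v.val = b) with hB
  have hcl : ∀ i, (B.filter (fun v => v.val % 3 = i)).card ≤ 2 := by
    intro i
    by_contra hc
    push Not at hc
    obtain ⟨x, hx, y, hy, z, hz, hxy, hxz, hyz⟩ := two_lt_card.1 hc
    rw [hB] at hx hy hz
    simp only [mem_filter] at hx hy hz
    have a1 : x.val ≠ y.val := fun h => hxy (Fin.ext h)
    have a2 : x.val ≠ z.val := fun h => hxz (Fin.ext h)
    have a3 : y.val ≠ z.val := fun h => hyz (Fin.ext h)
    have b1 := hx.1.2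
    have b2 := hy.1.2
    have b3 := hz.1.2
    have c1 := x.isLt
    have c2 := y.isLt
    have c3 := z.isLt
    unfold blk at b1 b2 b3
    split_ifs at b1 b2 b3 <;> omega
  have hsum : B.card = (B.filter (fun v => v.val % 3 = 0)).card +
      (B.filter (fun v => v.val % 3 = 1)).card + (B.filter (fun v => v.val % 3 = 2)).card := by
    have e := card_eq_sum_card_fiberwise (s := B) (t := range 3) (f := fun v => v.val % 3)
      (fun v _ => by simp only [coe_range, Set.mem_Iio]; omega)
    rw [e]
    simp [sum_range_succ]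
  have hdeg : ∀ v ∈ B, dg (tri n) S v + (B.filter (fun u => u.val % 3 = v.val % 3)).card
      = B.card := by
    intro v hv
    have hvb := (mem_filter.1 hv).2
    rw [dg, ← card_union_of_disjoint]
    · congr 1
      ext u
      rw [mem_union, mem_filter, mem_filter, hB, mem_filter, tri_adj]
      constructor
      · rintro (⟨h1, h2, h3⟩ | ⟨⟨h1, h2⟩, h3⟩)
        · exact ⟨h1, h2 ▸ hvb⟩
        · exact ⟨h1, h2⟩
      · rintro ⟨h1, h2⟩
        by_cases h : u.val % 3 = v.val % 3
        · exact Or.inr ⟨⟨h1, h2⟩, h⟩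
        · exact Or.inl ⟨h1, hvb.trans h2.symm, fun h' => h h'.symm⟩
    · rw [disjoint_left]
      intro u h1 h2
      rw [mem_filter, tri_adj] at h1
      rw [mem_filter] at h2
      exact h1.2.2 h2.2.symm
  have hodd : ∀ i, 0 < (B.filter (fun v => v.val % 3 = i)).card →
      (B.card + (B.filter (fun v => v.val % 3 = i)).card) % 2 = 1 := by
    intro i hi
    obtain ⟨v, hv⟩ := card_pos.1 hi
    rw [mem_filter] at hv
    have h1 := hdeg v hv.1
    have h2 := hS v (mem_filter.1 hv.1).1
    rw [hv.2] at h1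
    obtain ⟨t, ht⟩ := h2
    omega
  have a0 := hodd 0
  have a1 := hodd 1
  have a2 := hodd 2
  have b0 := hcl 0
  have b1 := hcl 1
  have b2 := hcl 2
  clear_value B
  generalize (B.filter (fun v => v.val % 3 = 0)).card = s0 at *
  generalize (B.filter (fun v => v.val % 3 = 1)).card = s1 at *
  generalize (B.filter (fun v => v.val % 3 = 2)).card = s2 at *
  omega

lemma tri_upper (n : ℕ) (_hn : 2 ≤ n) (S : Finset (Fin n)) (hS : OddInd (tri n) S) :
    S.card ≤ 2 * ((n + 5) / 6) := by
  classical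
  have e := card_eq_sum_card_fiberwise (s := S) (t := range ((n + 5) / 6))
    (f := fun v => blk n v.val)
    (fun v _ => by
      simp only [coe_range, Set.mem_Iio]
      have := v.isLt
      unfold blk
      split_ifs <;> omega)
  rw [e]
  calc ∑ b ∈ range ((n + 5) / 6), (S.filter (fun v => blk n v.val = b)).card
      ≤ ∑ b ∈ range ((n + 5) / 6), 2 := sum_le_sum fun b _ => tri_block n S hS b
    _ = 2 * ((n + 5) / 6) := by rw [sum_const, card_range, smul_eq_mul, mul_comm]

end Pool.Agent.Q266.Mos
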