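import Mathlib

set_option autoImplicit false

open Finset

namespace Pool.Agent.Q266.N18

/-- The members of the edge set `E` with both ends in `S`. -/
def ins {n : ℕ} (E : Finset (Sym2 (Fin n))) (S : Finset (Fin n)) : Finset (Sym2 (Fin n)) :=
  E.filter (fun z => z ∈ S.sym2)

/-- There is a graph with `n` vertices and `e` edges with no `9` vertices spanning `18` edges. -/
def Good (n e : ℕ) : Prop :=
  ∃ E : Finset (Sym2 (Fin n)), (∀ z ∈ E, ¬ z.IsDiag) ∧ E.card = e ∧
    ∀ S : Finset (Fin n), S.card = 9 → (ins E S).card ≠ 18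

/-- The edge set of the complete graph on `A`. -/
def clq {n : ℕ} (A : Finset (Fin n)) : Finset (Sym2 (Fin n)) :=
  A.sym2.filter (fun z => ¬ z.IsDiag)

lemma card_clq {n : ℕ} (A : Finset (Fin n)) : (clq A).card = A.card.choose 2 := by
  rw [← Sym2.card_image_offDiag A]
  congr 1
  ext z
  induction z using Sym2.ind with
  | _ a b =>
    simp only [clq, mem_filter, mk_mem_sym2_iff, Sym2.mk_isDiag_iff, mem_image, mem_offDiag,
      Prod.exists]
    constructor
    · rintro ⟨⟨ha, hb⟩, hab⟩
      exact ⟨a, b, ⟨ha, hb, hab⟩, rfl⟩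
    · rintro ⟨c, d, ⟨hc, hd, hcd⟩, h⟩
      rcases Sym2.eq_iff.1 h with ⟨rfl, rfl⟩ | ⟨rfl, rfl⟩
      · exact ⟨⟨hc, hd⟩, hcd⟩
      · exact ⟨⟨hd, hc⟩, fun h' => hcd h'.symm⟩

lemma ins_clq {n : ℕ} (A S : Finset (Fin n)) : ins (clq A) S = clq (A ∩ S) := by
  ext z
  induction z using Sym2.ind with
  | _ a b =>
    simp only [ins, clq, mem_filter, mk_mem_sym2_iff, mem_inter]
    tauto

lemma ins_subset {n : ℕ} (E : Finset (Sym2 (Fin n))) (hE : ∀ z ∈ E, ¬ z.IsDiag)
    (S : Finset (Fin n)) : ins E S ⊆ clq S := by
  intro z hz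
  simp only [ins, mem_filter] at hz
  simp only [clq, mem_filter]
  exact ⟨hz.2, hE z hz.1⟩

lemma Good.compl {n e : ℕ} (h : Good n e) (_he : e ≤ n.choose 2) : Good n (n.choose 2 - e) := by
  obtain ⟨E, hE, hc, hS⟩ := h
  have hsub : E ⊆ clq (univ : Finset (Fin n)) := by
    intro z hz
    simp only [clq, mem_filter]
    refine ⟨?_, hE z hz⟩
    induction z using Sym2.ind with
    | _ a b => simp
  refine ⟨clq univ \ E, ?_, ?_, ?_⟩
  · intro z hz
    simp only [mem_sdiff, clq, mem_filter] at hz
    exact hz.1.2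
  · rw [card_sdiff_of_subset hsub, card_clq, card_univ, Fintype.card_fin, hc]
  · intro S h9
    have h1 : ins (clq univ \ E) S = clq S \ ins E S := by
      ext z
      induction z using Sym2.ind with
      | _ a b =>
        simp only [ins, clq, mem_filter, mem_sdiff, mk_mem_sym2_iff, mem_univ]
        tauto
    rw [h1, card_sdiff_of_subset (ins_subset E hE S), card_clq, h9]
    have h2 := hS S h9
    have h3 := card_le_card (ins_subset E hE S)
    rw [card_clq, h9] at h3
    have h4 : Nat.choose 9 2 = 36 := by decide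
    rw [h4] at h3 ⊢
    omega

lemma choose_two (j : ℕ) : j.choose 2 = j * (j - 1) / 2 := Nat.choose_two_right j

/-- A complete graph with at most two edges removed. -/
lemma good_clique_minus (n x r : ℕ) (hx : x ≤ n) (hr : r ≤ 2) (hrx : r ≤ x.choose 2) :
    Good n (x.choose 2 - r) := by
  classical
  obtain ⟨A, hA⟩ : ∃ A : Finset (Fin n), A.card = x := by
    obtain ⟨A, _, hA⟩ := exists_subset_card_eq (s := (univ : Finset (Fin n))) (n := x)
      (by simpa using hx)
    exact ⟨A, hA⟩
  obtain ⟨F, hF, hFr⟩ := exists_subset_card_eq (s := clq A) (n := r)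
    (by rw [card_clq, hA]; exact hrx)
  refine ⟨clq A \ F, ?_, ?_, ?_⟩
  · intro z hz
    simp only [mem_sdiff, clq, mem_filter] at hz
    exact hz.1.2
  · rw [card_sdiff_of_subset hF, card_clq, hA, hFr]
  · intro S h9 h18
    have h1 : ins (clq A \ F) S = clq (A ∩ S) \ F := by
      rw [← ins_clq]
      ext z
      simp only [ins, mem_filter, mem_sdiff]
      tauto
    rw [h1] at h18
    have h2 : (clq (A ∩ S)).card ≤ 18 + r := by
      have := le_card_sdiff F (clq (A ∩ S))
      omega
    have h3 : 18 ≤ (clq (A ∩ S)).card := by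
      rw [← h18]
      exact card_le_card sdiff_subset
    rw [card_clq] at h2 h3
    have h4 : (A ∩ S).card ≤ 9 := by
      rw [← h9]
      exact card_le_card inter_subset_right
    generalize (A ∩ S).card = j at *
    interval_cases j <;> simp [Nat.choose] at h2 h3 <;> omega

/-- Two rows that are complete to `Y`. -/
lemma two_full {α β : Type*} [DecidableEq α] [DecidableEq β] (P : Finset (α × β))
    (X : Finset α) (Y : Finset β) (hP : P ⊆ X ×ˢ Y)
    (h : X.card * Y.card + 2 ≤ P.card + X.card) :
    ∃ x₁ ∈ X, ∃ x₂ ∈ X, x₁ ≠ x₂ ∧ ∀ y ∈ Y, (x₁, y) ∈ P ∧ (x₂, y) ∈ P := by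
  set B := (X ×ˢ Y) \ P with hB
  have hBc : B.card + P.card = X.card * Y.card := by
    rw [hB, card_sdiff_of_subset hP, card_product]
    have := card_le_card hP
    rw [card_product] at this
    omega
  have h1 : (B.image Prod.fst).card ≤ B.card := card_image_le
  have h2 : 1 < (X \ B.image Prod.fst).card := by
    have := le_card_sdiff (B.image Prod.fst) X
    omega
  obtain ⟨x₁, h₁, x₂, h₂, hne⟩ := one_lt_card.1 h2
  have key : ∀ x ∈ X \ B.image Prod.fst, ∀ y ∈ Y, (x, y) ∈ P := by
    intro x hx y hy
    by_contra hc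
    rw [mem_sdiff] at hx
    exact hx.2 (mem_image.2 ⟨(x, y), by
      rw [hB, mem_sdiff, mem_product]
      exact ⟨⟨hx.1, hy⟩, hc⟩, rfl⟩)
  exact ⟨x₁, (mem_sdiff.1 h₁).1, x₂, (mem_sdiff.1 h₂).1, hne,
    fun y hy => ⟨key x₁ h₁ y hy, key x₂ h₂ y hy⟩⟩

/-- Clique on the first `x` vertices plus a bipartite graph `F` on the others, with parts
`[x, x+a)` and `[x+a, n)`. -/
lemma good_of_bip (n x a : ℕ) (hn : x + a ≤ n) (F : Finset (Fin n × Fin n))
    (hF : ∀ p ∈ F, x ≤ p.1.val ∧ p.1.val < x + a ∧ x + a ≤ p.2.val)
    (h0 : ∀ S : Finset (Fin n), S.card = 9 → (∀ s ∈ S, x ≤ s.val) →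
      (F.filter (fun p => p.1 ∈ S ∧ p.2 ∈ S)).card ≠ 18) :
    Good n (x.choose 2 + F.card) := by
  classical
  set A : Finset (Fin n) := univ.filter (fun i => i.val < x) with hA
  have hAc : A.card = x := by
    have : A = (range x).attachFin (fun i hi => by
        have := mem_range.1 hi; omega) := by
      ext i
      simp [hA]
    rw [this, card_attachFin, card_range]
  set E2 : Finset (Sym2 (Fin n)) := F.image (fun p => s(p.1, p.2)) with hE2
  have hinj : Set.InjOn (fun p : Fin n × Fin n => s(p.1, p.2)) (F : Set (Fin n × Fin n)) := by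
    rintro ⟨p, q⟩ hp ⟨r, s⟩ hr h
    simp only at h
    rcases Sym2.eq_iff.1 h with ⟨rfl, rfl⟩ | ⟨rfl, rfl⟩
    · rfl
    · have h1 := hF _ (mem_coe.1 hp)
      have h2 := hF _ (mem_coe.1 hr)
      simp only at h1 h2
      omega
  have hdis : Disjoint (clq A) E2 := by
    rw [disjoint_left]
    intro z hz hz2
    obtain ⟨p, hp, rfl⟩ := mem_image.1 hz2
    simp only [clq, mem_filter, mk_mem_sym2_iff, hA, mem_univ, true_and] at hz
    have := hF p hp
    omega
  refine ⟨clq A ∪ E2, ?_, ?_, ?_⟩
  · intro z hz
    rcases mem_union.1 hz with hz | hz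
    · exact (mem_filter.1 hz).2
    · obtain ⟨p, hp, rfl⟩ := mem_image.1 hz
      have := hF p hp
      rw [Sym2.mk_isDiag_iff]
      intro h
      rw [h] at this
      omega
  · rw [card_union_of_disjoint hdis, card_clq, hAc, card_image_of_injOn hinj]
  · intro S h9 h18
    have h1 : ins (clq A ∪ E2) S = clq (A ∩ S) ∪ ins E2 S := by
      rw [← ins_clq]
      ext z
      simp only [ins, mem_filter, mem_union]
      tauto
    have h2 : ins E2 S = (F.filter (fun p => p.1 ∈ S ∧ p.2 ∈ S)).image
        (fun p => s(p.1, p.2)) := by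
      ext z
      simp only [ins, mem_filter, mem_image, hE2]
      constructor
      · rintro ⟨⟨p, hp, rfl⟩, hz⟩
        rw [mk_mem_sym2_iff] at hz
        exact ⟨p, ⟨hp, hz⟩, rfl⟩
      · rintro ⟨p, ⟨hp, hz⟩, rfl⟩
        exact ⟨⟨p, hp, rfl⟩, by rw [mk_mem_sym2_iff]; exact hz⟩
    have h3 : Disjoint (clq (A ∩ S)) (ins E2 S) := by
      refine disjoint_of_subset_left ?_ (disjoint_of_subset_right (filter_subset _ _) hdis)
      rw [← ins_clq]
      exact filter_subset _ _
    rw [h1, card_union_of_disjoint h3, card_clq, h2,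
      card_image_of_injOn (hinj.mono (by
        intro p hp
        exact mem_coe.2 (mem_filter.1 (mem_coe.1 hp)).1))] at h18
    set FS := F.filter (fun p => p.1 ∈ S ∧ p.2 ∈ S) with hFS
    set L := S.filter (fun i => x ≤ i.val ∧ i.val < x + a) with hL
    set R := S.filter (fun i => x + a ≤ i.val) with hR
    have hsub : FS ⊆ L ×ˢ R := by
      intro p hp
      rw [hFS, mem_filter] at hp
      have := hF p hp.1
      rw [mem_product, hL, hR, mem_filter, mem_filter]
      exact ⟨⟨hp.2.1, this.1, this.2.1⟩, hp.2.2, this.2.2⟩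
    have hcard := card_le_card hsub
    rw [card_product] at hcard
    have hsum : (A ∩ S).card + L.card + R.card = 9 := by
      rw [← h9]
      have e1 : A ∩ S = S.filter (fun i => i.val < x) := by
        ext i; simp [hA, and_comm]
      have e2 : S = (S.filter (fun i => i.val < x) ∪ L) ∪ R := by
        ext i
        simp only [hL, hR, mem_union, mem_filter]
        constructor
        · intro hi
          by_cases h1 : i.val < x
          · exact Or.inl (Or.inl ⟨hi, h1⟩)
          · by_cases h2 : i.val < x + a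
            · exact Or.inl (Or.inr ⟨hi, by omega, h2⟩)
            · exact Or.inr ⟨hi, by omega⟩
        · rintro ((h | h) | h) <;> exact h.1
      have d1 : Disjoint (S.filter (fun i => i.val < x)) L := by
        rw [disjoint_left]
        intro i h1 h2
        rw [hL] at h2
        rw [mem_filter] at h1 h2
        omega
      have d2 : Disjoint (S.filter (fun i => i.val < x) ∪ L) R := by
        rw [disjoint_left]
        intro i h1 h2
        rw [hR] at h2
        rw [hL] at h1
        rw [mem_union, mem_filter, mem_filter] at h1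
        rw [mem_filter] at h2
        omega
      rw [e1]
      conv_rhs => rw [e2]
      rw [card_union_of_disjoint d2, card_union_of_disjoint d1]
    by_cases hj : (A ∩ S).card = 0
    · rw [hj] at h18
      simp only [Nat.choose_zero_succ, zero_add] at h18
      refine h0 S h9 ?_ h18
      intro s hs
      by_contra hlt
      rw [card_eq_zero] at hj
      have : s ∈ A ∩ S := mem_inter.2 ⟨by simp [hA]; omega, hs⟩
      rw [hj] at this
      exact notMem_empty _ this
    · clear_value FS L R
      generalize (A ∩ S).card = j at *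
      generalize FS.card = t at *
      generalize L.card = l at *
      generalize R.card = r at *
      have hj9 : j ≤ 9 := by omega
      have hr : r = 9 - j - l := by omega
      have hl : l ≤ 9 - j := by omega
      subst hr
      interval_cases j
      · exact hj rfl
      all_goals
        simp [Nat.choose] at h18
        try omega
        all_goals
          interval_cases l <;> omega

end Pool.Agent.Q266.N18
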