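import Pool.Agent.Q266.N18

set_option autoImplicit false

open Finset

namespace Pool.Agent.Q266.N18

/-- circulant adjacency with modulus `m`: `j - i ∈ {0,1,2,3,4}` modulo `m` -/
def cadj (m i j : ℕ) : Prop := (i ≤ j ∧ j < i + 5) ∨ j + m < i + 5

instance (m i j : ℕ) : Decidable (cadj m i j) := by unfold cadj; infer_instance

lemma card_le_four_right (m : ℕ) (hm : 6 ≤ m) (i₁ i₂ : ℕ) (h₁ : i₁ < m) (h₂ : i₂ < m)
    (hlt : i₁ < i₂) (Y : Finset ℕ) (hY : ∀ y ∈ Y, y < m ∧ cadj m i₁ y ∧ cadj m i₂ y) :
    Y.card ≤ 4 := by
  obtain ⟨z, hz1, hz2⟩ : ∃ z, (z < m ∧ cadj m i₁ z) ∧ ¬ cadj m i₂ z := by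
    by_cases h : i₂ ≤ i₁ + 5
    · exact ⟨i₂ - 1, ⟨by omega, by unfold cadj; omega⟩, by unfold cadj; omega⟩
    · exact ⟨i₁ + 4, ⟨by omega, by unfold cadj; omega⟩, by unfold cadj; omega⟩
  set N := (range 5).image (fun s => if i₁ + s < m then i₁ + s else i₁ + s - m) with hN
  have hNc : N.card ≤ 5 := by
    calc N.card ≤ (range 5).card := card_image_le
      _ = 5 := card_range 5
  have hmem : ∀ y, y < m → cadj m i₁ y → y ∈ N := by
    intro y hy hc
    rw [hN, mem_image]
    unfold cadj at hc
    rcases hc with hc | hc
    · refine ⟨y - i₁, by rw [mem_range]; omega, ?_⟩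
      rw [if_pos (by omega)]
      omega
    · refine ⟨y + m - i₁, by rw [mem_range]; omega, ?_⟩
      rw [if_neg (by omega)]
      omega
  have hYN : Y ⊆ N.erase z := by
    intro y hy
    obtain ⟨a, b, c⟩ := hY y hy
    rw [mem_erase]
    refine ⟨?_, hmem y a b⟩
    rintro rfl
    exact hz2 c
  have := card_le_card hYN
  rw [card_erase_of_mem (hmem z hz1.1 hz1.2)] at this
  omega

lemma cadj_refl' (m i j : ℕ) (hi : i < m) (hj : j < m) :
    cadj m i j ↔ cadj m (m - 1 - j) (m - 1 - i) := by
  unfold cadj; omega

lemma card_le_four_left (m : ℕ) (hm : 6 ≤ m) (j₁ j₂ : ℕ) (h₁ : j₁ < m) (h₂ : j₂ < m)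
    (hlt : j₁ < j₂) (X : Finset ℕ) (hX : ∀ y ∈ X, y < m ∧ cadj m y j₁ ∧ cadj m y j₂) :
    X.card ≤ 4 := by
  have hinj : Set.InjOn (fun y => m - 1 - y) (X : Set ℕ) := by
    intro a ha b hb hab
    have h1 := (hX a (mem_coe.1 ha)).1
    have h2 := (hX b (mem_coe.1 hb)).1
    simp only at hab
    omega
  rw [← card_image_of_injOn hinj]
  refine card_le_four_right m hm (m - 1 - j₂) (m - 1 - j₁) (by omega) (by omega) (by omega) _ ?_
  intro y hy
  obtain ⟨a, ha, rfl⟩ := mem_image.1 hy
  obtain ⟨h3, h4, h5⟩ := hX a ha
  refine ⟨by omega, ?_, ?_⟩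
  · exact (cadj_refl' m a j₂ h3 h₂).1 h5
  · exact (cadj_refl' m a j₁ h3 h₁).1 h4

/-- Clique plus a sub-graph of the circulant. -/
lemma good_circ (n x a m h : ℕ) (hm : 6 ≤ m) (ham : a ≤ m) (hn : x + a + m = n)
    (hh : h ≤ 5 * a) : Good n (x.choose 2 + h) := by
  classical
  set P : Finset (Fin n × Fin n) := univ.filter (fun p =>
    (x ≤ p.1.val ∧ p.1.val < x + a ∧ x + a ≤ p.2.val) ∧
      cadj m (p.1.val - x) (p.2.val - (x + a))) with hP
  have hPc : 5 * a ≤ P.card := by
    have h1 : ((range a) ×ˢ (range 5)).card = 5 * a := by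
      rw [card_product, card_range, card_range, mul_comm]
    rw [← h1]
    refine card_le_card_of_injOn (fun p : ℕ × ℕ => if hp : p.1 < a ∧ p.2 < 5 then
      ((⟨x + p.1, by omega⟩ : Fin n),
        (⟨x + a + (if p.1 + p.2 < m then p.1 + p.2 else p.1 + p.2 - m), by
          split_ifs <;> omega⟩ : Fin n)) else (⟨x + a, by omega⟩, ⟨x + a, by omega⟩)) ?_ ?_
    · intro p hp
      have hp2 : p.1 < a ∧ p.2 < 5 := by
        have := mem_product.1 (mem_coe.1 hp)
        rw [mem_range, mem_range] at this
        exact this
      simp only [hp2, and_self, dif_pos, hP, coe_filter, mem_univ, true_and, Set.mem_setOf_eq]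
      refine ⟨by omega, ?_⟩
      unfold cadj
      split_ifs with h <;> omega
    · intro p hp q hq hpq
      have hp2 : p.1 < a ∧ p.2 < 5 := by
        have := mem_product.1 (mem_coe.1 hp)
        rw [mem_range, mem_range] at this
        exact this
      have hq2 : q.1 < a ∧ q.2 < 5 := by
        have := mem_product.1 (mem_coe.1 hq)
        rw [mem_range, mem_range] at this
        exact this
      simp only [hp2, hq2, and_self, dif_pos, Prod.mk.injEq, Fin.mk.injEq] at hpq
      obtain ⟨h1, h2⟩ := hpq
      have h3 : p.1 = q.1 := by omega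
      rw [h3] at h2
      refine Prod.ext h3 ?_
      split_ifs at h2 <;> omega
  obtain ⟨F, hF, hFc⟩ := exists_subset_card_eq (le_trans hh hPc)
  rw [← hFc]
  refine good_of_bip n x a (by omega) F ?_ ?_
  · intro p hp
    have := hF hp
    rw [hP, mem_filter] at this
    exact this.2.1
  · intro S h9 hSx h18
    set FS := F.filter (fun p => p.1 ∈ S ∧ p.2 ∈ S) with hFS
    set L := S.filter (fun i => x ≤ i.val ∧ i.val < x + a) with hL
    set R := S.filter (fun i => x + a ≤ i.val) with hR
    have hsub : FS ⊆ L ×ˢ R := by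
      intro p hp
      rw [hFS, mem_filter] at hp
      have := hF hp.1
      rw [hP, mem_filter] at this
      rw [mem_product, hL, hR, mem_filter, mem_filter]
      exact ⟨⟨hp.2.1, this.2.1.1, this.2.1.2.1⟩, hp.2.2, this.2.1.2.2⟩
    have hadj : ∀ p ∈ FS, cadj m (p.1.val - x) (p.2.val - (x + a)) := by
      intro p hp
      rw [hFS, mem_filter] at hp
      have := hF hp.1
      rw [hP, mem_filter] at this
      exact this.2.2
    have hcard := card_le_card hsub
    rw [card_product] at hcard
    have hsum : L.card + R.card = 9 := by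
      rw [← h9, ← card_union_of_disjoint]
      · congr 1
        ext i
        simp only [hL, hR, mem_union, mem_filter]
        constructor
        · rintro (h | h) <;> exact h.1
        · intro hi
          have := hSx i hi
          by_cases h2 : i.val < x + a
          · exact Or.inl ⟨hi, this, h2⟩
          · exact Or.inr ⟨hi, by omega⟩
      · rw [disjoint_left]
        intro i h1 h2
        rw [hR] at h2
        rw [hL] at h1
        rw [mem_filter] at h1 h2
        omega
    -- two rows / two columns
    have rows : L.card * R.card + 2 ≤ FS.card + L.card → 5 ≤ R.card → False := by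
      intro e1 e2
      obtain ⟨l₁, hl₁, l₂, hl₂, hne, hy⟩ := two_full FS L R hsub e1
      wlog hlt : l₁.val < l₂.val generalizing l₁ l₂
      · refine this l₂ hl₂ l₁ hl₁ hne.symm (fun y hy' => (hy y hy').symm) ?_
        have : l₁.val ≠ l₂.val := fun h => hne (Fin.ext h)
        omega
      have b1 := (mem_filter.1 hl₁).2
      have b2 := (mem_filter.1 hl₂).2
      have inj : Set.InjOn (fun i : Fin n => i.val - (x + a)) (R : Set (Fin n)) := by
        intro u hu v hv huv
        have c1 := (mem_filter.1 (mem_coe.1 hu)).2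
        have c2 := (mem_filter.1 (mem_coe.1 hv)).2
        simp only at huv
        apply Fin.ext
        omega
      have := card_le_four_right m hm (l₁.val - x) (l₂.val - x) (by omega) (by omega) (by omega)
        (R.image (fun i => i.val - (x + a))) (by
          intro y hy'
          obtain ⟨r, hr, rfl⟩ := mem_image.1 hy'
          have c1 := (mem_filter.1 hr).2
          refine ⟨by have := r.isLt; omega, ?_, ?_⟩
          · exact hadj _ (hy r hr).1
          · exact hadj _ (hy r hr).2)
      rw [card_image_of_injOn inj] at this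
      omega
    have cols : L.card * R.card + 2 ≤ FS.card + R.card → 5 ≤ L.card → False := by
      intro e1 e2
      have hsub2 : FS.image Prod.swap ⊆ R ×ˢ L := by
        intro p hp
        obtain ⟨q, hq, rfl⟩ := mem_image.1 hp
        have := mem_product.1 (hsub hq)
        exact mem_product.2 ⟨this.2, this.1⟩
      have hcs : (FS.image Prod.swap).card = FS.card :=
        card_image_of_injective _ Prod.swap_injective
      obtain ⟨l₁, hl₁, l₂, hl₂, hne, hy⟩ := two_full (FS.image Prod.swap) R L hsub2
        (by rw [hcs, mul_comm]; exact e1)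
      wlog hlt : l₁.val < l₂.val generalizing l₁ l₂
      · refine this l₂ hl₂ l₁ hl₁ hne.symm (fun y hy' => (hy y hy').symm) ?_
        have : l₁.val ≠ l₂.val := fun h => hne (Fin.ext h)
        omega
      have b1 := (mem_filter.1 hl₁).2
      have b2 := (mem_filter.1 hl₂).2
      have inj : Set.InjOn (fun i : Fin n => i.val - x) (L : Set (Fin n)) := by
        intro u hu v hv huv
        have c1 := (mem_filter.1 (mem_coe.1 hu)).2
        have c2 := (mem_filter.1 (mem_coe.1 hv)).2
        simp only at huv
        apply Fin.ext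
        omega
      have hmem : ∀ u v : Fin n, (u, v) ∈ FS.image Prod.swap → (v, u) ∈ FS := by
        intro u v huv
        obtain ⟨q, hq, hq2⟩ := mem_image.1 huv
        have : q = (v, u) := by
          rw [← Prod.swap_swap q, hq2]; rfl
        rw [← this]; exact hq
      have := card_le_four_left m hm (l₁.val - (x + a)) (l₂.val - (x + a))
        (by have := l₁.isLt; omega) (by have := l₂.isLt; omega) (by omega)
        (L.image (fun i => i.val - x)) (by
          intro y hy'
          obtain ⟨r, hr, rfl⟩ := mem_image.1 hy'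
          have c1 := (mem_filter.1 hr).2
          refine ⟨by omega, ?_, ?_⟩
          · exact hadj _ (hmem _ _ (hy r hr).1)
          · exact hadj _ (hmem _ _ (hy r hr).2))
      rw [card_image_of_injOn inj] at this
      omega
    clear_value FS L R
    rw [h18] at rows cols hcard
    generalize L.card = l at *
    generalize R.card = r at *
    have hr : r = 9 - l := by omega
    have hl : l ≤ 9 := by omega
    subst hr
    interval_cases l <;> simp at rows cols hcard

/-- Clique plus a bipartite graph with at most `17` edges. -/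
lemma good_small (n x a b h : ℕ) (hn : x + a + b = n) (hh : h ≤ a * b) (h17 : h ≤ 17) :
    Good n (x.choose 2 + h) := by
  classical
  set P : Finset (Fin n × Fin n) := univ.filter (fun p =>
    (x ≤ p.1.val ∧ p.1.val < x + a ∧ x + a ≤ p.2.val)) with hP
  have hPc : a * b ≤ P.card := by
    have h1 : ((range a) ×ˢ (range b)).card = a * b := by
      rw [card_product, card_range, card_range]
    rw [← h1]
    by_cases hab : a * b = 0
    · rw [h1, hab]; exact Nat.zero_le _
    have ha : 0 < a := Nat.pos_of_ne_zero (fun h => hab (by rw [h, zero_mul]))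
    have hb : 0 < b := Nat.pos_of_ne_zero (fun h => hab (by rw [h, mul_zero]))
    refine card_le_card_of_injOn (fun p : ℕ × ℕ => if hp : p.1 < a ∧ p.2 < b then
      ((⟨x + p.1, by omega⟩ : Fin n),
        (⟨x + a + p.2, by omega⟩ : Fin n)) else (⟨x + a, by omega⟩, ⟨x + a, by omega⟩)) ?_ ?_
    · intro p hp
      have hp2 : p.1 < a ∧ p.2 < b := by
        have := mem_product.1 (mem_coe.1 hp)
        rw [mem_range, mem_range] at this
        exact this
      simp only [hp2, and_self, dif_pos, hP, coe_filter, mem_univ, true_and, Set.mem_setOf_eq]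
      omega
    · intro p hp q hq hpq
      have hp2 : p.1 < a ∧ p.2 < b := by
        have := mem_product.1 (mem_coe.1 hp)
        rw [mem_range, mem_range] at this
        exact this
      have hq2 : q.1 < a ∧ q.2 < b := by
        have := mem_product.1 (mem_coe.1 hq)
        rw [mem_range, mem_range] at this
        exact this
      simp only [hp2, hq2, and_self, dif_pos, Prod.mk.injEq, Fin.mk.injEq] at hpq
      obtain ⟨h1, h2⟩ := hpq
      exact Prod.ext (by omega) (by omega)
  obtain ⟨F, hF, hFc⟩ := exists_subset_card_eq (le_trans hh hPc)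
  rw [← hFc]
  refine good_of_bip n x a (by omega) F ?_ ?_
  · intro p hp
    have := hF hp
    rw [hP, mem_filter] at this
    exact this.2
  · intro S h9 hSx h18
    have := card_le_card (filter_subset (fun p : Fin n × Fin n => p.1 ∈ S ∧ p.2 ∈ S) F)
    omega

end Pool.Agent.Q266.N18
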