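import Pool.Agent.Q266.N18B

set_option autoImplicit false

open Finset

namespace Pool.Agent.Q266.N18

/-- the edges of a special graph with `12` vertices and `33` edges -/
def L33 : List (Fin 12 × Fin 12) :=
  [(0, 2), (0, 6), (0, 7), (0, 8), (0, 10), (0, 11), (1, 2), (1, 3), (1, 6), (1, 7), (1, 10),
   (1, 11), (2, 3), (2, 4), (2, 7), (2, 8), (2, 11), (3, 4), (3, 7), (3, 8), (3, 10), (3, 11),
   (4, 6), (4, 7), (4, 8), (4, 10), (6, 7), (6, 8), (6, 10), (6, 11), (7, 8), (7, 10), (10, 11)]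

lemma L33_nodup : L33.Nodup := by decide +kernel

lemma L33_lt : ∀ p ∈ L33, p.1 < p.2 := by decide +kernel

def avoids (a b c : ℕ) (u : ℕ) : Bool := !(Nat.beq u a || Nat.beq u b || Nat.beq u c)

lemma L33_good : ∀ a < 12, ∀ b < 12, ∀ c < 12, (Nat.beq a b || Nat.beq a c || Nat.beq b c ||
    !(Nat.beq (L33.countP (fun p => avoids a b c p.1.val && avoids a b c p.2.val)) 18)) =
      true := by
  decide +kernel

def F33 : Finset (Fin 12 × Fin 12) := L33.toFinset

lemma F33_card : F33.card = 33 := by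
  rw [F33, List.toFinset_card_of_nodup L33_nodup]; rfl

lemma F33_lt : ∀ p ∈ F33, p.1 < p.2 := fun p hp => L33_lt p (List.mem_toFinset.1 hp)

lemma F33_good : ∀ T ∈ powersetCard 3 (univ : Finset (Fin 12)),
    (F33.filter (fun p => p.1 ∉ T ∧ p.2 ∉ T)).card ≠ 18 := by
  intro T hT
  obtain ⟨a, b, c, hab, hac, hbc, rfl⟩ := card_eq_three.1 (mem_powersetCard.1 hT).2
  have h := L33_good a.val a.isLt b.val b.isLt c.val c.isLt
  have key : ∀ u : Fin 12, avoids a.val b.val c.val u.val = decide (u ∉ ({a, b, c} : Finset _)) := by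
    intro u
    have h1 : ∀ v : Fin 12, Nat.beq u.val v.val = decide (u = v) := by
      intro v
      rw [Bool.eq_iff_iff, Nat.beq_eq, decide_eq_true_iff, Fin.ext_iff]
    rw [avoids, h1, h1, h1, Bool.eq_iff_iff]
    simp only [Bool.not_eq_true', Bool.or_eq_false_iff, decide_eq_false_iff_not,
      decide_eq_true_eq, mem_insert, mem_singleton, not_or, and_assoc]
  have h2 : (F33.filter (fun p => p.1 ∉ ({a, b, c} : Finset _) ∧ p.2 ∉ ({a, b, c} : Finset _))).card
      = L33.countP (fun p => avoids a b c p.1.val && avoids a b c p.2.val) := by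
    have e1 : F33.filter (fun p => p.1 ∉ ({a, b, c} : Finset _) ∧ p.2 ∉ ({a, b, c} : Finset _)) =
        (L33.filter (fun p => avoids a b c p.1.val && avoids a b c p.2.val)).toFinset := by
      ext p
      rw [F33, mem_filter, List.mem_toFinset, List.mem_toFinset, List.mem_filter, key, key]
      simp only [Bool.and_eq_true, decide_eq_true_eq]
    rw [e1, List.toFinset_card_of_nodup (L33_nodup.filter _), List.countP_eq_length_filter]
  rw [h2]
  intro h18
  rw [h18] at h
  have n1 : Nat.beq a.val b.val = false := by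
    rw [Bool.eq_false_iff, ne_eq, Nat.beq_eq]; exact fun h => hab (Fin.ext h)
  have n2 : Nat.beq a.val c.val = false := by
    rw [Bool.eq_false_iff, ne_eq, Nat.beq_eq]; exact fun h => hac (Fin.ext h)
  have n3 : Nat.beq b.val c.val = false := by
    rw [Bool.eq_false_iff, ne_eq, Nat.beq_eq]; exact fun h => hbc (Fin.ext h)
  rw [n1, n2, n3] at h
  exact absurd h (by decide)

lemma good_special : Good 12 33 := by
  classical
  have hinj : Set.InjOn (fun p : Fin 12 × Fin 12 => s(p.1, p.2)) (F33 : Set (Fin 12 × Fin 12)) := by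
    rintro ⟨p, q⟩ hp ⟨r, s⟩ hr h
    simp only at h
    rcases Sym2.eq_iff.1 h with ⟨rfl, rfl⟩ | ⟨rfl, rfl⟩
    · rfl
    · have h1 := F33_lt _ (mem_coe.1 hp)
      have h2 := F33_lt _ (mem_coe.1 hr)
      simp only at h1 h2
      exact absurd h1 (not_lt.2 h2.le)
  refine ⟨F33.image (fun p => s(p.1, p.2)), ?_, ?_, ?_⟩
  · intro z hz
    obtain ⟨p, hp, rfl⟩ := mem_image.1 hz
    rw [Sym2.mk_isDiag_iff]
    exact (F33_lt p hp).ne
  · rw [card_image_of_injOn hinj, F33_card]
  · intro S h9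
    have h2 : ins (F33.image (fun p => s(p.1, p.2))) S =
        (F33.filter (fun p => p.1 ∉ Sᶜ ∧ p.2 ∉ Sᶜ)).image (fun p => s(p.1, p.2)) := by
      ext z
      simp only [ins, mem_filter, mem_image, mem_compl, not_not]
      constructor
      · rintro ⟨⟨p, hp, rfl⟩, hz⟩
        rw [mk_mem_sym2_iff] at hz
        exact ⟨p, ⟨hp, hz⟩, rfl⟩
      · rintro ⟨p, ⟨hp, hz⟩, rfl⟩
        exact ⟨⟨p, hp, rfl⟩, by rw [mk_mem_sym2_iff]; exact hz⟩
    rw [h2, card_image_of_injOn (hinj.mono (by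
        intro p hp
        exact mem_coe.2 (mem_filter.1 (mem_coe.1 hp)).1))]
    refine F33_good Sᶜ ?_
    rw [mem_powersetCard]
    refine ⟨subset_univ _, ?_⟩
    rw [card_compl, h9, Fintype.card_fin]

/-- number of edges between the parts used beyond the clique -/
lemma good_typeII (n x h : ℕ) (hx : x ≤ n)
    (hh : (n - x ≤ 9 ∧ h ≤ 17 ∧ h ≤ ((n - x) / 2) * (n - x - (n - x) / 2)) ∨
      (10 ≤ n - x ∧ n - x ≤ 11 ∧ h ≤ 5 * (n - x - 6)) ∨
      (12 ≤ n - x ∧ h ≤ 5 * ((n - x) / 2))) : Good n (x.choose 2 + h) := by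
  rcases hh with ⟨h1, h2, h3⟩ | ⟨h1, h2, h3⟩ | ⟨h1, h2⟩
  · exact good_small n x ((n - x) / 2) (n - x - (n - x) / 2) h (by omega) h3 h2
  · exact good_circ n x (n - x - 6) 6 h le_rfl (by omega) (by omega) h3
  · exact good_circ n x ((n - x) / 2) (n - x - (n - x) / 2) h (by omega) (by omega) (by omega) h2

/-- Boolean form of the finite check -/
def chk (x v h : ℕ) : Bool :=
  !(Nat.ble 10 (x + v)) || !(Nat.ble (h + 1) x) ||
  !(Nat.ble (4 * (x * (x - 1) / 2 + h)) ((x + v) * (x + v - 1))) ||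
  (Nat.ble v 9 && Nat.ble h 17 && Nat.ble h ((v / 2) * (v - v / 2))) ||
  (Nat.ble 10 v && Nat.ble v 11 && Nat.ble h (5 * (v - 6))) ||
  (Nat.ble 1 v && Nat.ble x (h + 2)) || (Nat.beq (x + v) 12 && Nat.beq (x * (x - 1) / 2 + h) 33) ||
  (Nat.beq (x + v) 15 && Nat.beq (x * (x - 1) / 2 + h) 52)

lemma chk_all : ∀ x < 28, ∀ v < 12, ∀ h < 28, chk x v h = true := by decide +kernel

lemma finite_check (x : ℕ) (hx : x < 28) (v : ℕ) (hv : v < 12) (h : ℕ) (hh : h < 28)
    (h1 : 10 ≤ x + v) (h2 : h + 1 ≤ x)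
    (h3 : 4 * (x * (x - 1) / 2 + h) ≤ (x + v) * (x + v - 1)) :
    ((v ≤ 9 ∧ h ≤ 17 ∧ h ≤ (v / 2) * (v - v / 2)) ∨ (10 ≤ v ∧ v ≤ 11 ∧ h ≤ 5 * (v - 6))) ∨
      (1 ≤ v ∧ x ≤ h + 2) ∨ (x + v = 12 ∧ x * (x - 1) / 2 + h = 33) ∨
      (x + v = 15 ∧ x * (x - 1) / 2 + h = 52) := by
  have h0 := chk_all x hx v hv h hh
  unfold chk at h0
  simp only [Bool.or_eq_true, Bool.and_eq_true, Bool.not_eq_true', Nat.beq_eq, Nat.ble_eq] at h0
  have f1 : ¬ (Nat.ble 10 (x + v) = false) := by
    rw [Bool.not_eq_false, Nat.ble_eq]; exact h1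
  have f2 : ¬ (Nat.ble (h + 1) x = false) := by
    rw [Bool.not_eq_false, Nat.ble_eq]; exact h2
  have f3 : ¬ (Nat.ble (4 * (x * (x - 1) / 2 + h)) ((x + v) * (x + v - 1)) = false) := by
    rw [Bool.not_eq_false, Nat.ble_eq]; exact h3
  tauto

lemma big_v (x v h : ℕ) (hv : 12 ≤ v) (hx : h + 1 ≤ x)
    (he : 2 * (x * (x - 1)) + 4 * h ≤ (x + v) * (x + v - 1)) : h ≤ 5 * (v / 2) := by
  by_contra hc
  push Not at hc
  have h1 : 5 * v ≤ 2 * x + 1 := by omega
  have h2 : 5 * v ≤ 2 * h + 3 := by omega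
  obtain ⟨y, rfl⟩ : ∃ y, x = y + 1 := ⟨x - 1, by omega⟩
  have e1 : (y + 1) * (y + 1 - 1) = y * y + y := by
    rw [Nat.add_sub_cancel]; ring
  have e2 : (y + 1 + v) * (y + 1 + v - 1) = (y + v) * (y + v) + (y + v) := by
    have : y + 1 + v - 1 = y + v := by omega
    rw [this]; ring
  rw [e1, e2] at he
  nlinarith

lemma small_v (x v : ℕ) (hv : v ≤ 11) (he : 2 * (x * (x - 1)) ≤ (x + v) * (x + v - 1)) :
    x ≤ 27 := by
  by_contra hc
  push Not at hc
  obtain ⟨y, rfl⟩ : ∃ y, x = y + 1 := ⟨x - 1, by omega⟩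
  have e1 : (y + 1) * (y + 1 - 1) = y * y + y := by
    rw [Nat.add_sub_cancel]; ring
  have e2 : (y + 1 + v) * (y + 1 + v - 1) = (y + v) * (y + v) + (y + v) := by
    have : y + 1 + v - 1 = y + v := by omega
    rw [this]; ring
  rw [e1, e2] at he
  nlinarith

lemma exists_x (e : ℕ) : ∃ x h, h + 1 ≤ x ∧ e = x * (x - 1) / 2 + h := by
  induction e with
  | zero => exact ⟨1, 0, by omega, by simp⟩
  | succ e ih =>
    obtain ⟨x, h, h1, h2⟩ := ih
    by_cases hx : h + 2 ≤ x
    · exact ⟨x, h + 1, hx, by omega⟩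
    · refine ⟨x + 1, 0, by omega, ?_⟩
      have h3 : h = x - 1 := by omega
      subst h3
      rw [h2, Nat.add_sub_cancel]
      have h4 := Nat.div_mul_cancel (Nat.even_mul_pred_self x).two_dvd
      have h5 := Nat.div_mul_cancel (Nat.even_mul_succ_self x).two_dvd
      have h6 : (x + 1) * x = x * (x - 1) + 2 * x := by
        obtain ⟨y, rfl⟩ : ∃ y, x = y + 1 := ⟨x - 1, by omega⟩
        rw [Nat.add_sub_cancel]; ring
      have h7 : x * (x + 1) = (x + 1) * x := by ring
      rw [h7] at h5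
      omega

lemma good_half (n e : ℕ) (hn : 10 ≤ n) (he : 2 * e ≤ n.choose 2) : Good n e := by
  obtain ⟨x, h, hx, rfl⟩ := exists_x e
  rw [Nat.choose_two_right] at he
  have q1 := Nat.div_mul_cancel (Nat.even_mul_pred_self x).two_dvd
  have q2 := Nat.div_mul_cancel (Nat.even_mul_pred_self n).two_dvd
  have he' : 2 * (x * (x - 1)) + 4 * h ≤ n * (n - 1) := by omega
  have hxn : x ≤ n := by
    by_contra hc
    push Not at hc
    have : n * (n - 1) ≤ x * (x - 1) := Nat.mul_le_mul (by omega) (by omega)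
    have h2 : 0 < x * (x - 1) := Nat.mul_pos (by omega) (by omega)
    omega
  obtain ⟨v, rfl⟩ : ∃ v, n = x + v := ⟨n - x, by omega⟩
  by_cases hv : 12 ≤ v
  · have := big_v x v h hv hx he'
    rw [← Nat.choose_two_right]
    exact good_typeII _ x h hxn (Or.inr (Or.inr ⟨by omega, by
      rw [Nat.add_sub_cancel_left]; exact this⟩))
  · have hx27 := small_v x v (by omega) (by omega)
    rcases finite_check x (by omega) v (by omega) h (by omega) hn hx (by omega) with
      h1 | h1 | h1 | h1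
    · rw [← Nat.choose_two_right]
      refine good_typeII _ x h hxn ?_
      rw [Nat.add_sub_cancel_left]
      tauto
    · have h3 : (x + 1).choose 2 = x.choose 2 + x := by
        rw [Nat.choose_succ_succ' x 1]
        simp [add_comm]
      have h4 := good_clique_minus (x + v) (x + 1) (x - h) (by omega) (by omega) (by omega)
      have h5 : (x + 1).choose 2 - (x - h) = x * (x - 1) / 2 + h := by
        rw [h3, Nat.choose_two_right]; omega
      rwa [h5] at h4
    · rw [h1.1, h1.2]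
      exact good_special
    · rw [h1.1, h1.2]
      have h4 := (good_clique_minus 15 11 2 (by norm_num) (by norm_num) (by decide)).compl
        (by decide)
      have h5 : Nat.choose 15 2 - (Nat.choose 11 2 - 2) = 52 := by decide
      rwa [h5] at h4

lemma good_all (n e : ℕ) (hn : 10 ≤ n) (he : e ≤ n.choose 2) : Good n e := by
  by_cases h : 2 * e ≤ n.choose 2
  · exact good_half n e hn h
  · have := (good_half n (n.choose 2 - e) hn (by omega)).compl (by omega)
    have h2 : n.choose 2 - (n.choose 2 - e) = e := by omega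
    rwa [h2] at this

lemma good_nine (e : ℕ) (he : e ≤ (9 : ℕ).choose 2) (h18 : e ≠ 18) : Good 9 e := by
  classical
  obtain ⟨F, hF, hFr⟩ := exists_subset_card_eq (s := clq (univ : Finset (Fin 9))) (n := e)
    (by rw [card_clq, card_univ, Fintype.card_fin]; exact he)
  refine ⟨F, ?_, hFr, ?_⟩
  · intro z hz
    exact (mem_filter.1 (hF hz)).2
  · intro S h9
    have : (ins F S).card ≤ F.card := card_le_card (filter_subset _ _)
    have hS : S = univ := by
      rw [← card_eq_iff_eq_univ, h9, Fintype.card_fin]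
    have : ins F S = F := by
      rw [hS]
      refine filter_true_of_mem ?_
      intro z _
      induction z using Sym2.ind with
      | _ a b => simp
    rw [this, hFr]
    exact h18

lemma induce_ncard {n : ℕ} (G : SimpleGraph (Fin n)) (S : Finset (Fin n)) :
    (G.induce (S : Set (Fin n))).edgeSet.ncard = {z ∈ G.edgeSet | z ∈ S.sym2}.ncard := by
  have hinj : Function.Injective (Sym2.map (Subtype.val : ↥(S : Set (Fin n)) → Fin n)) :=
    Sym2.map.injective Subtype.val_injective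
  rw [← Set.ncard_image_of_injective _ hinj]
  congr 1
  ext z
  constructor
  · rintro ⟨w, hw, rfl⟩
    induction w using Sym2.ind with
    | _ a b =>
      rw [SimpleGraph.mem_edgeSet] at hw
      have h1 : G.Adj a.val b.val := hw
      rw [Sym2.map_mk]
      exact ⟨h1, by rw [mk_mem_sym2_iff]; exact ⟨a.2, b.2⟩⟩
  · induction z using Sym2.ind with
    | _ a b =>
      rintro ⟨h1, h2⟩
      rw [mk_mem_sym2_iff] at h2
      refine ⟨s(⟨a, h2.1⟩, ⟨b, h2.2⟩), ?_, ?_⟩
      · rw [SimpleGraph.mem_edgeSet]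
        exact h1
      · rw [Sym2.map_mk]

lemma of_good {n e : ℕ} (h : Good n e) : ∃ G : SimpleGraph (Fin n), G.edgeSet.ncard = e ∧
    ∀ S : Finset (Fin n), S.card = 9 → (G.induce (S : Set (Fin n))).edgeSet.ncard ≠ 18 := by
  obtain ⟨E, hE, hc, hS⟩ := h
  have hes : (SimpleGraph.fromEdgeSet (E : Set (Sym2 (Fin n)))).edgeSet = (E : Set _) := by
    rw [SimpleGraph.edgeSet_fromEdgeSet]
    ext z
    constructor
    · exact fun h => h.1
    · exact fun h => ⟨h, fun h2 => hE z (mem_coe.1 h) h2⟩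
  refine ⟨SimpleGraph.fromEdgeSet (E : Set (Sym2 (Fin n))), ?_, ?_⟩
  · rw [hes, Set.ncard_coe_finset, hc]
  · intro S h9
    rw [induce_ncard, hes]
    have : {z ∈ (E : Set (Sym2 (Fin n))) | z ∈ S.sym2} = (ins E S : Set _) := by
      ext z; simp [ins]
    rw [this, Set.ncard_coe_finset]
    exact hS S h9

end Pool.Agent.Q266.N18
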