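import Pool.Agent.Q266.OddDat

/-!
The base case: four-chromatic graphs with quadratically many critical edges.
-/

set_option autoImplicit false

namespace Pool.Agent.Q266.Odd

open Function

/-- the vertices: side, kind, position -/
abbrev BV (N : ℕ) : Type := Bool × Fin 4 × Fin (2 * N + 1)

/-- oriented edges -/
def brel (N : ℕ) (p q : BV N) : Prop :=
  (p.1 = q.1 ∧ p.2.1 = 1 ∧ q.2.1 = 0 ∧ q.2.2 = p.2.2 + 1) ∨
  (p.1 = q.1 ∧ p.2.1 = 2 ∧ q.2.1 = 3 ∧ q.2.2 = p.2.2) ∨
  (p.1 = false ∧ q.1 = true ∧ p.2.1 = 3 ∧ q.2.1 = 3)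

/-- which side of the bipartition -/
def par {N : ℕ} (p : BV N) : Bool := xor p.1 (decide (p.2.1 = 1 ∨ p.2.1 = 2))

theorem par_ne {N : ℕ} {p q : BV N} (h : brel N p q) : par p ≠ par q := by
  obtain ⟨s, k, i⟩ := p
  obtain ⟨s', k', j⟩ := q
  rcases h with ⟨h1, h2, h3, -⟩ | ⟨h1, h2, h3, -⟩ | ⟨h1, h2, h3, h4⟩
  · dsimp at h1 h2 h3; subst h1; subst h2; subst h3; cases s <;> simp [par]
  · dsimp at h1 h2 h3; subst h1; subst h2; subst h3; cases s <;> simp [par]
  · dsimp at h1 h2 h3 h4; subst h1; subst h2; subst h3; subst h4; simp [par]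

/-- the ordinary edges -/
def BO (N : ℕ) : SimpleGraph (BV N) where
  Adj p q := brel N p q ∨ brel N q p
  symm := ⟨fun _ _ h => h.symm⟩
  loopless := ⟨fun p h => by
    rcases h with h | h
    · exact par_ne h rfl
    · exact par_ne h rfl⟩

/-- the equal pairs -/
def BE (N : ℕ) : Bool × Bool × Fin (2 * N + 1) → BV N × BV N :=
  fun i => ((i.1, 0, i.2.2), (i.1, if i.2.1 then 2 else 1, i.2.2))

/-- the equal pairs in the target -/
def TE : Bool → Bool × Bool := fun s => (s, !s)

theorem succ_val {N : ℕ} (i : Fin (2 * N + 1)) :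
    (i + 1).val = if i.val = 2 * N then 0 else i.val + 1 := by
  have h1 : (i + 1).val = (i.val + 1) % (2 * N + 1) := by
    rw [Fin.val_add, Fin.val_one']
    simp [Nat.add_mod]
  rw [h1]
  have := i.isLt
  split_ifs with h
  · rw [h, Nat.mod_self]
  · exact Nat.mod_eq_of_lt (by omega)

/-- an odd closed list of colours avoiding a list is incompatible with the list being constant -/
theorem oddcyc {N : ℕ} (A W : Fin (2 * N + 1) → Fin 3) (h1 : ∀ i, A i ≠ A (i + 1))
    (h2 : ∀ i, A i ≠ W i) : ∃ i j, W i ≠ W j := by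
  by_contra hcon
  push Not at hcon
  have h3 : ∀ i, A i ≠ W 0 := fun i => by rw [← hcon i 0]; exact h2 i
  have key : ∀ x y z w : Fin 3, x ≠ y → y ≠ z → x ≠ w → y ≠ w → z ≠ w → z = x := by
    intro x y z w h1 h2 h3 h4 h5
    have := x.isLt
    have := y.isLt
    have := z.isLt
    have := w.isLt
    simp only [ne_eq, Fin.ext_iff] at h1 h2 h3 h4 h5
    apply Fin.ext
    omega
  have h4 : ∀ k : ℕ, ∀ i : Fin (2 * N + 1), i.val = 2 * k → A i = A 0 := by
    intro k
    induction k with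
    | zero =>
      intro i hi
      congr 1
      exact Fin.ext (by simpa using hi)
    | succ k ih =>
      intro i hi
      have hlt := i.isLt
      let i' : Fin (2 * N + 1) := ⟨2 * k, by omega⟩
      have e1 : i' + 1 + 1 = i := by
        apply Fin.ext
        rw [succ_val, succ_val]
        have : i'.val = 2 * k := rfl
        rw [this, if_neg (by omega : ¬ 2 * k = 2 * N), if_neg (by omega)]
        omega
      rw [← ih i' rfl, ← e1]
      exact key _ _ _ (W 0) (h1 _) (h1 _) (h3 _) (h3 _) (h3 _)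
  have h5 := h1 ⟨2 * N, by omega⟩
  have e2 : (⟨2 * N, by omega⟩ : Fin (2 * N + 1)) + 1 = 0 := by
    apply Fin.ext
    rw [succ_val]
    simp
  rw [e2, h4 N ⟨2 * N, by omega⟩ rfl] at h5
  exact h5 rfl

/-- the colour of the vertices of kind 3 -/
def cW {N : ℕ} (p : Fin (2 * N + 1)) (x : Fin 3) (i : Fin (2 * N + 1)) : Fin 3 :=
  if i.val = p.val then 0 else x

/-- the colour of the other vertices -/
def cA {N : ℕ} (p : Fin (2 * N + 1)) (x y : Fin 3) (i : Fin (2 * N + 1)) : Fin 3 :=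
  if i.val = p.val then x else if i.val < p.val then (if i.val % 2 = 0 then 0 else y)
  else (if i.val % 2 = 0 then y else 0)

theorem cA_ne_cW {N : ℕ} (p i : Fin (2 * N + 1)) (x y : Fin 3) (h0 : x ≠ 0) (h : x ≠ y) :
    cA p x y i ≠ cW p x i := by
  unfold cA cW
  split_ifs
  · exact h0
  · exact h0.symm
  · exact h.symm
  · exact h.symm
  · exact h0.symm

theorem cA_ne_succ {N : ℕ} (p i : Fin (2 * N + 1)) (x y : Fin 3) (h0 : x ≠ 0) (h1 : y ≠ 0)
    (h : x ≠ y) (hN : 1 ≤ N) : cA p x y i ≠ cA p x y (i + 1) := by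
  have hs := succ_val i
  have hp := p.isLt
  have hi := i.isLt
  unfold cA
  rw [hs]
  split_ifs <;> first
    | (exfalso; omega)
    | exact h0
    | exact h0.symm
    | exact h1
    | exact h1.symm
    | exact h
    | exact h.symm

/-- the colouring of the base graph without the edge between position `p` and position `r` -/
def bcol {N : ℕ} (p r : Fin (2 * N + 1)) (v : BV N) : Fin 3 :=
  if v.1 = false then (if v.2.1 = 3 then cW p 1 v.2.2 else cA p 1 2 v.2.2)
  else (if v.2.1 = 3 then cW r 2 v.2.2 else cA r 2 1 v.2.2)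

theorem bcol_ne {N : ℕ} (hN : 1 ≤ N) (p r : Fin (2 * N + 1)) (v w : BV N) (h : brel N v w)
    (hne : ¬ (v = (false, 3, p) ∧ w = (true, 3, r))) : bcol p r v ≠ bcol p r w := by
  obtain ⟨s, k, i⟩ := v
  obtain ⟨s', k', j⟩ := w
  rcases h with ⟨h1, h2, h3, h4⟩ | ⟨h1, h2, h3, h4⟩ | ⟨h1, h2, h3, h4⟩
  · dsimp at h1 h2 h3 h4
    subst h1; subst h2; subst h3; subst h4
    rcases s with _ | _
    · have := cA_ne_succ p i 1 2 (by decide) (by decide) (by decide) hN
      simpa [bcol] using this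
    · have := cA_ne_succ r i 2 1 (by decide) (by decide) (by decide) hN
      simpa [bcol] using this
  · dsimp at h1 h2 h3 h4
    subst h1; subst h2; subst h3; subst h4
    rcases s with _ | _
    · have := cA_ne_cW p j 1 2 (by decide) (by decide)
      simpa [bcol] using this
    · have := cA_ne_cW r j 2 1 (by decide) (by decide)
      simpa [bcol] using this
  · dsimp at h1 h2 h3 h4
    subst h1; subst h2; subst h3; subst h4
    simp only [bcol, cW]
    by_cases hi : i.val = p.val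
    · by_cases hj : j.val = r.val
      · exact absurd ⟨by rw [Fin.ext hi], by rw [Fin.ext hj]⟩ hne
      · simp [hi, hj]
    · by_cases hj : j.val = r.val
      · simp [hi, hj]
      · simp [hi, hj]

theorem four_col : ∀ x y z w : Fin 3, x ≠ y → z ≠ w → x ≠ z → x ≠ w → y ≠ z → y ≠ w → False := by
  intro x y z w h1 h2 h3 h4 h5 h6
  have := x.isLt
  have := y.isLt
  have := z.isLt
  have := w.isLt
  simp only [ne_eq, Fin.ext_iff] at h1 h2 h3 h4 h5 h6
  omega

theorem base_dat {U : Type} [Fintype U] (M : SimpleGraph U) (c d : U) {g : ℕ}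
    (hM : IsGadget M c d 3 g) (N : ℕ) (hN : 1 ≤ N) :
    Dat (Gam (⊤ : SimpleGraph Bool) TE M c d) 3 N
      (8 * (2 * N + 1) + 4 * (2 * N + 1) * Fintype.card U) := by
  classical
  let φ : BV N ⊕ ((Bool × Bool × Fin (2 * N + 1)) × U) → Bool ⊕ (Bool × U) := fun p => match p with
    | Sum.inl v => Sum.inl (par v)
    | Sum.inr (i, u) => Sum.inr (i.1, u)
  have hrho : ∀ i u, φ (rho (BE N) c d i u) = rho TE c d i.1 u := by
    rintro ⟨s, t, i⟩ u
    by_cases h1 : u = c
    · rw [h1, rho_c, rho_c]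
      simp [φ, BE, TE, par]
    · by_cases h2 : u = d
      · rw [h2, rho_d _ c d _ hM.adj.ne, rho_d _ c d _ hM.adj.ne]
        rcases t with _ | _ <;> simp [φ, BE, TE, par]
      · rw [rho_of_ne _ c d _ u h1 h2, rho_of_ne _ c d _ u h1 h2]
  have hcol : ∀ κ : (Gam (BO N) (BE N) M c d).Coloring (Fin 3), False := by
    intro κ
    have he1 : ∀ s i, κ (Sum.inl (s, 0, i)) = κ (Sum.inl (s, 1, i)) := fun s i =>
      Gam_eq hM κ (s, false, i)
    have he2 : ∀ s i, κ (Sum.inl (s, 0, i)) = κ (Sum.inl (s, 2, i)) := fun s i =>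
      Gam_eq hM κ (s, true, i)
    have ho1 : ∀ s i, κ (Sum.inl (s, 0, i)) ≠ κ (Sum.inl (s, 0, i + 1)) := by
      intro s i
      rw [he1 s i]
      exact κ.valid (Gam_inl (Or.inl (Or.inl ⟨rfl, rfl, rfl, rfl⟩)))
    have ho2 : ∀ s i, κ (Sum.inl (s, 0, i)) ≠ κ (Sum.inl (s, 3, i)) := by
      intro s i
      rw [he2 s i]
      exact κ.valid (Gam_inl (Or.inl (Or.inr (Or.inl ⟨rfl, rfl, rfl, rfl⟩))))
    have ho3 : ∀ i j, κ (Sum.inl (false, 3, i)) ≠ κ (Sum.inl (true, 3, j)) := by
      intro i j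
      exact κ.valid (Gam_inl (Or.inl (Or.inr (Or.inr ⟨rfl, rfl, rfl, rfl⟩))))
    obtain ⟨i, j, hij⟩ := oddcyc (fun i => κ (Sum.inl (false, 0, i)))
      (fun i => κ (Sum.inl (false, 3, i))) (ho1 false) (ho2 false)
    obtain ⟨i', j', hij'⟩ := oddcyc (fun i => κ (Sum.inl (true, 0, i)))
      (fun i => κ (Sum.inl (true, 3, i))) (ho1 true) (ho2 true)
    exact four_col _ _ _ _ hij hij' (ho3 _ _) (ho3 _ _) (ho3 _ _) (ho3 _ _)
  refine ⟨BV N ⊕ ((Bool × Bool × Fin (2 * N + 1)) × U), inferInstance, Gam (BO N) (BE N) M c d, φ,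
    fun i => Sum.inl (false, 3, ⟨i.val, by omega⟩), fun i => Sum.inl (true, 3, ⟨i.val, by omega⟩),
    ?_, ?_, ?_, ?_, ?_, ?_, ?_⟩
  · rintro p p' (⟨x, y, h, rfl, rfl⟩ | ⟨i, u, v, h, rfl, rfl⟩)
    · apply Gam_inl
      rw [SimpleGraph.top_adj]
      rcases h with h | h
      · exact par_ne h
      · exact (par_ne h).symm
    · rw [hrho, hrho]
      exact Gam_rho _ h
  · rintro ⟨κ⟩
    exact hcol κ
  · intro i j h
    have := Sum.inl_injective h
    simp only [Prod.mk.injEq, true_and, Fin.mk.injEq] at this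
    exact Fin.ext this
  · intro i j h
    have := Sum.inl_injective h
    simp only [Prod.mk.injEq, true_and, Fin.mk.injEq] at this
    exact Fin.ext this
  · intro i j
    exact Gam_inl (Or.inl (Or.inr (Or.inr ⟨rfl, rfl, rfl, rfl⟩)))
  · intro i j
    refine SimpleGraph.Colorable.mono_left (Gam_delete _ _) ?_
    refine Gam_ext hM le_rfl (bcol ⟨i.val, by omega⟩ ⟨j.val, by omega⟩) ?_ ?_
    · intro x y h
      rw [SimpleGraph.deleteEdges_adj] at h
      obtain ⟨h | h, hne⟩ := h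
      · apply bcol_ne hN _ _ _ _ h
        rintro ⟨rfl, rfl⟩
        exact hne rfl
      · apply Ne.symm
        apply bcol_ne hN _ _ _ _ h
        rintro ⟨rfl, rfl⟩
        apply hne
        show s(_, _) = s(_, _)
        rw [Sym2.eq_swap]
    · rintro ⟨s, t, k⟩
      rcases s with _ | _ <;> rcases t with _ | _ <;> simp [BE, bcol]
  · simp only [Fintype.card_sum, Fintype.card_prod, Fintype.card_bool, Fintype.card_fin]
    apply le_of_eq
    ring

theorem OG_top_bool (g : ℕ) : OG (⊤ : SimpleGraph Bool) g := by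
  intro v w hw
  exfalso
  have key : ∀ a b : Bool, ∀ w : (⊤ : SimpleGraph Bool).Walk a b, (a = b ↔ Even w.length) := by
    intro a b w
    induction w with
    | nil => simp
    | @cons a a' b h w ih =>
      rw [SimpleGraph.top_adj] at h
      rw [SimpleGraph.Walk.length_cons, Nat.even_add_one, ← ih]
      clear ih
      cases a <;> cases a' <;> cases b <;> simp_all
  exact (Nat.not_even_iff_odd.2 hw) ((key v v w).1 rfl)

theorem Dat.mono_B {VZ : Type} {Z : SimpleGraph VZ} {q N B B' : ℕ} (h : Dat Z q N B)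
    (hB : B ≤ B') : Dat Z q N B' := by
  obtain ⟨V, hV, G, φ, a, b, h1, h2, h3, h4, h5, h6, h7⟩ := h
  exact ⟨V, hV, G, φ, a, b, h1, h2, h3, h4, h5, h6, h7.trans hB⟩

theorem Dat.mono_N {VZ : Type} {Z : SimpleGraph VZ} {q N N' B : ℕ} (h : Dat Z q N B)
    (hN : N' ≤ N) : Dat Z q N' B := by
  obtain ⟨V, hV, G, φ, a, b, h1, h2, h3, h4, h5, h6, h7⟩ := h
  exact ⟨V, hV, G, φ, fun i => a (Fin.castLE hN i), fun i => b (Fin.castLE hN i), h1, h2,
    h3.comp (Fin.castLE_injective hN), h4.comp (Fin.castLE_injective hN), fun i j => h5 _ _,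
    fun i j => h6 _ _, h7⟩

/-- the base case -/
theorem base (g : ℕ) : ∃ C, Inv g 3 C := by
  obtain ⟨U, hU, M, c, d, hM⟩ := exists_gadget 3 (g + 1) (by omega)
  refine ⟨16 + 8 * Fintype.card U, Bool ⊕ (Bool × U), inferInstance,
    Gam (⊤ : SimpleGraph Bool) TE M c d, ?_, 24 + 12 * Fintype.card U, ?_⟩
  · apply OG_Gam (OG_top_bool g) hM.og hM.adj
    intro i
    rw [SimpleGraph.top_adj]
    simp [TE]
  · intro N
    have h := (base_dat M c d hM (N + 1) (by omega)).mono_N (N' := N) (by omega)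
    apply h.mono_B
    apply le_of_eq
    ring

end Pool.Agent.Q266.Odd
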