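import Pool.Agent.Q266.OddGam

/-!
Families of graphs with a fixed number `q` of colours missing, quadratically many critical edges
and a homomorphism to a fixed graph.
-/

set_option autoImplicit false

namespace Pool.Agent.Q266.Odd

open Function

/-- a graph mapping to `Z`, not `q`-colourable, at most `B` vertices, with a complete bipartite
graph `N` by `N` of critical edges -/
def Dat {VZ : Type} (Z : SimpleGraph VZ) (q N B : ℕ) : Prop :=
  ∃ (V : Type) (_ : Fintype V) (G : SimpleGraph V) (φ : V → VZ) (a b : Fin N → V),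
    (∀ x y, G.Adj x y → Z.Adj (φ x) (φ y)) ∧ ¬ G.Colorable q ∧ Injective a ∧ Injective b ∧
    (∀ i j, G.Adj (a i) (b j)) ∧ (∀ i j, (G.deleteEdges {s(a i, b j)}).Colorable q) ∧
    Fintype.card V ≤ B

/-- we may take the graph connected -/
theorem Dat.connect {VZ : Type} {Z : SimpleGraph VZ} {q N B : ℕ} (h : Dat Z q N B) :
    ∃ (V : Type) (_ : Fintype V) (G : SimpleGraph V) (φ : V → VZ) (a b : Fin N → V),
    (∀ x y, G.Adj x y → Z.Adj (φ x) (φ y)) ∧ ¬ G.Colorable q ∧ Injective a ∧ Injective b ∧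
    (∀ i j, G.Adj (a i) (b j)) ∧ (∀ i j, (G.deleteEdges {s(a i, b j)}).Colorable q) ∧
    Fintype.card V ≤ B ∧ G.Preconnected := by
  classical
  obtain ⟨V, hV, G, φ, a, b, hφ, hG, ha, hb, hab, hdel, hB⟩ := h
  rw [SimpleGraph.colorable_iff_forall_connectedComponent] at hG
  push Not at hG
  obtain ⟨K, hK⟩ := hG
  have key : ∀ i j, a i ∈ K.supp ∧ b j ∈ K.supp := by
    intro i j
    by_contra hcon
    apply hK
    refine SimpleGraph.Colorable.of_hom (G' := G.deleteEdges {s(a i, b j)}) ⟨fun x => x.1, ?_⟩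
      (hdel i j)
    intro x y hxy
    rw [SimpleGraph.deleteEdges_adj]
    refine ⟨hxy, ?_⟩
    intro h'
    have h'' : s(x.1, y.1) = s(a i, b j) := h'
    rcases Sym2.eq_iff.mp h'' with ⟨h1, h2⟩ | ⟨h1, h2⟩
    · exact hcon ⟨h1 ▸ x.2, h2 ▸ y.2⟩
    · exact hcon ⟨h2 ▸ y.2, h1 ▸ x.2⟩
  refine ⟨K, inferInstance, K.toSimpleGraph, fun x => φ x.1, fun i => ⟨a i, (key i i).1⟩,
    fun i => ⟨b i, (key i i).2⟩, fun x y h => hφ _ _ h, hK, ?_, ?_, ?_, ?_, ?_, ?_⟩
  · intro i j h
    exact ha (congrArg Subtype.val h)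
  · intro i j h
    exact hb (congrArg Subtype.val h)
  · intro i j
    exact hab i j
  · intro i j
    refine SimpleGraph.Colorable.of_hom (G' := G.deleteEdges {s(a i, b j)}) ⟨fun x => x.1, ?_⟩
      (hdel i j)
    intro x y hxy
    rw [SimpleGraph.deleteEdges_adj] at hxy ⊢
    refine ⟨hxy.1, ?_⟩
    intro h'
    apply hxy.2
    have h'' : s(x.1, y.1) = s(a i, b j) := h'
    show s(x, y) = s((⟨a i, (key i i).1⟩ : K), (⟨b j, (key j j).2⟩ : K))
    rcases Sym2.eq_iff.mp h'' with ⟨h1, h2⟩ | ⟨h1, h2⟩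
    · have e1 : x = ⟨a i, (key i i).1⟩ := Subtype.ext h1
      have e2 : y = ⟨b j, (key j j).2⟩ := Subtype.ext h2
      rw [e1, e2]
    · have e1 : x = ⟨b j, (key j j).2⟩ := Subtype.ext h1
      have e2 : y = ⟨a i, (key i i).1⟩ := Subtype.ext h2
      rw [e1, e2, Sym2.eq_swap]
  · exact le_trans (Fintype.card_le_of_injective (fun x : K => x.1) Subtype.val_injective) hB
  · exact K.connected_toSimpleGraph.preconnected

section step

variable {VZ V U : Type} (Z : SimpleGraph VZ) (G : SimpleGraph V) (φ : V → VZ)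

/-- `G`, with every vertex `x` joined to the palette vertices indexed by the neighbours of `φ x` -/
def Opal : SimpleGraph (V ⊕ VZ) where
  Adj p q := match p, q with
    | Sum.inl x, Sum.inl y => G.Adj x y
    | Sum.inl x, Sum.inr t => Z.Adj (φ x) t
    | Sum.inr t, Sum.inl x => Z.Adj (φ x) t
    | Sum.inr _, Sum.inr _ => False
  symm := ⟨by
    rintro (x | t) (y | s) h
    · exact SimpleGraph.Adj.symm h
    · exact h
    · exact h
    · exact h⟩
  loopless := ⟨by
    rintro (x | t) h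
    · exact G.ne_of_adj h rfl
    · exact h⟩

/-- the edges of `Z`, as pairs of vertices of `Z` -/
abbrev Ix (Z : SimpleGraph VZ) : Type := {p : VZ × VZ // Z.Adj p.1 p.2}

/-- the pairs of palette vertices to be joined by gadgets -/
def Epal (V : Type) (Z : SimpleGraph VZ) : Ix Z → (V ⊕ VZ) × (V ⊕ VZ) :=
  fun i => (Sum.inr i.1.1, Sum.inr i.1.2)

/-- the edges of `Z` -/
def Ez (Z : SimpleGraph VZ) : Ix Z → VZ × VZ := fun i => i.1

theorem step {q g N B : ℕ} (hq : 1 ≤ q) (Z : SimpleGraph VZ) [Fintype VZ] [Fintype U]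
    [Fintype (Ix Z)]
    (M : SimpleGraph U) (c d : U) (hM : IsGadget M c d (q + 1) g) (hd : Dat Z q N B) :
    Dat (Gam Z (Ez Z) M c d) (q + 1) N
      (B + Fintype.card VZ + Fintype.card (Ix Z) * Fintype.card U) := by
  classical
  obtain ⟨V, hV, G, φ, a, b, hφ, hG, ha, hb, hab, hdel, hB, hcon⟩ := hd.connect
  have hVne : Nonempty V := by
    by_contra hne
    rw [not_nonempty_iff] at hne
    exact hG ⟨SimpleGraph.Coloring.mk (fun x => (hne.false x).elim) (fun {x} => (hne.false x).elim)⟩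
  let φ' : (V ⊕ VZ) ⊕ (Ix Z × U) → VZ ⊕ (Ix Z × U) := fun p => match p with
    | Sum.inl (Sum.inl x) => Sum.inl (φ x)
    | Sum.inl (Sum.inr t) => Sum.inl t
    | Sum.inr p => Sum.inr p
  have hrho : ∀ i u, φ' (rho (Epal V Z) c d i u) = rho (Ez Z) c d i u := by
    intro i u
    by_cases h1 : u = c
    · rw [h1, rho_c, rho_c]; rfl
    · by_cases h2 : u = d
      · rw [h2, rho_d _ c d i hM.adj.ne, rho_d _ c d i hM.adj.ne]; rfl
      · rw [rho_of_ne _ c d i u h1 h2, rho_of_ne _ c d i u h1 h2]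
  refine ⟨(V ⊕ VZ) ⊕ (Ix Z × U), inferInstance, Gam (Opal Z G φ) (Epal V Z) M c d, φ',
    fun i => Sum.inl (Sum.inl (a i)), fun i => Sum.inl (Sum.inl (b i)), ?_, ?_, ?_, ?_, ?_, ?_, ?_⟩
  · rintro p p' (⟨x, y, h, rfl, rfl⟩ | ⟨i, u, v, h, rfl, rfl⟩)
    · rcases x with x | t <;> rcases y with y | s
      · exact Gam_inl (hφ x y h)
      · exact Gam_inl h
      · exact Gam_inl (show Z.Adj t (φ y) from SimpleGraph.Adj.symm h)
      · exact h.elim
    · rw [hrho, hrho]
      exact Gam_rho i h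
  · rintro ⟨κ⟩
    -- all palette vertices in one component of `Z` have the same colour
    have hpal : ∀ t s, Z.Adj t s → κ (Sum.inl (Sum.inr t)) = κ (Sum.inl (Sum.inr s)) := by
      intro t s hts
      exact Gam_eq hM κ ⟨(t, s), hts⟩
    obtain ⟨x0⟩ := hVne
    have hall : ∀ x, κ (Sum.inl (Sum.inr (φ x))) = κ (Sum.inl (Sum.inr (φ x0))) := by
      intro x
      obtain ⟨w⟩ := hcon x x0
      induction w with
      | nil => rfl
      | cons h w ih => exact (hpal _ _ (hφ _ _ h)).trans ih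
    have hne : ∀ x y, G.Adj x y → κ (Sum.inl (Sum.inl x)) ≠ κ (Sum.inl (Sum.inr (φ x0))) := by
      intro x y hxy
      rw [← hall y]
      apply κ.valid
      exact Gam_inl (show Z.Adj (φ x) (φ y) from hφ x y hxy)
    apply hG
    let f : Fin (q + 1) := κ (Sum.inl (Sum.inr (φ x0)))
    have hcard : Fintype.card {z : Fin (q + 1) // z ≠ f} = q := by
      have := Fintype.card_subtype_compl (fun z : Fin (q + 1) => z = f)
      simpa using this
    have hne0 : Nonempty {z : Fin (q + 1) // z ≠ f} := by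
      rw [← Fintype.card_pos_iff, hcard]; omega
    obtain ⟨z0⟩ := hne0
    let col : V → {z : Fin (q + 1) // z ≠ f} := fun x =>
      if h : κ (Sum.inl (Sum.inl x)) ≠ f then ⟨κ (Sum.inl (Sum.inl x)), h⟩ else z0
    have hcol : G.Coloring {z : Fin (q + 1) // z ≠ f} := SimpleGraph.Coloring.mk col (by
      intro x y hxy
      have h1 : κ (Sum.inl (Sum.inl x)) ≠ f := hne x y hxy
      have h2 : κ (Sum.inl (Sum.inl y)) ≠ f := hne y x hxy.symm
      simp only [col, dif_pos h1, dif_pos h2]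
      intro h3
      have h4 := congrArg Subtype.val h3
      exact κ.valid (Gam_inl (show (Opal Z G φ).Adj (Sum.inl x) (Sum.inl y) from hxy)) h4)
    have := hcol.colorable
    rwa [hcard] at this
  · intro i j h
    exact ha (Sum.inl_injective (Sum.inl_injective h))
  · intro i j h
    exact hb (Sum.inl_injective (Sum.inl_injective h))
  · intro i j
    exact Gam_inl (show (Opal Z G φ).Adj (Sum.inl (a i)) (Sum.inl (b j)) from hab i j)
  · intro i j
    obtain ⟨σ⟩ := hdel i j
    refine SimpleGraph.Colorable.mono_left (Gam_delete (Sum.inl (a i)) (Sum.inl (b j))) ?_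
    refine Gam_ext hM le_rfl (fun p => match p with
      | Sum.inl x => Fin.castSucc (σ x)
      | Sum.inr _ => Fin.last q) ?_ ?_
    · rintro (x | t) (y | s) h
      · rw [SimpleGraph.deleteEdges_adj] at h
        have h1 : (G.deleteEdges {s(a i, b j)}).Adj x y := by
          rw [SimpleGraph.deleteEdges_adj]
          refine ⟨h.1, fun h' => h.2 ?_⟩
          have h'' : s(x, y) = s(a i, b j) := h'
          show s(Sum.inl x, Sum.inl y) = s(Sum.inl (a i), Sum.inl (b j))
          rw [Sym2.eq_iff] at h'' ⊢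
          simpa using h''
        intro h2
        exact σ.valid h1 (Fin.castSucc_injective _ h2)
      · exact (Fin.castSucc_lt_last _).ne
      · exact (Fin.castSucc_lt_last _).ne'
      · rw [SimpleGraph.deleteEdges_adj] at h
        exact h.1.elim
    · intro i
      rfl
  · rw [Fintype.card_sum, Fintype.card_sum, Fintype.card_prod]
    omega

end step

/-- uniform families -/
def Inv (g q C : ℕ) : Prop :=
  ∃ (VZ : Type) (_ : Fintype VZ) (Z : SimpleGraph VZ), OG Z g ∧ ∃ D : ℕ, ∀ N : ℕ,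
    Dat Z q N (C * N + D)

theorem Inv.succ {g q C : ℕ} (hq : 1 ≤ q) (h : Inv g q C) : Inv g (q + 1) C := by
  classical
  obtain ⟨VZ, hVZ, Z, hZ, D, hD⟩ := h
  obtain ⟨U, hU, M, c, d, hM⟩ := exists_gadget (q + 1) (g + 1) (by omega)
  refine ⟨VZ ⊕ (Ix Z × U), inferInstance, Gam Z (Ez Z) M c d, ?_, 
    D + Fintype.card VZ + Fintype.card (Ix Z) * Fintype.card U, ?_⟩
  · exact OG_Gam hZ hM.og hM.adj (fun i => i.2)
  · intro N
    have := step hq Z M c d hM (hD N)
    rwa [show C * N + D + Fintype.card VZ + Fintype.card (Ix Z) * Fintype.card U =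
      C * N + (D + Fintype.card VZ + Fintype.card (Ix Z) * Fintype.card U) by ring] at this

theorem Inv.all {g C : ℕ} (h : Inv g 3 C) (q : ℕ) (hq : 3 ≤ q) : Inv g q C := by
  induction q, hq using Nat.le_induction with
  | base => exact h
  | succ q hq ih => exact ih.succ (by omega)

end Pool.Agent.Q266.Odd
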