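import Pool.Agent.Q266.OddBase

/-!
From a uniform family to critical graphs on `Fin n`.
-/

set_option autoImplicit false

namespace Pool.Agent.Q266.Odd

open Function

/-- a critical subgraph containing the critical edges -/
theorem extract {VZ : Type} {Z : SimpleGraph VZ} {q N B g : ℕ} (hq : 1 ≤ q) (hN : 1 ≤ N)
    (hZ : OG Z g) (h : Dat Z q N B) :
    ∃ n : ℕ, N ≤ n ∧ n ≤ B ∧ ∃ G : SimpleGraph (Fin n),
      G.chromaticNumber = ((q + 1 : ℕ) : ℕ∞) ∧
      (∀ e ∈ G.edgeSet, (G.deleteEdges {e}).Colorable q) ∧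
      (∀ v : Fin n, ∃ w : Fin n, G.Adj v w) ∧
      OG G g ∧ N ^ 2 ≤ Nat.card G.edgeSet := by
  classical
  obtain ⟨V, hV, G, φ, a, b, hφ, hG, ha, hb, hab, hdel, hB⟩ := h
  obtain ⟨H, ⟨hle, hHc⟩, hmin⟩ := (wellFounded_lt (α := SimpleGraph V)).has_min
    {K | K ≤ G ∧ ¬ K.Colorable q} ⟨G, le_rfl, hG⟩
  have hHab : ∀ i j, H.Adj (a i) (b j) := by
    intro i j
    by_contra hcon
    apply hHc
    refine SimpleGraph.Colorable.mono_left ?_ (hdel i j)
    intro x y hxy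
    rw [SimpleGraph.deleteEdges_adj]
    refine ⟨hle hxy, fun h' => hcon ?_⟩
    have h'' : s(x, y) = s(a i, b j) := h'
    rcases Sym2.eq_iff.mp h'' with ⟨rfl, rfl⟩ | ⟨rfl, rfl⟩
    · exact hxy
    · exact hxy.symm
  have hHdel : ∀ x y, H.Adj x y → (H.deleteEdges {s(x, y)}).Colorable q := by
    intro x y hxy
    by_contra hcon
    refine hmin (H.deleteEdges {s(x, y)}) ⟨(SimpleGraph.deleteEdges_le _).trans hle, hcon⟩ ?_
    refine lt_of_le_of_ne (SimpleGraph.deleteEdges_le _) ?_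
    intro h
    have : (H.deleteEdges {s(x, y)}).Adj x y := by rw [h]; exact hxy
    rw [SimpleGraph.deleteEdges_adj] at this
    exact this.2 rfl
  let W : Type := {v : V // ∃ w, H.Adj v w}
  have hWf : Fintype W := inferInstance
  let e : W ≃ Fin (Fintype.card W) := Fintype.equivFin W
  let f : Fin (Fintype.card W) → V := fun x => (e.symm x).1
  have hf : Injective f := fun x y h => e.symm.injective (Subtype.ext h)
  have hfe : ∀ w : W, f (e w) = w.1 := fun w => by simp [f]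
  let G' : SimpleGraph (Fin (Fintype.card W)) := H.comap f
  have hadj : ∀ x y, G'.Adj x y ↔ H.Adj (f x) (f y) := fun x y => Iff.rfl
  have hG'c : ¬ G'.Colorable q := by
    rintro ⟨κ⟩
    apply hHc
    refine ⟨SimpleGraph.Coloring.mk (fun v => if h : ∃ w, H.Adj v w then κ (e ⟨v, h⟩) else
      ⟨0, hq⟩) ?_⟩
    intro x y hxy
    have h1 : ∃ w, H.Adj x w := ⟨y, hxy⟩
    have h2 : ∃ w, H.Adj y w := ⟨x, hxy.symm⟩
    simp only [dif_pos h1, dif_pos h2]
    apply κ.valid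
    rw [hadj, hfe, hfe]
    exact hxy
  have hG'del : ∀ x y, G'.Adj x y → (G'.deleteEdges {s(x, y)}).Colorable q := by
    intro x y hxy
    refine SimpleGraph.Colorable.of_hom (G' := H.deleteEdges {s(f x, f y)}) ⟨f, ?_⟩
      (hHdel _ _ hxy)
    intro u v huv
    rw [SimpleGraph.deleteEdges_adj] at huv ⊢
    refine ⟨huv.1, fun h' => huv.2 ?_⟩
    have h'' : s(f u, f v) = s(f x, f y) := h'
    show s(u, v) = s(x, y)
    rw [Sym2.eq_iff] at h'' ⊢
    rcases h'' with ⟨h1, h2⟩ | ⟨h1, h2⟩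
    · exact Or.inl ⟨hf h1, hf h2⟩
    · exact Or.inr ⟨hf h1, hf h2⟩
  have haW : ∀ i, ∃ w, H.Adj (a i) w := fun i => ⟨b i, hHab i i⟩
  have hbW : ∀ j, ∃ w, H.Adj (b j) w := fun j => ⟨a j, (hHab j j).symm⟩
  let a' : Fin N → Fin (Fintype.card W) := fun i => e ⟨a i, haW i⟩
  let b' : Fin N → Fin (Fintype.card W) := fun j => e ⟨b j, hbW j⟩
  have ha' : ∀ i, f (a' i) = a i := fun i => hfe _
  have hb' : ∀ j, f (b' j) = b j := fun j => hfe _
  have hab' : ∀ i j, G'.Adj (a' i) (b' j) := by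
    intro i j
    rw [hadj, ha', hb']
    exact hHab i j
  have ha'i : Injective a' := by
    intro i j h
    apply ha
    rw [← ha', ← ha', h]
  have hb'i : Injective b' := by
    intro i j h
    apply hb
    rw [← hb', ← hb', h]
  have hcol : G'.Colorable (q + 1) := by
    let i0 : Fin N := ⟨0, hN⟩
    obtain ⟨κ⟩ := hG'del _ _ (hab' i0 i0)
    refine ⟨SimpleGraph.Coloring.mk (fun v => if v = a' i0 then Fin.last q else
      Fin.castSucc (κ v)) ?_⟩
    intro u v huv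
    by_cases hu : u = a' i0
    · by_cases hv : v = a' i0
      · subst hu
        exact absurd huv (by rw [hv]; exact G'.loopless.irrefl _)
      · simp only [if_pos hu, if_neg hv]
        exact (Fin.castSucc_lt_last _).ne'
    · by_cases hv : v = a' i0
      · simp only [if_neg hu, if_pos hv]
        exact (Fin.castSucc_lt_last _).ne
      · simp only [if_neg hu, if_neg hv]
        intro h
        have h1 := Fin.castSucc_injective _ h
        refine κ.valid ?_ h1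
        rw [SimpleGraph.deleteEdges_adj]
        refine ⟨huv, fun h' => ?_⟩
        have h'' : s(u, v) = s(a' i0, b' i0) := h'
        rcases Sym2.eq_iff.mp h'' with ⟨h1, h2⟩ | ⟨h1, h2⟩
        · exact hu h1
        · exact hv h2
  refine ⟨Fintype.card W, ?_, ?_, G', ?_, ?_, ?_, ?_, ?_⟩
  · have := Fintype.card_le_of_injective a' ha'i
    simpa using this
  · exact le_trans (Fintype.card_le_of_injective (fun w : W => w.1) Subtype.val_injective) hB
  · rw [Nat.cast_add, Nat.cast_one]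
    exact SimpleGraph.chromaticNumber_eq_iff_colorable_not_colorable.2 ⟨hcol, hG'c⟩
  · intro ed hed
    induction ed using Sym2.ind with
    | _ x y => exact hG'del x y hed
  · intro v
    obtain ⟨w, hw⟩ := (e.symm v).2
    refine ⟨e ⟨w, ⟨_, hw.symm⟩⟩, ?_⟩
    rw [hadj, hfe]
    exact hw
  · have hom : G' →g Z := ⟨fun x => φ (f x), fun {x y} h => hφ _ _ (hle h)⟩
    exact hZ.of_hom hom
  · let F : Fin N × Fin N → G'.edgeSet := fun p => ⟨s(a' p.1, b' p.2), hab' p.1 p.2⟩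
    have hF : Injective F := by
      rintro ⟨i, j⟩ ⟨i', j'⟩ h
      have h1 : s(a' i, b' j) = s(a' i', b' j') := congrArg Subtype.val h
      rcases Sym2.eq_iff.mp h1 with ⟨h2, h3⟩ | ⟨h2, h3⟩
      · rw [ha'i h2, hb'i h3]
      · exfalso
        have h4 := hab' i j'
        rw [h2] at h4
        exact G'.loopless.irrefl _ h4
    have := Nat.card_le_card_of_injective F hF
    rw [Nat.card_prod, Nat.card_fin] at this
    rw [sq]
    exact this

theorem main (l : ℕ) : ∃ c : ℝ, 0 < c ∧ ∀ k : ℕ, 4 ≤ k → ∀ N : ℕ, ∃ n : ℕ, N ≤ n ∧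
      ∃ G : SimpleGraph (Fin n),
        G.chromaticNumber = (k : ℕ∞) ∧
        (∀ e ∈ G.edgeSet, (G.deleteEdges {e}).Colorable (k - 1)) ∧
        (∀ v : Fin n, ∃ w : Fin n, G.Adj v w) ∧
        (∀ (v : Fin n) (p : G.Walk v v), p.IsCycle → Odd p.length → l ≤ p.length) ∧
        c * (n : ℝ) ^ 2 ≤ (Nat.card G.edgeSet : ℝ) := by
  obtain ⟨C, hC⟩ := base l
  refine ⟨1 / ((C : ℝ) + 1) ^ 2, by positivity, ?_⟩
  intro k hk N
  obtain ⟨q, rfl⟩ : ∃ q, k = q + 1 := ⟨k - 1, by omega⟩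
  obtain ⟨VZ, hVZ, Z, hZ, D, hD⟩ := hC.all q (by omega)
  obtain ⟨n, hn1, hn2, G, h1, h2, h3, h4, h5⟩ := extract (by omega) (show 1 ≤ N + D + 1 by omega) hZ
    (hD (N + D + 1))
  refine ⟨n, by omega, G, h1, ?_, h3, ?_, ?_⟩
  · intro e he
    exact h2 e he
  · intro v p _ hp
    exact (h4 v p hp).le
  · have h6 : n ≤ (C + 1) * (N + D + 1) := by
      calc n ≤ C * (N + D + 1) + D := hn2
        _ ≤ (C + 1) * (N + D + 1) := by ring_nf; omega
    have h7 : (n : ℝ) ≤ ((C : ℝ) + 1) * ((N + D + 1 : ℕ) : ℝ) := by exact_mod_cast h6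
    have h8 : (((N + D + 1 : ℕ) : ℝ)) ^ 2 ≤ (Nat.card G.edgeSet : ℝ) := by exact_mod_cast h5
    have h9 : (n : ℝ) ^ 2 ≤ (((C : ℝ) + 1) * ((N + D + 1 : ℕ) : ℝ)) ^ 2 := by
      gcongr
    rw [mul_pow] at h9
    rw [div_mul_eq_mul_div, one_mul, div_le_iff₀ (by positivity)]
    calc (n : ℝ) ^ 2 ≤ ((C : ℝ) + 1) ^ 2 * (((N + D + 1 : ℕ) : ℝ)) ^ 2 := h9
      _ ≤ ((C : ℝ) + 1) ^ 2 * (Nat.card G.edgeSet : ℝ) := by gcongr
      _ = (Nat.card G.edgeSet : ℝ) * ((C : ℝ) + 1) ^ 2 := by ring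

end Pool.Agent.Q266.Odd
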