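import Mathlib
import Pool.Agent.Y387.CR.Shift

/-!
Replacing pairs of vertices by equality gadgets, keeping short odd closed walks out.
-/

set_option autoImplicit false

namespace Pool.Agent.Q266.Odd

/-- no odd closed walk of length at most `g` -/
def OG {V : Type} (G : SimpleGraph V) (g : ℕ) : Prop :=
  ∀ (v : V) (w : G.Walk v v), Odd w.length → g < w.length

/-- a walk of length `n` -/
def WL {V : Type} (G : SimpleGraph V) (n : ℕ) (x y : V) : Prop :=
  ∃ w : G.Walk x y, w.length = n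

theorem WL.zero {V : Type} (G : SimpleGraph V) (x : V) : WL G 0 x x := ⟨.nil, rfl⟩

theorem WL.cons {V : Type} {G : SimpleGraph V} {n : ℕ} {x y z : V} (h : G.Adj x y)
    (w : WL G n y z) : WL G (n + 1) x z := by
  obtain ⟨w, rfl⟩ := w
  exact ⟨.cons h w, rfl⟩

theorem WL.symm {V : Type} {G : SimpleGraph V} {n : ℕ} {x y : V}
    (w : WL G n x y) : WL G n y x := by
  obtain ⟨w, rfl⟩ := w
  exact ⟨w.reverse, by simp⟩

theorem OG.wl {V : Type} {G : SimpleGraph V} {g n : ℕ} (h : OG G g) {x : V} (w : WL G n x x)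
    (hn : n % 2 = 1) : g < n := by
  obtain ⟨w, rfl⟩ := w
  exact h x w (Nat.odd_iff.2 hn)

theorem OG.of_hom {V W : Type} {G : SimpleGraph V} {H : SimpleGraph W} {g : ℕ} (h : OG H g)
    (φ : G →g H) : OG G g := by
  intro v w hw
  have := h (φ v) (w.map φ) (by simpa using hw)
  simpa using this

theorem OG.mono {V : Type} {G : SimpleGraph V} {g g' : ℕ} (h : OG G g) (hg : g' ≤ g) : OG G g' :=
  fun v w hw => lt_of_le_of_lt hg (h v w hw)

variable {V U ι : Type}

open Classical in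
/-- the copy number `i` of the gadget; `c` and `d` are identified with the two ends -/
noncomputable def rho (E : ι → V × V) (c d : U) (i : ι) (u : U) : V ⊕ (ι × U) :=
  if u = c then Sum.inl (E i).1 else if u = d then Sum.inl (E i).2 else Sum.inr (i, u)

theorem rho_c (E : ι → V × V) (c d : U) (i : ι) : rho E c d i c = Sum.inl (E i).1 := by
  simp [rho]

theorem rho_d (E : ι → V × V) (c d : U) (i : ι) (hcd : c ≠ d) :
    rho E c d i d = Sum.inl (E i).2 := by
  simp [rho, hcd.symm]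

theorem rho_of_ne (E : ι → V × V) (c d : U) (i : ι) (u : U) (h1 : u ≠ c) (h2 : u ≠ d) :
    rho E c d i u = Sum.inr (i, u) := by
  simp [rho, h1, h2]

/-- The graph `O` together with a copy of `M - cd` for every pair `E i`, in which `c` and `d` are the
two members of that pair. -/
def Gam (O : SimpleGraph V) (E : ι → V × V) (M : SimpleGraph U) (c d : U) :
    SimpleGraph (V ⊕ (ι × U)) where
  Adj p q := (∃ x y, O.Adj x y ∧ p = Sum.inl x ∧ q = Sum.inl y) ∨
    (∃ i u v, (M.deleteEdges {s(c, d)}).Adj u v ∧ p = rho E c d i u ∧ q = rho E c d i v)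
  symm := ⟨by
    rintro p q (⟨x, y, h, h1, h2⟩ | ⟨i, u, v, h, h1, h2⟩)
    · exact Or.inl ⟨y, x, h.symm, h2, h1⟩
    · exact Or.inr ⟨i, v, u, h.symm, h2, h1⟩⟩
  loopless := ⟨by
    rintro p (⟨x, y, h, h1, h2⟩ | ⟨i, u, v, h, h1, h2⟩)
    · rw [h1] at h2
      exact O.ne_of_adj h (Sum.inl_injective h2)
    · have hne := (M.deleteEdges {s(c, d)}).ne_of_adj h
      have hncd : ¬ s(u, v) = s(c, d) := by
        rw [SimpleGraph.deleteEdges_adj] at h
        exact fun h' => h.2 h'
      rw [h1] at h2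
      unfold rho at h2
      split_ifs at h2 with a1 a2 a3 a4 a5 a6
      · exact hne (a1.trans a2.symm)
      · exact hncd (by rw [a1, a3])
      · exact hncd (by rw [a4, a5, Sym2.eq_swap])
      · exact hne (a4.trans a6.symm)
      · simp at h2
        exact hne h2⟩

theorem Gam_inl {O : SimpleGraph V} {E : ι → V × V} {M : SimpleGraph U} {c d : U} {x y : V}
    (h : O.Adj x y) : (Gam O E M c d).Adj (Sum.inl x) (Sum.inl y) :=
  Or.inl ⟨x, y, h, rfl, rfl⟩

theorem Gam_rho {O : SimpleGraph V} {E : ι → V × V} {M : SimpleGraph U} {c d : U} {u v : U} (i : ι)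
    (h : (M.deleteEdges {s(c, d)}).Adj u v) :
    (Gam O E M c d).Adj (rho E c d i u) (rho E c d i v) :=
  Or.inr ⟨i, u, v, h, rfl, rfl⟩

/-- gadget data: `M` has no short odd closed walks, `cd` is an edge, and in the colourings of
`M - cd` with `q` colours, which exist, `c` and `d` have the same colour. -/
structure IsGadget (M : SimpleGraph U) (c d : U) (q g : ℕ) : Prop where
  adj : M.Adj c d
  og : OG M g
  col : ∃ φ : U → Fin q, (∀ u v, (M.deleteEdges {s(c, d)}).Adj u v → φ u ≠ φ v) ∧ φ c = φ d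
  eq : ∀ κ : U → Fin q, (∀ u v, (M.deleteEdges {s(c, d)}).Adj u v → κ u ≠ κ v) → κ c = κ d

theorem exists_gadget (q g : ℕ) (hq : 1 ≤ q) : ∃ (U : Type) (_ : Fintype U) (M : SimpleGraph U)
    (c d : U), IsGadget M c d q g := by
  classical
  obtain ⟨U, hU, K, hK1, hK2⟩ := Pool.Agent.Y387.CR.exists_odd_girth g (Fin q)
  have hfin : Fintype U := Fintype.ofFinite U
  have hnc : ¬ K.Colorable q := by
    rintro ⟨f⟩
    obtain ⟨u, v, huv, hf⟩ := hK2 f
    exact f.valid huv hf
  obtain ⟨M, ⟨hle, hMc⟩, hmin⟩ := (wellFounded_lt (α := SimpleGraph U)).has_min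
    {G | G ≤ K ∧ ¬ G.Colorable q} ⟨K, le_rfl, hnc⟩
  have hne : M ≠ ⊥ := by
    rintro rfl
    apply hMc
    exact ⟨SimpleGraph.Coloring.mk (fun _ => ⟨0, hq⟩) (fun h => absurd h (by simp))⟩
  obtain ⟨c, d, hcd⟩ := SimpleGraph.ne_bot_iff_exists_adj.mp hne
  have hDle : M.deleteEdges {s(c, d)} ≤ M := SimpleGraph.deleteEdges_le _
  have hlt : M.deleteEdges {s(c, d)} < M := by
    refine lt_of_le_of_ne hDle ?_
    intro h
    have : (M.deleteEdges {s(c, d)}).Adj c d := by rw [h]; exact hcd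
    rw [SimpleGraph.deleteEdges_adj] at this
    exact this.2 rfl
  have hcol : (M.deleteEdges {s(c, d)}).Colorable q := by
    by_contra h
    exact hmin _ ⟨hDle.trans hle, h⟩ hlt
  have hall : ∀ κ : U → Fin q, (∀ u v, (M.deleteEdges {s(c, d)}).Adj u v → κ u ≠ κ v) →
      κ c = κ d := by
    intro κ hκ
    by_contra h
    apply hMc
    refine ⟨SimpleGraph.Coloring.mk κ ?_⟩
    intro a b hab
    by_cases he : s(a, b) = s(c, d)
    · rcases Sym2.eq_iff.mp he with ⟨rfl, rfl⟩ | ⟨rfl, rfl⟩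
      · exact h
      · exact Ne.symm h
    · exact hκ a b (by rw [SimpleGraph.deleteEdges_adj]; exact ⟨hab, he⟩)
  obtain ⟨φ⟩ := hcol
  refine ⟨U, hfin, M, c, d, ⟨hcd, ?_, ⟨φ, fun u v h => φ.valid h, hall φ fun u v h => φ.valid h⟩,
    hall⟩⟩
  have : OG K g := fun v w hw => hK1 v w hw
  exact this.of_hom (.ofLE hle)

/-- colourings of `Gam` are constant on the pairs `E i` -/
theorem Gam_eq {O : SimpleGraph V} {E : ι → V × V} {M : SimpleGraph U} {c d : U} {q g : ℕ}
    (hM : IsGadget M c d q g) (κ : (Gam O E M c d).Coloring (Fin q)) (i : ι) :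
    κ (Sum.inl (E i).1) = κ (Sum.inl (E i).2) := by
  have h := hM.eq (fun u => κ (rho E c d i u)) (fun u v h => κ.valid (Gam_rho i h))
  simpa only [rho_c, rho_d E c d i hM.adj.ne] using h

/-- extending colourings to `Gam` -/
theorem Gam_ext {O : SimpleGraph V} {E : ι → V × V} {M : SimpleGraph U} {c d : U} {q q' g : ℕ}
    (hM : IsGadget M c d q g) (hq : q ≤ q') (σ : V → Fin q') (hO : ∀ x y, O.Adj x y → σ x ≠ σ y)
    (hE : ∀ i, σ (E i).1 = σ (E i).2) : (Gam O E M c d).Colorable q' := by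
  classical
  obtain ⟨φ, hφ, hcd⟩ := hM.col
  let j : Fin q → Fin q' := Fin.castLE hq
  have hj : Function.Injective j := Fin.castLE_injective hq
  let κ : V ⊕ (ι × U) → Fin q' := fun p => match p with
    | Sum.inl x => σ x
    | Sum.inr (i, u) => Equiv.swap (j (φ c)) (σ (E i).1) (j (φ u))
  have key : ∀ i u, κ (rho E c d i u) = Equiv.swap (j (φ c)) (σ (E i).1) (j (φ u)) := by
    intro i u
    by_cases h1 : u = c
    · rw [h1, rho_c, Equiv.swap_apply_left]
    · by_cases h2 : u = d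
      · rw [h2, rho_d E c d i hM.adj.ne, ← hcd, Equiv.swap_apply_left]
        exact (hE i).symm
      · rw [rho_of_ne E c d i u h1 h2]
  refine ⟨SimpleGraph.Coloring.mk κ ?_⟩
  rintro p p' (⟨x, y, h, rfl, rfl⟩ | ⟨i, u, v, h, rfl, rfl⟩)
  · exact hO x y h
  · rw [key, key]
    intro h'
    exact hφ u v h (hj ((Equiv.swap _ _).injective h'))

/-- deleting an ordinary edge -/
theorem Gam_delete {O : SimpleGraph V} {E : ι → V × V} {M : SimpleGraph U} {c d : U}
    (x0 y0 : V) :
    (Gam O E M c d).deleteEdges {s(Sum.inl x0, Sum.inl y0)} ≤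
      Gam (O.deleteEdges {s(x0, y0)}) E M c d := by
  intro p p' h
  rw [SimpleGraph.deleteEdges_adj] at h
  obtain ⟨h | h, hne⟩ := h
  · obtain ⟨x, y, h, rfl, rfl⟩ := h
    left
    refine ⟨x, y, ?_, rfl, rfl⟩
    rw [SimpleGraph.deleteEdges_adj]
    refine ⟨h, fun h' => hne ?_⟩
    have h'' : s(x, y) = s(x0, y0) := h'
    show s(Sum.inl x, Sum.inl y) = s(Sum.inl x0, Sum.inl y0)
    rw [Sym2.eq_iff] at h'' ⊢
    simpa using h''
  · exact Or.inr h

section og

variable {Z : SimpleGraph V} {E : ι → V × V} {M : SimpleGraph U} {c d : U} {g : ℕ}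

/-- shadows of walks ending at `t` that start in a gadget -/
def Qs (Z : SimpleGraph V) (E : ι → V × V) (M : SimpleGraph U) (c d : U) (t : V) (i : ι) (u : U)
    (n : ℕ) : Prop :=
  ∃ m1 m2, m1 + m2 ≤ n ∧ (m1 + m2) % 2 = n % 2 ∧
    ((WL Z m1 (E i).1 t ∧ WL M m2 u c) ∨ (WL Z m1 (E i).2 t ∧ WL M m2 u d))

/-- shadows of walks ending at `t` -/
def Ps (Z : SimpleGraph V) (E : ι → V × V) (M : SimpleGraph U) (c d : U) (t : V)
    (p : V ⊕ (ι × U)) (n : ℕ) : Prop :=
  match p with
  | Sum.inl s => ∃ m, m ≤ n ∧ m % 2 = n % 2 ∧ WL Z m s t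
  | Sum.inr (i, u) => Qs Z E M c d t i u n

theorem Qs_of_Ps (hcd : c ≠ d) {t : V} {i : ι} {u : U} {n : ℕ}
    (h : Ps Z E M c d t (rho E c d i u) n) : Qs Z E M c d t i u n := by
  by_cases h1 : u = c
  · subst h1
    rw [rho_c] at h
    obtain ⟨m, hm, hp, hw⟩ := h
    exact ⟨m, 0, by omega, by omega, Or.inl ⟨hw, WL.zero _ _⟩⟩
  · by_cases h2 : u = d
    · subst h2
      rw [rho_d E c u i hcd] at h
      obtain ⟨m, hm, hp, hw⟩ := h
      exact ⟨m, 0, by omega, by omega, Or.inr ⟨hw, WL.zero _ _⟩⟩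
    · rw [rho_of_ne E c d i u h1 h2] at h
      exact h

theorem Ps_of_Qs (hM : OG M (g + 1)) (hadj : M.Adj c d) (hE : ∀ i, Z.Adj (E i).1 (E i).2)
    {t : V} {i : ι} {u : U} {n : ℕ} (hn : n ≤ g)
    (h : Qs Z E M c d t i u n) : Ps Z E M c d t (rho E c d i u) n := by
  by_cases h1 : u = c
  · subst h1
    rw [rho_c]
    obtain ⟨m1, m2, hm, hp, ⟨hw, hw'⟩ | ⟨hw, hw'⟩⟩ := h
    · have h2 : m2 % 2 = 0 := by
        by_contra h'
        have := hM.wl hw' (by omega)
        omega
      exact ⟨m1, by omega, by omega, hw⟩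
    · have h2 : m2 % 2 = 1 := by
        by_contra h'
        have := hM.wl (WL.cons hadj.symm hw') (by omega)
        omega
      exact ⟨m1 + 1, by omega, by omega, WL.cons (hE i) hw⟩
  · by_cases h2 : u = d
    · subst h2
      rw [rho_d E c u i hadj.ne]
      obtain ⟨m1, m2, hm, hp, ⟨hw, hw'⟩ | ⟨hw, hw'⟩⟩ := h
      · have h2 : m2 % 2 = 1 := by
          by_contra h'
          have := hM.wl (WL.cons hadj hw') (by omega)
          omega
        exact ⟨m1 + 1, by omega, by omega, WL.cons (hE i).symm hw⟩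
      · have h2 : m2 % 2 = 0 := by
          by_contra h'
          have := hM.wl hw' (by omega)
          omega
        exact ⟨m1, by omega, by omega, hw⟩
    · rw [rho_of_ne E c d i u h1 h2]
      exact h

theorem Ps_walk (hM : OG M (g + 1)) (hadj : M.Adj c d) (hE : ∀ i, Z.Adj (E i).1 (E i).2) (t : V)
    (p q : V ⊕ (ι × U)) (w : (Gam Z E M c d).Walk p q) (hq : q = Sum.inl t) (hw : w.length ≤ g) :
    Ps Z E M c d t p w.length := by
  induction w with
  | nil =>
    subst hq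
    exact ⟨0, le_rfl, rfl, WL.zero _ _⟩
  | @cons p p' q h w ih =>
    rw [SimpleGraph.Walk.length_cons] at hw ⊢
    have ih' := ih hq (by omega)
    rcases h with ⟨x, y, h, rfl, rfl⟩ | ⟨i, u, v, h, rfl, rfl⟩
    · obtain ⟨m, hm, hp, hw'⟩ := ih'
      exact ⟨m + 1, by omega, by omega, WL.cons h hw'⟩
    · have h1 := Qs_of_Ps hadj.ne ih'
      have hadj' : M.Adj u v := SimpleGraph.deleteEdges_le _ h
      apply Ps_of_Qs hM hadj hE hw
      obtain ⟨m1, m2, hm, hp, ⟨hw1, hw2⟩ | ⟨hw1, hw2⟩⟩ := h1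
      · exact ⟨m1, m2 + 1, by omega, by omega, Or.inl ⟨hw1, WL.cons hadj' hw2⟩⟩
      · exact ⟨m1, m2 + 1, by omega, by omega, Or.inr ⟨hw1, WL.cons hadj' hw2⟩⟩

theorem inside (p q : V ⊕ (ι × U)) (w : (Gam Z E M c d).Walk p q)
    (hs : ∀ x, Sum.inl x ∉ w.support) :
    ∃ i u v, p = Sum.inr (i, u) ∧ q = Sum.inr (i, v) ∧ WL M w.length u v := by
  induction w with
  | @nil p =>
    rcases p with x | ⟨i, u⟩
    · exact absurd (by simp) (hs x)
    · exact ⟨i, u, u, rfl, rfl, WL.zero _ _⟩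
  | @cons p p' q h w ih =>
    obtain ⟨i, u, v, h1, h2, h3⟩ := ih (fun x hx => hs x (by
      rw [SimpleGraph.Walk.support_cons]; exact List.mem_cons_of_mem _ hx))
    have hp : ∀ x, p ≠ Sum.inl x := by
      intro x hx
      exact hs x (by rw [SimpleGraph.Walk.support_cons, hx]; exact List.mem_cons_self)
    rcases h with ⟨x, y, h, hx, hy⟩ | ⟨i', u', v', h, hx, hy⟩
    · exact absurd hx (hp x)
    · have hu' : p = Sum.inr (i', u') := by
        rw [hx]
        unfold rho at hx ⊢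
        split_ifs at hx ⊢
        · exact absurd hx (hp _)
        · exact absurd hx (hp _)
        · rfl
      have hv' : p' = Sum.inr (i', v') := by
        rw [hy]
        unfold rho at hy ⊢
        rw [h1] at hy
        split_ifs at hy ⊢
        rfl
      rw [hv'] at h1
      have h4 := Sum.inr_injective h1
      rw [Prod.mk.injEq] at h4
      obtain ⟨rfl, rfl⟩ := h4
      refine ⟨i', u', v, hu', h2, ?_⟩
      rw [SimpleGraph.Walk.length_cons]
      exact WL.cons (SimpleGraph.deleteEdges_le _ h) h3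

/-- the gadgets create no short odd closed walk -/
theorem OG_Gam (hZ : OG Z g) (hM : OG M (g + 1)) (hadj : M.Adj c d)
    (hE : ∀ i, Z.Adj (E i).1 (E i).2) : OG (Gam Z E M c d) g := by
  classical
  intro p w hw
  by_contra hlen
  push Not at hlen
  by_cases hs : ∃ t, Sum.inl t ∈ w.support
  · obtain ⟨t, ht⟩ := hs
    have h1 := Ps_walk hM hadj hE t _ _ (w.rotate (Sum.inl t) ht) rfl (by simpa using hlen)
    rw [SimpleGraph.Walk.length_rotate] at h1
    obtain ⟨m, hm, hp, hw'⟩ := h1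
    have := hZ.wl hw' (by rw [hp]; exact Nat.odd_iff.1 hw)
    omega
  · push Not at hs
    obtain ⟨i, u, v, h1, h2, h3⟩ := inside p p w hs
    rw [h1] at h2
    have h4 := Sum.inr_injective h2
    rw [Prod.mk.injEq] at h4
    obtain ⟨-, rfl⟩ := h4
    have := hM.wl h3 (Nat.odd_iff.1 hw)
    omega

end og

end Pool.Agent.Q266.Odd
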