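import Pool.Agent.Q266.PPMain

set_option autoImplicit false

open Finset

namespace Pool.Agent.Q266.PP

/-- `G` is path-pairable. -/
def PathPairable {V : Type} (G : SimpleGraph V) : Prop :=
  ∀ (k : ℕ) (s t : Fin k → V), Function.Bijective (Sum.elim s t) →
    ∃ P : ∀ i, G.Walk (s i) (t i), (∀ i, (P i).IsPath) ∧
      ∀ i j, i ≠ j → ∀ e, e ∈ (P i).edges → e ∉ (P j).edges

def vEquiv (d N M : ℕ) : V d N M ≃ Unit ⊕ (Fin M ⊕ ((Idx d N × Bool) ⊕ TS d)) where
  toFun
    | .hub => Sum.inl ()
    | .leaf a => Sum.inr (Sum.inl a)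
    | .ex i b => Sum.inr (Sum.inr (Sum.inl (i, b)))
    | .tl s => Sum.inr (Sum.inr (Sum.inr s))
  invFun
    | Sum.inl _ => .hub
    | Sum.inr (Sum.inl a) => .leaf a
    | Sum.inr (Sum.inr (Sum.inl p)) => .ex p.1 p.2
    | Sum.inr (Sum.inr (Sum.inr s)) => .tl s
  left_inv v := by cases v <;> rfl
  right_inv v := by rcases v with _ | _ | _ | _ <;> rfl

instance (d N M : ℕ) : Fintype (V d N M) := Fintype.ofEquiv _ (vEquiv d N M).symm

lemma card_TS (d : ℕ) : Fintype.card (TS d) = (d + 1) * (d + 1) := by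
  rw [Fintype.card_prod, ZMod.card, Fintype.card_fin]

lemma card_Idx (d N : ℕ) : Fintype.card (Idx d N) = (d + 1) * ((d + 1) * N) := by
  rw [Fintype.card_prod, Fintype.card_prod, ZMod.card, Fintype.card_fin]

lemma card_V (d N M : ℕ) : Fintype.card (V d N M) =
    1 + (M + ((d + 1) * ((d + 1) * N) * 2 + (d + 1) * (d + 1))) := by
  rw [Fintype.card_congr (vEquiv d N M), Fintype.card_sum, Fintype.card_sum, Fintype.card_sum,
    card_TS, Fintype.card_prod, card_Idx, Fintype.card_fin, Fintype.card_bool, Fintype.card_unit]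

def eEquiv (d N M : ℕ) : E d N M ≃ Fin M ⊕ ((Idx d N × Bool) ⊕ ((Idx d N × Bool) ⊕
    (Idx d N ⊕ (ZMod (d + 1) × ZMod (d + 1) × Fin d)))) where
  toFun
    | .hl a => Sum.inl a
    | .hx i b => Sum.inr (Sum.inl (i, b))
    | .cx i b => Sum.inr (Sum.inr (Sum.inl (i, b)))
    | .mm i => Sum.inr (Sum.inr (Sum.inr (Sum.inl i)))
    | .tt a b k => Sum.inr (Sum.inr (Sum.inr (Sum.inr (a, b, k))))
  invFun
    | Sum.inl a => .hl a
    | Sum.inr (Sum.inl p) => .hx p.1 p.2
    | Sum.inr (Sum.inr (Sum.inl p)) => .cx p.1 p.2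
    | Sum.inr (Sum.inr (Sum.inr (Sum.inl i))) => .mm i
    | Sum.inr (Sum.inr (Sum.inr (Sum.inr p))) => .tt p.1 p.2.1 p.2.2
  left_inv v := by cases v <;> rfl
  right_inv v := by rcases v with _ | _ | _ | _ | _ <;> rfl

instance (d N M : ℕ) : Fintype (E d N M) := Fintype.ofEquiv _ (eEquiv d N M).symm

lemma card_E (d N M : ℕ) : Fintype.card (E d N M) =
    M + ((d + 1) * ((d + 1) * N) * 2 + ((d + 1) * ((d + 1) * N) * 2 +
      ((d + 1) * ((d + 1) * N) + (d + 1) * ((d + 1) * d)))) := by
  rw [Fintype.card_congr (eEquiv d N M)]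
  simp only [Fintype.card_sum, Fintype.card_prod, Fintype.card_fin, Fintype.card_bool,
    ZMod.card]

lemma edge_count (d N M : ℕ) : (G d N M).edgeSet.ncard ≤ Fintype.card (E d N M) := by
  classical
  have h : (G d N M).edgeSet ⊆ Set.range (inc : E d N M → _) := by
    rw [G, SimpleGraph.edgeSet_fromEdgeSet]
    exact Set.sdiff_subset
  calc (G d N M).edgeSet.ncard ≤ (Set.range (inc : E d N M → _)).ncard :=
        Set.ncard_le_ncard h (Set.finite_range _)
    _ = ((univ : Finset (E d N M)).image inc).card := by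
        rw [← Set.ncard_coe_finset]
        congr 1
        ext; simp
    _ ≤ (univ : Finset (E d N M)).card := card_image_le
    _ = _ := card_univ

lemma typ {d N : ℕ} (a b : ZMod (d + 1)) (F : Finset (Idx d N)) (hF : F.card < N) :
    ∃ l : Idx d N, l.1 = a ∧ l.2.1 = b ∧ l ∉ F := by
  classical
  have hinj : Function.Injective (fun k : Fin N => ((a, b, k) : Idx d N)) := by
    intro x y h
    simpa using h
  have hc : F.card < ((univ : Finset (Fin N)).image (fun k => ((a, b, k) : Idx d N))).card := by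
    rw [card_image_of_injective _ hinj, card_univ, Fintype.card_fin]
    exact hF
  obtain ⟨l, hl, hlF⟩ := exists_mem_notMem_of_card_lt_card hc
  obtain ⟨k, _, rfl⟩ := mem_image.1 hl
  exact ⟨_, rfl, rfl, hlF⟩

lemma exists_y {d N M : ℕ} (π : V d N M → V d N M) (hπ : ∀ v, π (π v) = v)
    (F : Finset (Idx d N))
    (hX : 1 + M + (d + 1) * (d + 1) + 4 * F.card < (d + 1) * ((d + 1) * N) * 2) :
    ∃ yi yb zi zb, π (.ex yi yb) = .ex zi zb ∧ yi ∉ F ∧ zi ∉ F := by
  classical
  by_contra hcon
  push Not at hcon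
  set W₀ : Finset (V d N M) := (F ×ˢ (univ : Finset Bool)).image (fun p => V.ex p.1 p.2) with hW₀
  set W : Finset (V d N M) := ({V.hub} ∪ univ.image V.leaf) ∪ (univ.image V.tl ∪ W₀) with hW
  set X : Finset (V d N M) := (univ : Finset (Idx d N × Bool)).image (fun p => V.ex p.1 p.2)
    with hXd
  have hXc : X.card = (d + 1) * ((d + 1) * N) * 2 := by
    rw [hXd, card_image_of_injective, card_univ, Fintype.card_prod, card_Idx, Fintype.card_bool]
    rintro ⟨a, b⟩ ⟨a', b'⟩ h
    simpa using h
  have hW₀c : W₀.card ≤ F.card * 2 := by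
    refine card_image_le.trans ?_
    rw [card_product, card_univ, Fintype.card_bool]
  have hWc : W.card ≤ (1 + M) + ((d + 1) * (d + 1) + F.card * 2) := by
    refine (card_union_le _ _).trans (add_le_add ((card_union_le _ _).trans (add_le_add ?_ ?_))
      ((card_union_le _ _).trans (add_le_add ?_ hW₀c)))
    · simp
    · exact card_image_le.trans (by simp)
    · exact card_image_le.trans (by rw [card_univ, card_TS])
  have hsub : X ⊆ W₀ ∪ W.image π := by
    intro x hx
    obtain ⟨⟨i, b⟩, _, rfl⟩ := mem_image.1 hx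
    rw [mem_union]
    by_cases hi : i ∈ F
    · left
      exact mem_image.2 ⟨(i, b), mem_product.2 ⟨hi, mem_univ _⟩, rfl⟩
    · right
      refine mem_image.2 ⟨π (.ex i b), ?_, hπ _⟩
      cases hw : π (.ex i b) with
      | hub => simp [hW]
      | leaf a => simp [hW]
      | tl s => simp [hW]
      | ex zi zb =>
        have := hcon i b zi zb hw hi
        rw [hW, mem_union, mem_union, mem_union]
        right; right
        exact mem_image.2 ⟨(zi, zb), mem_product.2 ⟨this, mem_univ _⟩, rfl⟩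
  have h1 := card_le_card hsub
  have h2 := card_union_le W₀ (W.image π)
  have h3 : (W.image π).card ≤ W.card := card_image_le
  omega

lemma exists_bun {d N M B : ℕ} (π : V d N M → V d N M) (hπ : ∀ v, π (π v) = v)
    (hN : B + 4 ≤ N)
    (hX : 1 + M + (d + 1) * (d + 1) + 4 * B < (d + 1) * ((d + 1) * N) * 2) (s : TS d)
    (F : Finset (Idx d N)) (hF : F.card ≤ B) :
    ∃ r, valid π s r ∧ Disjoint (foot π s r) F := by
  classical
  by_cases hs : SA π s
  · obtain ⟨yi, yb, zi, zb, hz, hy1, hz1⟩ := exists_y π hπ F (by omega)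
    obtain ⟨l1, a1, a2, a3⟩ := typ (kap s) (cr yi (en yi zi yb)) (insert yi (insert zi F)) (by
      have := card_insert_le yi (insert zi F)
      have := card_insert_le zi F
      omega)
    obtain ⟨l2, b1, b2, b3⟩ := typ (cr yi yb) (cr zi zb) (insert l1 (insert yi (insert zi F)))
      (by
        have := card_insert_le l1 (insert yi (insert zi F))
        have := card_insert_le yi (insert zi F)
        have := card_insert_le zi F
        omega)
    simp only [mem_insert, not_or] at a3 b3
    refine ⟨⟨yi, yb, l1, l2⟩, ⟨a1, ?_, ?_, ?_⟩, ?_⟩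
    · intro t ht
      rcases hs with h | ⟨a, h⟩ <;> rw [h] at ht <;> cases ht
    · intro i b ht
      rcases hs with h | ⟨a, h⟩ <;> rw [h] at ht <;> cases ht
    · intro _
      exact ⟨zi, zb, hz, a2, b1, b2, fun h => b3.1 h.symm, fun h => a3.1 h.symm,
        fun h => b3.2.1 h.symm, fun h => a3.2.1 h.symm, fun h => b3.2.2.1 h.symm⟩
    · rw [foot, if_pos hs, disjoint_left]
      simp only [hz, ix, mem_insert, mem_singleton]
      rintro x (rfl | rfl | rfl | rfl)
      · exact hy1
      · exact hz1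
      · exact a3.2.2
      · exact b3.2.2.2
  · have key : ∀ c, (∀ t, π (.tl s) = .tl t → c = kap t) → (∀ i b, π (.tl s) = .ex i b →
        c = cr i b) → ∃ r, valid π s r ∧ Disjoint (foot π s r) F := by
      intro c h1 h2
      obtain ⟨l1, a1, a2, a3⟩ := typ (kap s) c F (by omega)
      refine ⟨⟨l1, false, l1, l1⟩, ⟨a1, ?_, ?_, fun h => absurd h hs⟩, ?_⟩
      · intro t ht
        rw [← h1 t ht]; exact a2
      · intro i b ht
        rw [← h2 i b ht]; exact a2
      · rw [foot, if_neg hs, disjoint_singleton_left]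
        exact a3
    cases hw : π (.tl s) with
    | hub => exact absurd (Or.inl hw) hs
    | leaf a => exact absurd (Or.inr ⟨a, hw⟩) hs
    | ex i b =>
      refine key (cr i b) ?_ ?_
      · intro t ht; rw [hw] at ht; cases ht
      · intro i' b' ht; rw [hw] at ht; cases ht; rfl
    | tl t =>
      refine key (kap t) ?_ ?_
      · intro t' ht; rw [hw] at ht; cases ht; rfl
      · intro i b ht; rw [hw] at ht; cases ht

lemma foot_card {d N M : ℕ} (π : V d N M → V d N M) (s : TS d) (r : Bun d N) :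
    (foot π s r).card ≤ 4 := by
  classical
  rw [foot]
  split_ifs
  · exact card_le_four
  · rw [card_singleton]; omega

/-- all pairings can be routed -/
lemma route {d N M : ℕ} (hN : 5 * ((d + 1) * (d + 1)) + 4 ≤ N)
    (hX : 1 + M + (d + 1) * (d + 1) + 4 * (5 * ((d + 1) * (d + 1))) <
      (d + 1) * ((d + 1) * N) * 2)
    {κ : Type} (π : V d N M → V d N M) (pid : V d N M → κ) (hπ : ∀ v, π (π v) = v)
    (hne : ∀ v, π v ≠ v) (hpid : ∀ v, pid (π v) = pid v) :
    ∃ o : E d N M → κ, ∀ v, (H o (pid v)).Reachable v (π v) := by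
  classical
  have hN0 : 0 < N := by omega
  set i₀ : Idx d N := (0, 0, ⟨0, hN0⟩) with hi₀
  set F₀ : Finset (Idx d N) := univ.image (fun t : TS d => ix i₀ (π (.tl t))) with hF₀
  have hF₀c : F₀.card ≤ (d + 1) * (d + 1) := by
    refine card_image_le.trans ?_
    rw [card_univ, card_TS]
  obtain ⟨f, hf1, hf2⟩ := seq_choice (valid π) (foot π) 4 (5 * ((d + 1) * (d + 1)))
    (fun i F hF => exists_bun π hπ hN hX i F hF)
    (fun i r _ => foot_card π i r) F₀ ⟨i₀, false, i₀, i₀⟩ (univ : Finset (TS d)) (by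
      rw [card_univ, card_TS]; omega)
  refine ⟨own π pid f, main_reach hπ hne hpid (fun s => (hf1 s (mem_univ s)).1)
    (fun s t hst => hf2 s (mem_univ s) t (mem_univ t) hst) ?_⟩
  intro s i b t hit hmem
  refine disjoint_left.1 (hf1 s (mem_univ s)).2 hmem ?_
  rw [hF₀, mem_image]
  refine ⟨t, mem_univ _, ?_⟩
  rw [← hit, hπ]
  rfl

lemma pathPairable {d N M : ℕ} (hN : 5 * ((d + 1) * (d + 1)) + 4 ≤ N)
    (hX : 1 + M + (d + 1) * (d + 1) + 4 * (5 * ((d + 1) * (d + 1))) <
      (d + 1) * ((d + 1) * N) * 2) : PathPairable (G d N M) := by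
  classical
  intro k s t hb
  set eq := Equiv.ofBijective _ hb with heq
  have e1 : ∀ i, eq (Sum.inl i) = s i := fun i => rfl
  have e2 : ∀ i, eq (Sum.inr i) = t i := fun i => rfl
  set π : V d N M → V d N M := fun v => eq (eq.symm v).swap with hπd
  set pid : V d N M → Fin k := fun v => Sum.elim id id (eq.symm v) with hpd
  have hπ : ∀ v, π (π v) = v := by
    intro v
    simp only [hπd, Equiv.symm_apply_apply, Sum.swap_swap, Equiv.apply_symm_apply]
  have hne : ∀ v, π v ≠ v := by
    intro v h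
    have : (eq.symm v).swap = eq.symm v := by
      apply eq.injective
      rw [Equiv.apply_symm_apply]
      exact h
    cases hc : eq.symm v with
    | inl i => rw [hc] at this; cases this
    | inr i => rw [hc] at this; cases this
  have hpid : ∀ v, pid (π v) = pid v := by
    intro v
    simp only [hπd, hpd, Equiv.symm_apply_apply]
    cases eq.symm v <;> rfl
  obtain ⟨o, ho⟩ := route hN hX π pid hπ hne hpid
  have hs : ∀ i, (H o i).Reachable (s i) (t i) := by
    intro i
    have h1 := ho (s i)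
    have h2 : pid (s i) = i := by
      simp only [hpd]
      rw [← e1, Equiv.symm_apply_apply]
      rfl
    have h3 : π (s i) = t i := by
      simp only [hπd]
      rw [← e1, Equiv.symm_apply_apply, ← e2]
      rfl
    rwa [h2, h3] at h1
  choose P hP using fun i => (hs i).exists_isPath
  refine ⟨fun i => (P i).mapLe (H_le o i), fun i => (hP i).mapLe _, ?_⟩
  intro i j hij e hi hj
  rw [SimpleGraph.Walk.edges_mapLe_eq_edges] at hi hj
  have g1 := (P i).edges_subset_edgeSet hi
  have g2 := (P j).edges_subset_edgeSet hj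
  rw [H, SimpleGraph.edgeSet_fromEdgeSet] at g1 g2
  obtain ⟨a, ha, ha2⟩ := g1.1
  obtain ⟨b, hb', hb2⟩ := g2.1
  have : a = b := inc_inj (ha2.trans hb2.symm)
  apply hij
  rw [← ha, ← hb', this]

lemma adj_of {d N M : ℕ} (e : E d N M) : (G d N M).Adj (ends e).1 (ends e).2 := by
  rw [G, SimpleGraph.fromEdgeSet_adj]
  exact ⟨⟨e, rfl⟩, ends_ne e⟩

lemma connected {d N M : ℕ} (hN : 0 < N) : (G d N M).Connected := by
  have hcore : ∀ a : ZMod (d + 1), (G d N M).Reachable .hub (.tl (a, 0)) := by
    intro a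
    have h1 := (adj_of (N := N) (M := M) (.hx ((a, a, ⟨0, hN⟩) : Idx d N) false)).reachable
    have h2 := (adj_of (N := N) (M := M) (.cx ((a, a, ⟨0, hN⟩) : Idx d N) false)).reachable
    exact h1.trans h2.symm
  have htl : ∀ (k : ℕ) (hk : k < d + 1) (a : ZMod (d + 1)),
      (G d N M).Reachable .hub (.tl (a, ⟨k, hk⟩)) := by
    intro k
    induction k with
    | zero => intro _ a; exact hcore a
    | succ k ih =>
      intro hk a
      have h1 := ih (by omega) a
      have h2 := (adj_of (N := N) (M := M) (.tt a a ⟨k, by omega⟩)).reachable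
      exact h1.trans h2.symm
  have hall : ∀ v, (G d N M).Reachable .hub v := by
    intro v
    cases v with
    | hub => exact SimpleGraph.Reachable.refl _
    | leaf a => exact (adj_of (.hl a)).reachable
    | ex i b => exact (adj_of (.hx i b)).reachable
    | tl s => exact htl s.2.val s.2.isLt s.1
  have : Nonempty (V d N M) := ⟨.hub⟩
  exact ⟨fun u v => (hall u).symm.trans (hall v)⟩

/-- level -/
def lvl {d N M : ℕ} : V d N M → ℕ
  | .tl s => s.2.val
  | _ => 0

lemma lvl_adj {d N M : ℕ} (u v : V d N M) (h : (G d N M).Adj u v) : lvl v ≤ lvl u + 1 := by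
  rw [G, SimpleGraph.fromEdgeSet_adj] at h
  obtain ⟨⟨e, he⟩, -⟩ := h
  unfold inc at he
  rcases Sym2.eq_iff.1 he with ⟨rfl, rfl⟩ | ⟨rfl, rfl⟩ <;> cases e <;> simp [ends, lvl] <;> omega

lemma lvl_walk {d N M : ℕ} (u v : V d N M) (p : (G d N M).Walk u v) :
    lvl v ≤ lvl u + p.length := by
  induction p with
  | nil => simp
  | cons h p ih =>
    have := lvl_adj _ _ h
    rw [SimpleGraph.Walk.length_cons]
    omega

lemma diam_ge {d N M : ℕ} (hN : 0 < N) : d ≤ (G d N M).diam := by
  have hc := connected (d := d) (M := M) hN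
  have : Nonempty (V d N M) := ⟨.hub⟩
  have h1 : (G d N M).dist .hub (.tl (0, Fin.last d)) ≤ (G d N M).diam :=
    SimpleGraph.dist_le_diam (SimpleGraph.connected_iff_ediam_ne_top.1 hc)
  obtain ⟨p, hp⟩ := hc.exists_walk_length_eq_dist .hub (.tl (0, Fin.last d))
  have h2 := lvl_walk _ _ p
  simp only [lvl, Fin.val_last] at h2
  omega

/-- The construction, with parameters. -/
theorem main (ε : ℝ) (_hε : 0 < ε) (hε4 : ε < 1 / 4) (d : ℕ) :
    ∃ (V : Type) (_ : Fintype V) (G : SimpleGraph V), Even (Fintype.card V) ∧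
      PathPairable G ∧ (G.edgeSet.ncard : ℝ) ≤ (2 - ε) * Fintype.card V ∧ G.Connected ∧
      d ≤ G.diam := by
  set D := d + 1 with hD
  obtain ⟨N₀, hN₀⟩ := exists_nat_gt (((22 : ℝ) + d) * D ^ 2 / (1 / 4 - ε))
  set N := N₀ + 100 * D * D with hNd
  set M := D * (D * N) * 2 - (31 * (D * D) + 1) with hMd
  have hD1 : 1 ≤ D := by omega
  have hDD : 1 ≤ D * D := Nat.mul_pos hD1 hD1
  have hN100 : 100 * (D * D) ≤ N := by rw [hNd, mul_assoc]; omega
  have hDN : N ≤ D * (D * N) := by
    calc N = 1 * N := (one_mul N).symm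
      _ ≤ (D * D) * N := Nat.mul_le_mul_right _ hDD
      _ = D * (D * N) := by ring
  have hM : M + (31 * (D * D) + 1) = D * (D * N) * 2 := by
    rw [hMd]
    apply Nat.sub_add_cancel
    omega
  have hcard : Fintype.card (Pool.Agent.Q266.PP.V d N M) + 30 * (D * D) = 4 * (D * (D * N)) := by
    rw [card_V, ← hD]
    omega
  refine ⟨Pool.Agent.Q266.PP.V d N M, inferInstance, Pool.Agent.Q266.PP.G d N M, ?_, ?_, ?_, ?_,
    diam_ge (by omega)⟩
  · rw [Nat.even_iff]
    omega
  · refine pathPairable ?_ ?_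
    · rw [← hD]; omega
    · rw [← hD]; omega
  · have h1 := edge_count d N M
    rw [card_E, ← hD] at h1
    have h2 : ((Pool.Agent.Q266.PP.G d N M).edgeSet.ncard : ℝ) + (31 * (D * D) + 1) ≤
        7 * (D * (D * N)) + D * (D * d) := by
      have : (Pool.Agent.Q266.PP.G d N M).edgeSet.ncard + (31 * (D * D) + 1) ≤
          7 * (D * (D * N)) + D * (D * d) := by omega
      exact_mod_cast this
    have h3 : (Fintype.card (Pool.Agent.Q266.PP.V d N M) : ℝ) + 30 * (D * D) =
        4 * (D * (D * N)) := by exact_mod_cast hcard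
    have h4 : ((22 : ℝ) + d) * D ^ 2 < (1 / 4 - ε) * N := by
      rw [div_lt_iff₀ (by linarith)] at hN₀
      have : (N₀ : ℝ) ≤ N := by
        rw [hNd]; push_cast
        nlinarith [sq_nonneg (D : ℝ)]
      nlinarith
    have hn : (N : ℝ) ≤ Fintype.card (Pool.Agent.Q266.PP.V d N M) := by
      have : N ≤ Fintype.card (Pool.Agent.Q266.PP.V d N M) := by
        have : 30 * (D * D) ≤ N := by omega
        omega
      exact_mod_cast this
    have h5 : (1 / 4 - ε) * (N : ℝ) ≤
        (1 / 4 - ε) * Fintype.card (Pool.Agent.Q266.PP.V d N M) :=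
      mul_le_mul_of_nonneg_left hn (by linarith)
    have hDp : (1 : ℝ) ≤ (D : ℝ) * D := by exact_mod_cast hDD
    nlinarith
  · exact connected (by omega)

end Pool.Agent.Q266.PP
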