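import Mathlib

set_option autoImplicit false

open Finset

namespace Pool.Agent.Q266.PP

abbrev Idx (d N : ℕ) := ZMod (d + 1) × ZMod (d + 1) × Fin N

abbrev TS (d : ℕ) := ZMod (d + 1) × Fin (d + 1)

/-- vertices: a hub, leaves, the matched vertices `ex i b`, and the tail (`tl (c, 0)` is the core) -/
inductive V (d N M : ℕ) : Type where
  | hub : V d N M
  | leaf : Fin M → V d N M
  | ex : Idx d N → Bool → V d N M
  | tl : TS d → V d N M

/-- edge labels -/
inductive E (d N M : ℕ) : Type where
  | hl : Fin M → E d N M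
  | hx : Idx d N → Bool → E d N M
  | cx : Idx d N → Bool → E d N M
  | mm : Idx d N → E d N M
  | tt : ZMod (d + 1) → ZMod (d + 1) → Fin d → E d N M

/-- the core vertex attached to `ex i b` -/
def cr {d N : ℕ} (i : Idx d N) (b : Bool) : ZMod (d + 1) := if b then i.2.1 else i.1

def ends {d N M : ℕ} : E d N M → V d N M × V d N M
  | .hl a => (.hub, .leaf a)
  | .hx i b => (.hub, .ex i b)
  | .cx i b => (.tl (cr i b, 0), .ex i b)
  | .mm i => (.ex i false, .ex i true)
  | .tt a b k => (.tl (a, k.succ), .tl (b, k.castSucc))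

def inc {d N M : ℕ} (e : E d N M) : Sym2 (V d N M) := s((ends e).1, (ends e).2)

lemma ends_ne {d N M : ℕ} (e : E d N M) : (ends e).1 ≠ (ends e).2 := by
  cases e <;> simp [ends, Fin.ext_iff]

lemma inc_inj {d N M : ℕ} : Function.Injective (inc : E d N M → Sym2 (V d N M)) := by
  intro e f h
  unfold inc at h
  rw [Sym2.eq_iff] at h
  cases e <;> cases f <;> simp only [ends, V.leaf.injEq, V.ex.injEq, V.tl.injEq, Prod.mk.injEq,
    reduceCtorEq, false_and, and_false, or_false, or_self, true_and, Fin.ext_iff, Fin.val_succ,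
    Fin.val_castSucc] at h
  · rw [Fin.ext h]
  · rw [h.1, h.2]
  · obtain ⟨-, h1, h2⟩ := h; rw [h1, h2]
  · rw [h.1.1]
  · rcases h with ⟨⟨h1, h2⟩, h3, h4⟩ | ⟨⟨h1, h2⟩, h3, h4⟩
    · rw [h1, h3, Fin.ext h4]
    · omega

/-- the graph -/
def G (d N M : ℕ) : SimpleGraph (V d N M) := SimpleGraph.fromEdgeSet (Set.range inc)

/-- the subgraph owned by `i` -/
def H {d N M : ℕ} {κ : Type} (own : E d N M → κ) (i : κ) : SimpleGraph (V d N M) :=
  SimpleGraph.fromEdgeSet (inc '' {e | own e = i})

lemma H_le {d N M : ℕ} {κ : Type} (own : E d N M → κ) (i : κ) : H own i ≤ G d N M :=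
  SimpleGraph.fromEdgeSet_mono (Set.image_subset_range _ _)

lemma reach_edge {d N M : ℕ} {κ : Type} (own : E d N M → κ) (i : κ) (e : E d N M)
    (h : own e = i) : (H own i).Reachable (ends e).1 (ends e).2 := by
  refine SimpleGraph.Adj.reachable ?_
  rw [H, SimpleGraph.fromEdgeSet_adj]
  exact ⟨⟨e, h, rfl⟩, ends_ne e⟩

/-- exit core of a tail vertex -/
def kap {d : ℕ} (s : TS d) : ZMod (d + 1) := s.1 + (s.2.val : ZMod (d + 1)) * s.2.val

/-- owner of a tail edge -/
def tow {d : ℕ} (a b : ZMod (d + 1)) (k : Fin d) : TS d :=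
  (a - ((b - a) - ((k.val : ZMod (d + 1)) + 1)) * (b - a), ⟨(b - a).val, ZMod.val_lt _⟩)

lemma tail_reach {d N M : ℕ} {κ : Type} (own : E d N M → κ) (pid : V d N M → κ)
    (ht : ∀ a b k, own (.tt a b k) = pid (.tl (tow a b k))) (s : TS d) :
    (H own (pid (.tl s))).Reachable (.tl s) (.tl (kap s, 0)) := by
  obtain ⟨i, j⟩ := s
  have key : ∀ t : ℕ, (ht : t ≤ j.val) →
      (H own (pid (.tl (i, j)))).Reachable (.tl (i, j))
        (.tl (i + (t : ZMod (d + 1)) * j.val, ⟨j.val - t, by omega⟩)) := by
    intro t
    induction t with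
    | zero =>
      intro _
      simp
    | succ t ih =>
      intro htj
      have h1 := ih (by omega)
      refine h1.trans ?_
      have hk : j.val - t - 1 < d := by have := j.isLt; omega
      have hown : own (.tt (i + (t : ZMod (d + 1)) * j.val)
          (i + ((t + 1 : ℕ) : ZMod (d + 1)) * j.val) ⟨j.val - t - 1, hk⟩) =
          pid (.tl (i, j)) := by
        rw [ht, tow]
        congr 2
        have e1 : i + ((t + 1 : ℕ) : ZMod (d + 1)) * j.val - (i + (t : ZMod (d + 1)) * j.val) =
            (j.val : ZMod (d + 1)) := by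
          push_cast; ring
        simp only [e1]
        have e2 : (((j.val - t - 1 : ℕ) : ZMod (d + 1)) + 1) = (j.val : ZMod (d + 1)) - t := by
          rw [← Nat.cast_add_one, ← Nat.cast_sub (by omega)]
          congr 1
          omega
        rw [e2]
        refine Prod.ext ?_ ?_
        · simp only; ring
        · simp only
          apply Fin.ext
          simp only
          rw [ZMod.val_natCast_of_lt j.isLt]
      have h2 := reach_edge own _ _ hown
      simp only [ends, Fin.succ_mk, Fin.castSucc_mk] at h2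
      have e3 : (⟨j.val - t - 1 + 1, by omega⟩ : Fin (d + 1)) = ⟨j.val - t, by omega⟩ := by
        apply Fin.ext; simp only; omega
      have e4 : (⟨j.val - t - 1, by omega⟩ : Fin (d + 1)) = ⟨j.val - (t + 1), by omega⟩ := by
        apply Fin.ext; simp only; omega
      rw [e3, e4] at h2
      exact h2
  have h3 := key j.val le_rfl
  have e5 : (⟨j.val - j.val, by omega⟩ : Fin (d + 1)) = 0 := by
    apply Fin.ext; simp
  rw [e5] at h3
  exact h3

/-- choose bundles with pairwise disjoint footprints -/
lemma seq_choice {ι R I : Type*} [DecidableEq ι] [DecidableEq I] (valid : ι → R → Prop)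
    (foot : ι → R → Finset I) (c B : ℕ)
    (h : ∀ i, ∀ F : Finset I, F.card ≤ B → ∃ r, valid i r ∧ Disjoint (foot i r) F)
    (hc : ∀ i r, valid i r → (foot i r).card ≤ c) (F₀ : Finset I) (r₀ : R) (s : Finset ι)
    (hB : F₀.card + c * s.card ≤ B) :
    ∃ f : ι → R, (∀ i ∈ s, valid i (f i) ∧ Disjoint (foot i (f i)) F₀) ∧
      ∀ i ∈ s, ∀ j ∈ s, i ≠ j → Disjoint (foot i (f i)) (foot j (f j)) := by
  classical
  revert hB
  induction s using Finset.induction_on with
  | empty =>
    intro _
    exact ⟨fun _ => r₀, by simp, by simp⟩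
  | insert a s ha ih =>
    intro hB
    rw [card_insert_of_notMem ha] at hB
    obtain ⟨f, hf1, hf2⟩ := ih (by nlinarith)
    have hU : (F₀ ∪ s.biUnion (fun i => foot i (f i))).card ≤ B := by
      refine (card_union_le _ _).trans ?_
      have : (s.biUnion (fun i => foot i (f i))).card ≤ s.card * c :=
        card_biUnion_le_card_mul _ _ _ (fun i hi => hc i _ (hf1 i hi).1)
      nlinarith
    obtain ⟨r, hr1, hr2⟩ := h a _ hU
    rw [disjoint_union_right] at hr2
    have hne : ∀ i ∈ s, i ≠ a := fun i hi h => ha (h ▸ hi)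
    refine ⟨Function.update f a r, ?_, ?_⟩
    · intro i hi
      rcases mem_insert.1 hi with rfl | hi
      · rw [Function.update_self]
        exact ⟨hr1, hr2.1⟩
      · rw [Function.update_of_ne (hne i hi)]
        exact hf1 i hi
    · intro i hi j hj hij
      rcases mem_insert.1 hi with rfl | hi'
      · rcases mem_insert.1 hj with rfl | hj'
        · exact absurd rfl hij
        · rw [Function.update_self, Function.update_of_ne (hne j hj')]
          exact disjoint_of_subset_right (subset_biUnion_of_mem (fun i => foot i (f i)) hj') hr2.2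
      · rcases mem_insert.1 hj with rfl | hj'
        · rw [Function.update_self, Function.update_of_ne (hne i hi')]
          exact (disjoint_of_subset_right (subset_biUnion_of_mem (fun i => foot i (f i)) hi')
            hr2.2).symm
        · rw [Function.update_of_ne (hne i hi'), Function.update_of_ne (hne j hj')]
          exact hf2 i hi' j hj' hij

end Pool.Agent.Q266.PP
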