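import Pool.Agent.Q266.PPGraph

set_option autoImplicit false

open Finset

namespace Pool.Agent.Q266.PP

/-- a bundle of resources for a tail vertex -/
structure Bun (d N : ℕ) where
  yi : Idx d N
  yb : Bool
  l1 : Idx d N
  l2 : Idx d N

/-- the partner leaves the tail through the hub -/
def SA {d N M : ℕ} (π : V d N M → V d N M) (s : TS d) : Prop :=
  π (.tl s) = .hub ∨ ∃ a, π (.tl s) = .leaf a

/-- side of entry -/
def en {d N : ℕ} (yi zi : Idx d N) (yb : Bool) : Bool := if zi = yi then yb else !yb

/-- index of an `ex` vertex -/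
def ix {d N M : ℕ} (i₀ : Idx d N) : V d N M → Idx d N
  | .ex i _ => i
  | _ => i₀

open Classical in
/-- footprint -/
noncomputable def foot {d N M : ℕ} (π : V d N M → V d N M) (s : TS d) (r : Bun d N) :
    Finset (Idx d N) :=
  if SA π s then {r.yi, ix r.yi (π (.ex r.yi r.yb)), r.l1, r.l2} else {r.l1}

def valid {d N M : ℕ} (π : V d N M → V d N M) (s : TS d) (r : Bun d N) : Prop :=
  (r.l1.1 = kap s) ∧
  (∀ t, π (.tl s) = .tl t → r.l1.2.1 = kap t) ∧
  (∀ i b, π (.tl s) = .ex i b → r.l1.2.1 = cr i b) ∧
  (SA π s → ∃ zi zb, π (.ex r.yi r.yb) = .ex zi zb ∧ r.l1.2.1 = cr r.yi (en r.yi zi r.yb) ∧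
    r.l2.1 = cr r.yi r.yb ∧ r.l2.2.1 = cr zi zb ∧ r.l1 ≠ r.l2 ∧ r.yi ≠ r.l1 ∧ r.yi ≠ r.l2 ∧
    zi ≠ r.l1 ∧ zi ≠ r.l2)

section own

variable {d N M : ℕ} {κ : Type} (π : V d N M → V d N M) (pid : V d N M → κ)
  (f : TS d → Bun d N)

open Classical in
/-- the tail vertex using index `i` -/
noncomputable def sg (i : Idx d N) : Option (TS d) :=
  if h : ∃ s, i ∈ foot π s (f s) then some h.choose else none

open Classical in
/-- ownership of the edges -/
noncomputable def own : E d N M → κ
  | .hl a => pid (.leaf a)
  | .hx i b => match sg π f i with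
    | none => pid (.ex i b)
    | some s => if SA π s ∧ i = (f s).yi ∧ b = (f s).yb then pid (.tl s) else pid (.ex i b)
  | .cx i b => match sg π f i with
    | none => pid (.ex i b)
    | some s => if i = (f s).l1 then pid (.tl s) else
      if i = (f s).l2 then pid (.ex (f s).yi (f s).yb) else
      if i = (f s).yi ∧ b = en (f s).yi (ix (f s).yi (π (.ex (f s).yi (f s).yb))) (f s).yb then
        pid (.tl s) else pid (.ex i b)
  | .mm i => match sg π f i with
    | none => pid (.ex i false)
    | some s => if i = (f s).l1 then pid (.tl s) else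
      if i = (f s).l2 then pid (.ex (f s).yi (f s).yb) else
      if i = (f s).yi ∧ ix (f s).yi (π (.ex (f s).yi (f s).yb)) ≠ (f s).yi then
        pid (.tl s) else pid (.ex i false)
  | .tt a b k => pid (.tl (tow a b k))

end own

section main

variable {d N M : ℕ} {κ : Type} {π : V d N M → V d N M} {pid : V d N M → κ}
  {f : TS d → Bun d N}

lemma sg_eq (hdis : ∀ s t, s ≠ t → Disjoint (foot π s (f s)) (foot π t (f t))) (s : TS d)
    (i : Idx d N) (hi : i ∈ foot π s (f s)) : sg π f i = some s := by
  have h : ∃ s, i ∈ foot π s (f s) := ⟨s, hi⟩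
  rw [sg, dif_pos h]
  congr 1
  by_contra hne
  exact disjoint_left.1 (hdis _ _ hne) h.choose_spec hi

lemma l1_mem (s : TS d) (r : Bun d N) : r.l1 ∈ foot π s r := by
  rw [foot]; split_ifs <;> simp

lemma l2_mem (s : TS d) (r : Bun d N) (h : SA π s) : r.l2 ∈ foot π s r := by
  rw [foot, if_pos h]; simp

lemma yi_mem (s : TS d) (r : Bun d N) (h : SA π s) : r.yi ∈ foot π s r := by
  rw [foot, if_pos h]; simp

lemma zi_mem (s : TS d) (r : Bun d N) (h : SA π s) (zi : Idx d N) (zb : Bool)
    (hz : π (.ex r.yi r.yb) = .ex zi zb) : zi ∈ foot π s r := by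
  rw [foot, if_pos h, hz]; simp [ix]

/-- a link between two core vertices -/
lemma link (own : E d N M → κ) (c : κ) (l : Idx d N) (h1 : own (.cx l false) = c)
    (h2 : own (.mm l) = c) (h3 : own (.cx l true) = c) :
    (H own c).Reachable (.tl (l.1, 0)) (.tl (l.2.1, 0)) := by
  have e1 := reach_edge own c _ h1
  have e2 := reach_edge own c _ h2
  have e3 := reach_edge own c _ h3
  simp only [ends, cr, Bool.false_eq_true, if_false, if_true] at e1 e2 e3
  exact (e1.trans e2).trans e3.symm

lemma main_reach (hπ : ∀ v, π (π v) = v) (hne : ∀ v, π v ≠ v) (hpid : ∀ v, pid (π v) = pid v)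
    (hval : ∀ s, valid π s (f s))
    (hdis : ∀ s t, s ≠ t → Disjoint (foot π s (f s)) (foot π t (f t)))
    (hF : ∀ s i b t, π (.ex i b) = .tl t → i ∉ foot π s (f s)) :
    ∀ v, (H (own π pid f) (pid v)).Reachable v (π v) := by
  classical
  -- links
  have own_l1c : ∀ s b, own π pid f (.cx (f s).l1 b) = pid (.tl s) := by
    intro s b
    rw [own, sg_eq hdis s _ (l1_mem s (f s))]
    simp only [if_true]
  have own_l1m : ∀ s, own π pid f (.mm (f s).l1) = pid (.tl s) := by
    intro s
    rw [own, sg_eq hdis s _ (l1_mem s (f s))]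
    simp only [if_true]
  have link1 : ∀ s, (H (own π pid f) (pid (.tl s))).Reachable (.tl (kap s, 0))
      (.tl ((f s).l1.2.1, 0)) := by
    intro s
    have := link (own π pid f) (pid (.tl s)) (f s).l1 (own_l1c s false) (own_l1m s)
      (own_l1c s true)
    rwa [(hval s).1] at this
  have tail : ∀ s, (H (own π pid f) (pid (.tl s))).Reachable (.tl s) (.tl (kap s, 0)) :=
    fun s => tail_reach (own π pid f) pid (fun a b k => rfl) s
  -- tail-tail
  have c_tt : ∀ s t, π (.tl s) = .tl t →
      (H (own π pid f) (pid (.tl s))).Reachable (.tl s) (.tl t) := by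
    intro s t h
    have h1 := tail s
    have h2 := link1 s
    have h3 := tail t
    have hp : pid (.tl t) = pid (.tl s) := by rw [← h, hpid]
    rw [hp] at h3
    rw [(hval s).2.1 t h] at h2
    exact (h1.trans h2).trans h3.symm
  -- tail-ex
  have c_te : ∀ s i b, π (.tl s) = .ex i b →
      (H (own π pid f) (pid (.tl s))).Reachable (.tl s) (.ex i b) := by
    intro s i b h
    have h1 := tail s
    have h2 := link1 s
    have hp : pid (.ex i b) = pid (.tl s) := by rw [← h, hpid]
    rw [(hval s).2.2.1 i b h] at h2
    have hi : sg π f i = none := by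
      rw [sg, dif_neg]
      rintro ⟨t, ht⟩
      exact hF t i b s (by rw [← h, hπ]) ht
    have h3 := reach_edge (own π pid f) (pid (.tl s)) (.cx i b) (by
      rw [own, hi]; exact hp)
    exact (h1.trans h2).trans h3
  -- tail to hub
  have c_th : ∀ s, SA π s →
      (H (own π pid f) (pid (.tl s))).Reachable (.tl s) .hub := by
    intro s hs
    obtain ⟨zi, zb, hz, q1, q2, q3, q4, q5, q6, q7, q8⟩ := (hval s).2.2.2 hs
    have h1 := tail s
    have h2 := link1 s
    rw [q1] at h2
    have hsy := sg_eq hdis s _ (yi_mem s (f s) hs)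
    have hix : ix (f s).yi (π (.ex (f s).yi (f s).yb)) = zi := by rw [hz]; rfl
    have h3 := reach_edge (own π pid f) (pid (.tl s))
      (.cx (f s).yi (en (f s).yi zi (f s).yb)) (by
        rw [own, hsy]
        simp only [hix]
        rw [if_neg q5, if_neg q6]
        simp)
    have h5 := reach_edge (own π pid f) (pid (.tl s)) (.hx (f s).yi (f s).yb) (by
        rw [own, hsy]
        simp [hs])
    simp only [ends] at h3 h5
    refine (h1.trans h2).trans (h3.trans ?_)
    refine SimpleGraph.Reachable.trans ?_ h5.symm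
    by_cases hzy : zi = (f s).yi
    · rw [en, if_pos hzy]
    · rw [en, if_neg hzy]
      have h4 := reach_edge (own π pid f) (pid (.tl s)) (.mm (f s).yi) (by
        rw [own, hsy]
        simp only [hix]
        rw [if_neg q5, if_neg q6]
        simp [hzy])
      simp only [ends] at h4
      cases hb : (f s).yb with
      | false => exact h4.symm
      | true => exact h4
  -- rerouted pair
  have c_re : ∀ s, SA π s → (H (own π pid f) (pid (.ex (f s).yi (f s).yb))).Reachable
      (.ex (f s).yi (f s).yb) (π (.ex (f s).yi (f s).yb)) := by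
    intro s hs
    obtain ⟨zi, zb, hz, q1, q2, q3, q4, q5, q6, q7, q8⟩ := (hval s).2.2.2 hs
    have hsy := sg_eq hdis s _ (yi_mem s (f s) hs)
    have hsz := sg_eq hdis s _ (zi_mem s (f s) hs zi zb hz)
    have hsl := sg_eq hdis s _ (l2_mem s (f s) hs)
    have hix : ix (f s).yi (π (.ex (f s).yi (f s).yb)) = zi := by rw [hz]; rfl
    rw [hz]
    have hpz : pid (.ex zi zb) = pid (.ex (f s).yi (f s).yb) := by rw [← hz, hpid]
    by_cases hzy : zi = (f s).yi
    · have hzb : zb = !(f s).yb := by
        have := hne (.ex (f s).yi (f s).yb)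
        rw [hz, hzy] at this
        have h2 : zb ≠ (f s).yb := fun h => this (by rw [h])
        revert h2
        cases zb <;> cases (f s).yb <;> simp
      rw [hzy, hzb] at hpz ⊢
      have h4 := reach_edge (own π pid f) (pid (.ex (f s).yi (f s).yb)) (.mm (f s).yi) (by
        rw [own, hsy]
        simp only [hix]
        rw [if_neg q5, if_neg q6]
        simp only [hzy, ne_eq, not_true_eq_false, and_false, if_false]
        cases hb : (f s).yb with
        | false => rfl
        | true =>
          rw [hb] at hpz
          exact hpz)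
      simp only [ends] at h4
      cases hb : (f s).yb with
      | false => rw [hb] at h4; exact h4
      | true => rw [hb] at h4; exact h4.symm
    · have h1 := reach_edge (own π pid f) (pid (.ex (f s).yi (f s).yb))
        (.cx (f s).yi (f s).yb) (by
          rw [own, hsy]
          simp only [hix]
          rw [if_neg q5, if_neg q6]
          simp [en, hzy])
      have o1 : ∀ b, own π pid f (.cx (f s).l2 b) = pid (.ex (f s).yi (f s).yb) := by
        intro b
        rw [own, hsl]
        simp only
        rw [if_neg q4.symm, if_pos trivial]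
      have o2 : own π pid f (.mm (f s).l2) = pid (.ex (f s).yi (f s).yb) := by
        rw [own, hsl]
        simp only
        rw [if_neg q4.symm, if_pos trivial]
      have h2 := link (own π pid f) (pid (.ex (f s).yi (f s).yb)) (f s).l2 (o1 false) o2 (o1 true)
      have h3 := reach_edge (own π pid f) (pid (.ex (f s).yi (f s).yb))
        (.cx zi zb) (by
          rw [own, hsz]
          simp only [hix]
          rw [if_neg q7, if_neg q8, if_neg (fun h => hzy h.1)]
          exact hpz)
      simp only [ends] at h1 h3
      rw [q2, q3] at h2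
      exact (h1.symm.trans h2).trans h3
  -- hub edge of an ordinary matched vertex
  have o_hx : ∀ i b, (∀ s, SA π s → ¬ ((f s).yi = i ∧ (f s).yb = b)) →
      own π pid f (.hx i b) = pid (.ex i b) := by
    intro i b h
    rw [own]
    cases hsg : sg π f i with
    | none => rfl
    | some s =>
      simp only
      rw [if_neg]
      rintro ⟨h1, h2, h3⟩
      exact h s h1 ⟨h2.symm, h3.symm⟩
  have no_re : ∀ i b, (∀ zi zb, π (.ex i b) ≠ .ex zi zb) →
      ∀ s, SA π s → ¬ ((f s).yi = i ∧ (f s).yb = b) := by
    rintro i b h s hs ⟨rfl, rfl⟩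
    obtain ⟨zi, zb, hz, -⟩ := (hval s).2.2.2 hs
    exact h zi zb hz
  have r_hl : ∀ a, (H (own π pid f) (pid (.leaf a))).Reachable .hub (.leaf a) := fun a =>
    reach_edge (own π pid f) (pid (.leaf a)) (.hl a) rfl
  have r_hx : ∀ i b, (∀ s, SA π s → ¬ ((f s).yi = i ∧ (f s).yb = b)) →
      (H (own π pid f) (pid (.ex i b))).Reachable .hub (.ex i b) := fun i b h =>
    reach_edge (own π pid f) (pid (.ex i b)) (.hx i b) (o_hx i b h)
  intro v
  have hpv := hpid v
  have hpp := hπ v
  cases hv : v with
  | hub =>
    rw [hv] at hpv hpp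
    cases hw : π .hub with
    | hub => exact absurd hw (hne _)
    | leaf a =>
      rw [hw] at hpv
      rw [← hpv]
      exact r_hl a
    | ex i b =>
      rw [hw] at hpv hpp
      rw [← hpv]
      exact r_hx i b (no_re i b (by rw [hpp]; intro _ _ h; cases h))
    | tl s =>
      rw [hw] at hpv hpp
      rw [← hpv]
      exact (c_th s (Or.inl hpp)).symm
  | leaf a =>
    rw [hv] at hpv hpp
    cases hw : π (.leaf a) with
    | hub => exact (r_hl a).symm
    | leaf a' =>
      rw [hw] at hpv
      have := r_hl a'
      rw [hpv] at this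
      exact (r_hl a).symm.trans this
    | ex i b =>
      rw [hw] at hpv hpp
      have := r_hx i b (no_re i b (by rw [hpp]; intro _ _ h; cases h))
      rw [hpv] at this
      exact (r_hl a).symm.trans this
    | tl s =>
      rw [hw] at hpv hpp
      have := c_th s (Or.inr ⟨a, hpp⟩)
      rw [hpv] at this
      exact (r_hl a).symm.trans this.symm
  | ex i b =>
    rw [hv] at hpv hpp
    cases hw : π (.ex i b) with
    | hub =>
      exact (r_hx i b (no_re i b (by rw [hw]; intro _ _ h; cases h))).symm
    | leaf a =>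
      rw [hw] at hpv
      have h1 := (r_hx i b (no_re i b (by rw [hw]; intro _ _ h; cases h))).symm
      have h2 := r_hl a
      rw [hpv] at h2
      exact h1.trans h2
    | ex i' b' =>
      rw [hw] at hpv hpp
      by_cases g1 : ∃ s, SA π s ∧ ((f s).yi = i ∧ (f s).yb = b)
      · obtain ⟨s, hs, rfl, rfl⟩ := g1
        rw [← hw]
        exact c_re s hs
      · by_cases g2 : ∃ s, SA π s ∧ ((f s).yi = i' ∧ (f s).yb = b')
        · obtain ⟨s, hs, rfl, rfl⟩ := g2
          have := c_re s hs
          rw [hpp, hpv] at this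
          exact this.symm
        · push Not at g1 g2
          have h1 := (r_hx i b (fun s hs h => g1 s hs h.1 h.2)).symm
          have h2 := r_hx i' b' (fun s hs h => g2 s hs h.1 h.2)
          rw [hpv] at h2
          exact h1.trans h2
    | tl s =>
      rw [hw] at hpv hpp
      rw [← hpv]
      exact (c_te s i b hpp).symm
  | tl s =>
    rw [hv] at hpv hpp
    cases hw : π (.tl s) with
    | hub => exact c_th s (Or.inl hw)
    | leaf a =>
      rw [hw] at hpv
      have h1 := c_th s (Or.inr ⟨a, hw⟩)
      have h2 := r_hl a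
      rw [hpv] at h2
      exact h1.trans h2
    | ex i b => exact c_te s i b hw
    | tl t => exact c_tt s t hw

end main

end Pool.Agent.Q266.PP
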