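import Pool.Agent.W832.GI.Lll

/-!
The local lemma for random cyclic orderings: a family of quadruples in which no point is contained
in too many members is avoided by the pairs of disjoint edges of some Hamilton cycle.
-/

set_option autoImplicit false

namespace Pool.Agent.Q266.Perm4

open Finset Function

/-- moving one list of points to another, fixing everything else -/
theorem exists_tau {α : Type} [DecidableEq α] : ∀ (m : ℕ) (v w : Fin m ↪ α),
    ∃ τ : Equiv.Perm α, (∀ k, τ (v k) = w k) ∧
      ∀ x, x ∉ Set.range v → x ∉ Set.range w → τ x = x := by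
  intro m
  induction m with
  | zero => intro v w; exact ⟨1, fun k => k.elim0, fun x _ _ => rfl⟩
  | succ m ih =>
    intro v w
    obtain ⟨τ, h1, h2⟩ := ih (Fin.castSuccEmb.trans v) (Fin.castSuccEmb.trans w)
    have h1' : ∀ k : Fin m, τ (v k.castSucc) = w k.castSucc := h1
    refine ⟨τ.trans (Equiv.swap (τ (v (Fin.last m))) (w (Fin.last m))), ?_, ?_⟩
    · intro k
      refine Fin.lastCases ?_ (fun k => ?_) k
      · simp
      · rw [Equiv.trans_apply, h1']
        apply Equiv.swap_apply_of_ne_of_ne
        · rw [← h1']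
          intro h
          have := v.injective (τ.injective h)
          exact (Fin.castSucc_lt_last k).ne this
        · intro h
          exact (Fin.castSucc_lt_last k).ne (w.injective h)
    · intro x hxv hxw
      have hx1 : x ∉ Set.range (Fin.castSuccEmb.trans v) := by
        rintro ⟨k, rfl⟩; exact hxv ⟨_, rfl⟩
      have hx2 : x ∉ Set.range (Fin.castSuccEmb.trans w) := by
        rintro ⟨k, rfl⟩; exact hxw ⟨_, rfl⟩
      rw [Equiv.trans_apply, h2 x hx1 hx2]
      apply Equiv.swap_apply_of_ne_of_ne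
      · intro h
        have h3 : τ x = τ (v (Fin.last m)) := by rw [h2 x hx1 hx2]; exact h
        exact hxv ⟨_, (τ.injective h3).symm⟩
      · intro h
        exact hxw ⟨_, h.symm⟩

variable {n : ℕ}

/-- the event that the four given positions receive the four given values -/
def Ev (e : (Fin 4 → Fin n) × (Fin 4 ↪ Fin n)) (p : Equiv.Perm (Fin n)) : Prop :=
  ∀ k, p (e.1 k) = e.2 k

open scoped Classical in
/-- lopsided independence -/
theorem lop (pos : Fin 4 ↪ Fin n) (v : Fin 4 ↪ Fin n)
    (S : Set ((Fin 4 → Fin n) × (Fin 4 ↪ Fin n)))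
    (h1 : ∀ e ∈ S, ∀ k l, pos k ≠ e.1 l) (h2 : ∀ e ∈ S, ∀ k l, v k ≠ e.2 l) :
    n.descFactorial 4 * (univ.filter (fun p : Equiv.Perm (Fin n) =>
      Ev (pos, v) p ∧ ∀ e ∈ S, ¬ Ev e p)).card ≤
      (univ.filter (fun p : Equiv.Perm (Fin n) => ∀ e ∈ S, ¬ Ev e p)).card := by
  have hle : ∀ w : Fin 4 ↪ Fin n, (univ.filter (fun p : Equiv.Perm (Fin n) =>
      Ev (pos, v) p ∧ ∀ e ∈ S, ¬ Ev e p)).card ≤
      ((univ.filter (fun p : Equiv.Perm (Fin n) => ∀ e ∈ S, ¬ Ev e p)).filter
        (fun p => pos.trans p.toEmbedding = w)).card := by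
    intro w
    obtain ⟨τ, ht1, ht2⟩ := exists_tau 4 v w
    have ht3 : ∀ x, x ∉ Set.range v → x ∈ Set.range w → τ x ∈ Set.range v := by
      intro x hx hxw
      by_contra hcon
      have h3 : τ x ∉ Set.range w := by
        rintro ⟨k, hk⟩
        rw [← ht1] at hk
        exact hx ⟨k, τ.injective hk⟩
      have h4 := ht2 _ hcon h3
      have h5 := τ.injective h4
      rw [h5] at h3
      exact h3 hxw
    refine card_le_card_of_injOn (fun p => p.trans τ) ?_ ?_
    · intro p hp
      simp only [coe_filter, mem_univ, true_and, Set.mem_ofPred_eq] at hp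
      simp only [coe_filter, mem_univ, true_and, Set.mem_ofPred_eq, mem_filter]
      refine ⟨?_, ?_⟩
      · intro e he hev
        apply hp.2 e he
        intro k
        have h3 : τ (p (e.1 k)) = e.2 k := hev k
        have h4 : p (e.1 k) ∉ Set.range v := by
          rintro ⟨l, hl⟩
          have h5 : p (pos l) = v l := hp.1 l
          rw [← h5] at hl
          exact h1 e he l k (p.injective hl)
        by_cases h5 : p (e.1 k) ∈ Set.range w
        · obtain ⟨l, hl⟩ := ht3 _ h4 h5
          exact absurd (hl.trans h3) (h2 e he l k)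
        · rw [ht2 _ h4 h5] at h3
          exact h3
      · apply DFunLike.ext
        intro k
        show τ (p (pos k)) = w k
        have h5 : p (pos k) = v k := hp.1 k
        rw [h5, ht1]
    · intro p _ p' _ h
      apply Equiv.ext
      intro x
      have := congrArg (fun f : Equiv.Perm (Fin n) => f x) h
      exact τ.injective this
  have hsum := card_eq_sum_card_fiberwise
    (s := univ.filter (fun p : Equiv.Perm (Fin n) => ∀ e ∈ S, ¬ Ev e p))
    (t := (univ : Finset (Fin 4 ↪ Fin n))) (f := fun p => pos.trans p.toEmbedding)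
    (fun _ _ => mem_coe.2 (mem_univ _))
  rw [hsum]
  have hcard : Fintype.card (Fin 4 ↪ Fin n) = n.descFactorial 4 := by
    rw [Fintype.card_embedding_eq, Fintype.card_fin, Fintype.card_fin]
  calc n.descFactorial 4 * (univ.filter (fun p : Equiv.Perm (Fin n) =>
      Ev (pos, v) p ∧ ∀ e ∈ S, ¬ Ev e p)).card
      = ∑ _w : Fin 4 ↪ Fin n, (univ.filter (fun p : Equiv.Perm (Fin n) =>
      Ev (pos, v) p ∧ ∀ e ∈ S, ¬ Ev e p)).card := by
        rw [sum_const, card_univ, hcard, smul_eq_mul]
    _ ≤ _ := sum_le_sum fun w _ => hle w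

/-- positions of two edges -/
def posn (i j : Fin n) : Fin 4 → Fin n := ![i, finRotate n i, j, finRotate n j]

open scoped Classical in
/-- **Existence.**  `T` is a set of ordered quadruples of distinct points.  If every point is in at
most `D` members of `T` and `D` is at most a small multiple of `n ^ 2` then some cyclic ordering
has no pair of edges forming a member of `T`. -/
theorem exists_order (T : Finset (Fin 4 ↪ Fin n)) (D : ℕ)
    (hD : ∀ x, (T.filter (fun v : Fin 4 ↪ Fin n => x ∈ Set.range (v : Fin 4 → Fin n))).card ≤ D)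
    (hn : 4 * (20 * D * n ^ 2 + 1) ≤ n.descFactorial 4) :
    ∃ p : Equiv.Perm (Fin n), ∀ v ∈ T, ∀ i j, Injective (posn i j) →
      ¬ Ev (posn i j, v) p := by
  let ι : Type := {e : (Fin 4 ↪ Fin n) × Fin n × Fin n // e.1 ∈ T ∧ Injective (posn e.2.1 e.2.2)}
  let A : ι → Equiv.Perm (Fin n) → Prop := fun e p => Ev (posn e.1.2.1 e.1.2.2, e.1.1) p
  let N : ι → Finset ι := fun e => univ.filter (fun e' =>
    (∃ k l, posn e.1.2.1 e.1.2.2 k = posn e'.1.2.1 e'.1.2.2 l) ∨ (∃ k l, e.1.1 k = e'.1.1 l))
  have hTc : T.card ≤ n * D := by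
    have hsub : T ⊆ (univ : Finset (Fin n)).biUnion (fun x => T.filter (fun v : Fin 4 ↪ Fin n => x ∈ Set.range (v : Fin 4 → Fin n))) := by
      intro v hv
      rw [mem_biUnion]
      exact ⟨v 0, mem_univ _, mem_filter.2 ⟨hv, ⟨0, rfl⟩⟩⟩
    calc T.card ≤ _ := card_le_card hsub
      _ ≤ ∑ x : Fin n, (T.filter (fun v : Fin 4 ↪ Fin n => x ∈ Set.range (v : Fin 4 → Fin n))).card := card_biUnion_le
      _ ≤ ∑ x : Fin n, D := sum_le_sum fun x _ => hD x
      _ = n * D := by simp
  have hNc : ∀ e, (N e).card ≤ 20 * D * n ^ 2 := by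
    intro e
    -- events sharing a value
    let P1 : Finset ((Fin 4 ↪ Fin n) × Fin n × Fin n) :=
      (univ : Finset (Fin 4)).biUnion (fun k =>
        (T.filter (fun v : Fin 4 ↪ Fin n => e.1.1 k ∈ Set.range (v : Fin 4 → Fin n))) ×ˢ (univ : Finset (Fin n × Fin n)))
    let P2 : Finset ((Fin 4 ↪ Fin n) × Fin n × Fin n) :=
      (univ : Finset (Fin 4 × Fin 4)).biUnion (fun kl =>
        T ×ˢ ((univ : Finset (Fin n × Fin n)).filter
          (fun ij => posn ij.1 ij.2 kl.2 = posn e.1.2.1 e.1.2.2 kl.1)))
    have hsub : (N e).map (Function.Embedding.subtype _) ⊆ P1 ∪ P2 := by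
      intro x hx
      rw [mem_map] at hx
      obtain ⟨e', he', rfl⟩ := hx
      rw [mem_filter] at he'
      rw [mem_union]
      rcases he'.2 with ⟨k, l, hkl⟩ | ⟨k, l, hkl⟩
      · right
        rw [mem_biUnion]
        refine ⟨(k, l), mem_univ _, ?_⟩
        rw [mem_product]
        exact ⟨e'.2.1, mem_filter.2 ⟨mem_univ _, hkl.symm⟩⟩
      · left
        rw [mem_biUnion]
        refine ⟨k, mem_univ _, ?_⟩
        rw [mem_product]
        exact ⟨mem_filter.2 ⟨e'.2.1, ⟨l, hkl.symm⟩⟩, mem_univ _⟩
    have hP1 : P1.card ≤ 4 * (D * n ^ 2) := by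
      calc P1.card ≤ ∑ k : Fin 4, ((T.filter (fun v : Fin 4 ↪ Fin n => e.1.1 k ∈ Set.range (v : Fin 4 → Fin n))) ×ˢ
            (univ : Finset (Fin n × Fin n))).card := card_biUnion_le
        _ ≤ ∑ k : Fin 4, D * n ^ 2 := by
            apply sum_le_sum
            intro k _
            rw [card_product]
            apply Nat.mul_le_mul (hD _)
            simp [sq]
        _ = 4 * (D * n ^ 2) := by simp
    have hP2 : P2.card ≤ 16 * (n * D * n) := by
      calc P2.card ≤ ∑ kl : Fin 4 × Fin 4, (T ×ˢ ((univ : Finset (Fin n × Fin n)).filter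
          (fun ij => posn ij.1 ij.2 kl.2 = posn e.1.2.1 e.1.2.2 kl.1))).card := card_biUnion_le
        _ ≤ ∑ kl : Fin 4 × Fin 4, n * D * n := by
            apply sum_le_sum
            rintro ⟨k, l⟩ _
            rw [card_product]
            apply Nat.mul_le_mul hTc
            generalize posn e.1.2.1 e.1.2.2 (k, l).1 = y
            have hl : ∃ f : Fin n × Fin n → Fin n, Set.InjOn f
                {ij : Fin n × Fin n | posn ij.1 ij.2 l = y} := by
              have h01 : ∀ a b : Fin n × Fin n, a.1 = b.1 → a.2 = b.2 → a = b :=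
                fun a b h1 h2 => Prod.ext h1 h2
              fin_cases l
              · exact ⟨fun ij => ij.2, fun a ha b hb h => h01 a b
                  ((show a.1 = y from ha).trans (show b.1 = y from hb).symm) h⟩
              · exact ⟨fun ij => ij.2, fun a ha b hb h => h01 a b
                  ((finRotate n).injective ((show finRotate n a.1 = y from ha).trans
                    (show finRotate n b.1 = y from hb).symm)) h⟩
              · exact ⟨fun ij => ij.1, fun a ha b hb h => h01 a b h
                  ((show a.2 = y from ha).trans (show b.2 = y from hb).symm)⟩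
              · exact ⟨fun ij => ij.1, fun a ha b hb h => h01 a b h
                  ((finRotate n).injective ((show finRotate n a.2 = y from ha).trans
                    (show finRotate n b.2 = y from hb).symm))⟩
            obtain ⟨f, hf⟩ := hl
            have := card_le_card_of_injOn
              (s := (univ : Finset (Fin n × Fin n)).filter (fun ij => posn ij.1 ij.2 l = y))
              (t := (univ : Finset (Fin n))) f (fun _ _ => mem_coe.2 (mem_univ _)) (by
                intro a ha b hb h
                simp only [coe_filter, mem_univ, true_and] at ha hb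
                exact hf ha hb h)
            simpa using this
        _ = 16 * (n * D * n) := by simp
    calc (N e).card = ((N e).map (Function.Embedding.subtype _)).card := (card_map _).symm
      _ ≤ (P1 ∪ P2).card := card_le_card hsub
      _ ≤ P1.card + P2.card := card_union_le _ _
      _ ≤ 4 * (D * n ^ 2) + 16 * (n * D * n) := Nat.add_le_add hP1 hP2
      _ = 20 * D * n ^ 2 := by ring
  have hpos : 0 < n.descFactorial 4 := by omega
  have hposR : (0 : ℝ) < (n.descFactorial 4 : ℝ) := by exact_mod_cast hpos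
  obtain ⟨p, hp⟩ := Pool.Agent.W832.GI.lll (Equiv.Perm (Fin n)) ι A N
    (1 / (n.descFactorial 4 : ℝ)) ((20 * D * n ^ 2 + 1 : ℕ) : ℝ) (by positivity) (by
      rw [show 4 * (1 / (n.descFactorial 4 : ℝ)) * ((20 * D * n ^ 2 + 1 : ℕ) : ℝ) =
        ((4 * (20 * D * n ^ 2 + 1) : ℕ) : ℝ) / (n.descFactorial 4 : ℝ) by push_cast; ring]
      rw [div_le_one hposR]
      exact_mod_cast hn) (by
      intro i
      have := hNc i
      have h2 : (N i).card + 1 ≤ 20 * D * n ^ 2 + 1 := by omega
      exact_mod_cast h2) (by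
      intro i S hi hdisj
      have hl := lop (n := n) ⟨posn i.1.2.1 i.1.2.2, i.2.2⟩ i.1.1
        ((fun e : ι => ((posn e.1.2.1 e.1.2.2, e.1.1) : (Fin 4 → Fin n) × (Fin 4 ↪ Fin n))) '' (S : Set ι))
        (by
          rintro _ ⟨e, he, rfl⟩ k l hkl
          rw [disjoint_left] at hdisj
          exact hdisj he (mem_filter.2 ⟨mem_univ _, Or.inl ⟨k, l, hkl⟩⟩))
        (by
          rintro _ ⟨e, he, rfl⟩ k l hkl
          rw [disjoint_left] at hdisj
          exact hdisj he (mem_filter.2 ⟨mem_univ _, Or.inr ⟨k, l, hkl⟩⟩))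
      have e1 : (univ.filter (fun ω : Equiv.Perm (Fin n) => A i ω ∧ ∀ j ∈ S, ¬ A j ω)).card =
          (univ.filter (fun p : Equiv.Perm (Fin n) =>
      Ev (((⟨posn i.1.2.1 i.1.2.2, i.2.2⟩ : Fin 4 ↪ Fin n) : Fin 4 → Fin n), i.1.1) p ∧
        ∀ e ∈ ((fun e : ι => ((posn e.1.2.1 e.1.2.2, e.1.1) : (Fin 4 → Fin n) × (Fin 4 ↪ Fin n))) '' (S : Set ι)), ¬ Ev e p)).card := by
        congr 1
        apply filter_congr
        intro p _
        constructor
        · rintro ⟨h1, h2⟩
          refine ⟨h1, ?_⟩
          rintro _ ⟨e, he, rfl⟩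
          exact h2 e he
        · rintro ⟨h1, h2⟩
          exact ⟨h1, fun j hj => h2 _ ⟨j, hj, rfl⟩⟩
      have e2 : (univ.filter (fun ω : Equiv.Perm (Fin n) => ∀ j ∈ S, ¬ A j ω)).card =
          (univ.filter (fun p : Equiv.Perm (Fin n) =>
        ∀ e ∈ ((fun e : ι => ((posn e.1.2.1 e.1.2.2, e.1.1) : (Fin 4 → Fin n) × (Fin 4 ↪ Fin n))) '' (S : Set ι)), ¬ Ev e p)).card := by
        congr 1
        apply filter_congr
        intro p _
        constructor
        · intro h2
          rintro _ ⟨e, he, rfl⟩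
          exact h2 e he
        · intro h2
          exact fun j hj => h2 _ ⟨j, hj, rfl⟩
      have hl' : (n.descFactorial 4 : ℝ) *
        ((univ.filter (fun ω : Equiv.Perm (Fin n) => A i ω ∧ ∀ j ∈ S, ¬ A j ω)).card : ℝ) ≤
        ((univ.filter (fun ω : Equiv.Perm (Fin n) => ∀ j ∈ S, ¬ A j ω)).card : ℝ) := by
        rw [e1, e2]
        exact_mod_cast hl
      rw [div_mul_eq_mul_div, one_mul, le_div_iff₀ hposR]
      rw [mul_comm]
      convert hl'
      rfl)
  refine ⟨p, fun v hv i j hij hev => ?_⟩
  exact hp ⟨(v, i, j), hv, hij⟩ hev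

end Pool.Agent.Q266.Perm4
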