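import Mathlib.Combinatorics.SimpleGraph.Copy
import Mathlib.Combinatorics.SimpleGraph.Operations
import Mathlib.Data.Set.Card
import Mathlib.Algebra.Order.Archimedean.Real.Basic

/-!
Minimum degree thresholds of a graph `H`: the homomorphism threshold, the blowup threshold and
the VC-dimension threshold.  Finite graphs are graphs on `Fin n`.
-/

namespace Pool.Agent.Q266.Thresh

/-- The graph `G` on `Fin n` has minimum degree at least `α n`. -/
def MinDegGe {n : ℕ} (G : SimpleGraph (Fin n)) (α : ℝ) : Prop :=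
  ∀ v, α * n ≤ ((G.neighborSet v).ncard : ℝ)

/-- `G` is maximal `H`-free: it contains no copy of `H`, and adding any edge between two
non-adjacent vertices creates a copy of `H`. -/
def MaximalFree {W V : Type} (H : SimpleGraph W) (G : SimpleGraph V) : Prop :=
  H.Free G ∧ ∀ u v, u ≠ v → ¬ G.Adj u v → ¬ H.Free (G ⊔ SimpleGraph.edge u v)

/-- `G` is a blowup of `F`: the vertices of `G` are partitioned into nonempty classes indexed by the
vertices of `F`, and two vertices of `G` are adjacent exactly when the classes are adjacent. -/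
def IsBlowup {V U : Type} (G : SimpleGraph V) (F : SimpleGraph U) : Prop :=
  ∃ f : V → U, Function.Surjective f ∧ ∀ u v, G.Adj u v ↔ F.Adj (f u) (f v)

/-- The VC-dimension of the family of neighbourhoods of `G` is at most `C`. -/
def VCDimLe {V : Type} (G : SimpleGraph V) (C : ℕ) : Prop :=
  ∀ S : Finset V, (∀ T ⊆ S, ∃ v, ∀ x ∈ S, x ∈ T ↔ G.Adj v x) → S.card ≤ C

/-- The homomorphism threshold. -/
noncomputable def deltaHom {W : Type} (H : SimpleGraph W) : ℝ :=
  sInf {α : ℝ | 0 ≤ α ∧ ∃ (m : ℕ) (F : SimpleGraph (Fin m)), H.Free F ∧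
    ∀ (n : ℕ) (G : SimpleGraph (Fin n)), H.Free G → MinDegGe G α → Nonempty (G →g F)}

/-- The blowup threshold. -/
noncomputable def deltaB {W : Type} (H : SimpleGraph W) : ℝ :=
  sInf {α : ℝ | 0 ≤ α ∧ ∃ C : ℕ, ∀ (n : ℕ) (G : SimpleGraph (Fin n)), MaximalFree H G →
    MinDegGe G α → ∃ m ≤ C, ∃ F : SimpleGraph (Fin m), IsBlowup G F}

/-- The VC-dimension threshold. -/
noncomputable def deltaVC {W : Type} (H : SimpleGraph W) : ℝ :=
  sInf {α : ℝ | 0 ≤ α ∧ ∃ C : ℕ, ∀ (n : ℕ) (G : SimpleGraph (Fin n)), MaximalFree H G →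
    MinDegGe G α → VCDimLe G C}

/-- The wheel with four rim vertices: hub `0`, rim `1, 2, 3, 4` in this cyclic order. -/
def W4 : SimpleGraph (Fin 5) where
  Adj i j := i ≠ j ∧ (i = 0 ∨ j = 0 ∨ i.val % 2 ≠ j.val % 2)
  symm := ⟨fun i j h => ⟨h.1.symm, by
    rcases h.2 with h | h | h
    · exact Or.inr (Or.inl h)
    · exact Or.inl h
    · exact Or.inr (Or.inr h.symm)⟩⟩
  loopless := ⟨fun i h => h.1 rfl⟩

end Pool.Agent.Q266.Thresh
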