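import Pool.Agent.Q266.W4Main

/-!
The blowup threshold of the wheel with four rim vertices is `1/2`.
-/

namespace Pool.Agent.Q266.W4

open Finset Pool.Agent.Q266.Thresh

/-- Two complete sides of `2t` vertices joined completely, plus a perfect matching in each side. -/
def Ex (t : ℕ) : SimpleGraph (Fin (4 * t)) where
  Adj i j := i ≠ j ∧ (i.val / 2 = j.val / 2 ∨ ¬ (i.val < 2 * t ↔ j.val < 2 * t))
  symm := ⟨fun i j h => ⟨h.1.symm, by
    rcases h.2 with h | h
    · exact Or.inl h.symm
    · exact Or.inr (fun h' => h h'.symm)⟩⟩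
  loopless := ⟨fun i h => h.1 rfl⟩

theorem Ex_sided (t : ℕ) : Sided (Ex t) {i | i.val < 2 * t} := by
  intro w a b ha hb hwa hwb
  simp only [Set.mem_setOf_eq] at ha hb
  have h1 : w.val / 2 = a.val / 2 := by
    rcases hwa.2 with h | h
    · exact h
    · exact absurd ha.symm h
  have h2 : w.val / 2 = b.val / 2 := by
    rcases hwb.2 with h | h
    · exact h
    · exact absurd hb.symm h
  have h3 : w.val ≠ a.val := fun h => hwa.1 (Fin.ext h)
  have h4 : w.val ≠ b.val := fun h => hwb.1 (Fin.ext h)
  apply Fin.ext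
  omega

/-- the partner of a vertex in the perfect matching. -/
def partner {t : ℕ} (i : Fin (4 * t)) : Fin (4 * t) :=
  ⟨if i.val % 2 = 0 then i.val + 1 else i.val - 1, by
    have := i.isLt
    split_ifs <;> omega⟩

theorem partner_val {t : ℕ} (i : Fin (4 * t)) :
    (partner i).val = if i.val % 2 = 0 then i.val + 1 else i.val - 1 := rfl

theorem partner_div {t : ℕ} (i : Fin (4 * t)) : (partner i).val / 2 = i.val / 2 := by
  rw [partner_val]; split_ifs <;> omega

theorem partner_ne {t : ℕ} (i : Fin (4 * t)) : (partner i).val ≠ i.val := by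
  rw [partner_val]; split_ifs <;> omega

theorem partner_side {t : ℕ} (i : Fin (4 * t)) : ((partner i).val < 2 * t ↔ i.val < 2 * t) := by
  rw [partner_val]; split_ifs <;> omega

theorem adj_partner {t : ℕ} (i : Fin (4 * t)) : (Ex t).Adj i (partner i) :=
  ⟨fun h => partner_ne i (by rw [← h]), Or.inl (partner_div i).symm⟩

theorem Ex_maximal (t : ℕ) (ht : 1 ≤ t) : MaximalFree W4 (Ex t) := by
  refine ⟨(free_iff _).2 (noWheel_of_sided _ _ (Ex_sided t)), ?_⟩
  intro u v huv hadj hfree
  rw [free_iff] at hfree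
  have h1 : ¬ (u.val / 2 = v.val / 2) := fun h => hadj ⟨huv, Or.inl h⟩
  have h2 : (u.val < 2 * t ↔ v.val < 2 * t) := by
    by_contra h; exact hadj ⟨huv, Or.inr h⟩
  -- two vertices of the other side
  obtain ⟨x, y, hxy, hx, hy⟩ : ∃ x y : Fin (4 * t), x ≠ y ∧
      ¬ (x.val < 2 * t ↔ u.val < 2 * t) ∧ ¬ (y.val < 2 * t ↔ u.val < 2 * t) := by
    by_cases hu : u.val < 2 * t
    · refine ⟨⟨2 * t, by omega⟩, ⟨2 * t + 1, by omega⟩, ?_, ?_, ?_⟩
      · intro h; have := congrArg Fin.val h; simp at this
      · simp only; omega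
      · simp only; omega
    · refine ⟨⟨0, by omega⟩, ⟨1, by omega⟩, ?_, ?_, ?_⟩
      · intro h; have := congrArg Fin.val h; simp at this
      · simp only; omega
      · simp only; omega
  have key : ∀ z w : Fin (4 * t), ¬ (z.val < 2 * t ↔ w.val < 2 * t) → (Ex t).Adj z w := by
    intro z w hzw
    exact ⟨fun h => hzw (by rw [h]), Or.inr hzw⟩
  have hps := partner_side u
  have hpd := partner_div u
  refine hfree u (partner u) x v y ?_ ?_ ?_ ?_ ?_ ?_ ?_ ?_ ?_ ?_
  · exact Or.inl (adj_partner u)
  · exact Or.inl (key _ _ (by tauto))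
  · right; rw [SimpleGraph.edge_adj]; exact ⟨Or.inl ⟨rfl, rfl⟩, huv⟩
  · exact Or.inl (key _ _ (by tauto))
  · exact Or.inl (key _ _ (by tauto))
  · exact Or.inl (key _ _ (by tauto))
  · exact Or.inl (key _ _ (by tauto))
  · exact Or.inl (key _ _ (by tauto))
  · intro h; rw [h] at hpd; exact h1 hpd.symm
  · exact hxy

theorem Ex_deg (t : ℕ) : MinDegGe (Ex t) (1 / 2) := by
  intro v
  have h1 : 2 * t ≤ ((Ex t).neighborSet v).ncard := by
    by_cases hv : v.val < 2 * t
    · have : Set.range (fun i : Fin (2 * t) => (⟨2 * t + i.val, by omega⟩ : Fin (4 * t))) ⊆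
          (Ex t).neighborSet v := by
        rintro _ ⟨i, rfl⟩
        refine ⟨?_, Or.inr ?_⟩
        · intro h; have := congrArg Fin.val h; simp at this; omega
        · simp only; omega
      have h2 := Set.ncard_le_ncard this (Set.toFinite _)
      rw [Set.ncard_range_of_injective] at h2
      · simpa using h2
      · intro i j h
        have := congrArg Fin.val h
        simp only at this
        apply Fin.ext
        omega
    · have : Set.range (fun i : Fin (2 * t) => (⟨i.val, by omega⟩ : Fin (4 * t))) ⊆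
          (Ex t).neighborSet v := by
        rintro _ ⟨i, rfl⟩
        refine ⟨?_, Or.inr ?_⟩
        · intro h; have := congrArg Fin.val h; simp at this; omega
        · simp only; omega
      have h2 := Set.ncard_le_ncard this (Set.toFinite _)
      rw [Set.ncard_range_of_injective] at h2
      · simpa using h2
      · intro i j h
        have := congrArg Fin.val h
        simp only at this
        apply Fin.ext
        omega
  have h3 : ((2 * t : ℕ) : ℝ) ≤ (((Ex t).neighborSet v).ncard : ℝ) := by exact_mod_cast h1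
  push_cast at h3 ⊢
  linarith

/-- the example is not a blowup of a smaller graph. -/
theorem Ex_blowup (t : ℕ) {m : ℕ} (F : SimpleGraph (Fin m)) (h : IsBlowup (Ex t) F) :
    4 * t ≤ m := by
  obtain ⟨f, -, hf⟩ := h
  have hinj : Function.Injective f := by
    intro u v huv
    by_contra hne
    have hnadj : ¬ (Ex t).Adj u v := by
      rw [hf, huv]; exact F.loopless.irrefl _
    have hne' : u.val ≠ v.val := fun h => hne (Fin.ext h)
    have h1 : ¬ (u.val / 2 = v.val / 2) := fun h => hnadj ⟨hne, Or.inl h⟩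
    have h2 : (u.val < 2 * t ↔ v.val < 2 * t) := by
      by_contra h; exact hnadj ⟨hne, Or.inr h⟩
    have h3 : (Ex t).Adj u (partner u) := adj_partner u
    rw [hf, huv, ← hf] at h3
    have h4 := partner_div u
    have h5 := partner_side u
    rcases h3.2 with h | h
    · omega
    · exact h (by tauto)
  have := Fintype.card_le_of_injective f hinj
  simpa using this

theorem blowup_self {n : ℕ} (G : SimpleGraph (Fin n)) : IsBlowup G G :=
  ⟨id, Function.surjective_id, fun _ _ => Iff.rfl⟩

theorem deltaB_mem {α : ℝ} (hα : 1 / 2 < α) : ∃ C : ℕ, ∀ (n : ℕ) (G : SimpleGraph (Fin n)),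
    MaximalFree W4 G → MinDegGe G α → ∃ m ≤ C, ∃ F : SimpleGraph (Fin m), IsBlowup G F := by
  obtain ⟨K, hK⟩ := exists_nat_gt (1 / (α - 1 / 2))
  refine ⟨max 2000000 K, ?_⟩
  intro n G hG hdeg
  by_cases hn : n ≤ max 2000000 K
  · exact ⟨n, hn, G, blowup_self G⟩
  · exfalso
    push Not at hn
    have hn1 : 2000000 < n := lt_of_le_of_lt (le_max_left _ _) hn
    have hn2 : K < n := lt_of_le_of_lt (le_max_right _ _) hn
    have hdeg' : MinDegGe G (49 / 100) := by
      intro v
      have := hdeg v
      have hn0 : (0 : ℝ) ≤ n := Nat.cast_nonneg n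
      nlinarith
    obtain ⟨A, hA⟩ := sided_exists G hG.1 hn1.le hdeg'
    -- degrees are at most one more than the other side
    have hle : ∀ v, ((G.neighborSet v).ncard : ℕ) ≤ 1 + {z | ¬ (z ∈ A ↔ v ∈ A)}.ncard := by
      intro v
      have hsub : G.neighborSet v ⊆ {z | (z ∈ A ↔ v ∈ A) ∧ G.Adj v z} ∪ {z | ¬ (z ∈ A ↔ v ∈ A)} := by
        intro z hz
        by_cases h : (z ∈ A ↔ v ∈ A)
        · exact Or.inl ⟨h, hz⟩
        · exact Or.inr h
      have h1 : ({z | (z ∈ A ↔ v ∈ A) ∧ G.Adj v z} : Set (Fin n)).ncard ≤ 1 := by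
        rw [Set.ncard_le_one (Set.toFinite _)]
        intro a ha b hb
        exact hA v a b ha.1 hb.1 ha.2 hb.2
      calc (G.neighborSet v).ncard ≤ _ := Set.ncard_le_ncard hsub (Set.toFinite _)
        _ ≤ _ := Set.ncard_union_le _ _
        _ ≤ _ := by gcongr
    have hK' : 1 < (α - 1 / 2) * n := by
      have h1 : (1 / (α - 1 / 2)) < n := hK.trans (by exact_mod_cast hn2)
      rw [div_lt_iff₀ (by linarith)] at h1
      linarith
    have hAc : A.ncard + Aᶜ.ncard = n := by
      rw [Set.ncard_add_ncard_compl]; simp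
    by_cases hsz : 2 * A.ncard ≤ n
    · obtain ⟨v, hv⟩ : ∃ v, v ∉ A := by
        by_contra hcon
        push Not at hcon
        have : A = Set.univ := Set.eq_univ_of_forall hcon
        rw [this, Set.ncard_univ] at hsz
        simp at hsz
        omega
      have h1 := hle v
      have h2 : ({z | ¬ (z ∈ A ↔ v ∈ A)} : Set (Fin n)) = A := by
        ext z; simp [hv]
      rw [h2] at h1
      have h3 := hdeg v
      have h4 : (((G.neighborSet v).ncard : ℕ) : ℝ) ≤ 1 + (A.ncard : ℝ) := by exact_mod_cast h1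
      have h5 : (2 * A.ncard : ℝ) ≤ n := by exact_mod_cast hsz
      nlinarith
    · push Not at hsz
      obtain ⟨v, hv⟩ : ∃ v, v ∈ A := by
        by_contra hcon
        push Not at hcon
        have : A = ∅ := Set.eq_empty_of_forall_notMem hcon
        rw [this] at hsz
        simp at hsz
      have h1 := hle v
      have h2 : ({z | ¬ (z ∈ A ↔ v ∈ A)} : Set (Fin n)) = Aᶜ := by
        ext z; simp [hv]
      rw [h2] at h1
      have h3 := hdeg v
      have h4 : (((G.neighborSet v).ncard : ℕ) : ℝ) ≤ 1 + (Aᶜ.ncard : ℝ) := by exact_mod_cast h1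
      have h5 : 2 * Aᶜ.ncard ≤ n := by omega
      have h6 : (2 * Aᶜ.ncard : ℝ) ≤ n := by exact_mod_cast h5
      nlinarith

theorem deltaB_eq : deltaB W4 = 1 / 2 := by
  apply le_antisymm
  · apply le_of_forall_pos_lt_add
    intro ε hε
    refine lt_of_le_of_lt (csInf_le ⟨0, fun α h => h.1⟩
      (show (1 / 2 + ε / 2) ∈ _ from ⟨by linarith, deltaB_mem (by linarith)⟩)) (by linarith)
  · apply le_csInf
    · exact ⟨1, by norm_num, deltaB_mem (by norm_num)⟩
    · rintro α ⟨-, C, hC⟩
      by_contra hcon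
      push Not at hcon
      obtain ⟨m, hm, F, hF⟩ := hC (4 * (C + 1)) (Ex (C + 1)) (Ex_maximal _ (by omega)) (by
        intro v
        refine le_trans ?_ (Ex_deg (C + 1) v)
        have : (0 : ℝ) ≤ ((4 * (C + 1) : ℕ) : ℝ) := Nat.cast_nonneg _
        exact mul_le_mul_of_nonneg_right hcon.le this)
      have := Ex_blowup (C + 1) F hF
      omega

end Pool.Agent.Q266.W4
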