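import Mathlib.Combinatorics.SimpleGraph.Copy
import Mathlib.Data.Fintype.BigOperators
import Mathlib.Algebra.Order.BigOperators.Group.Finset
import Mathlib.Tactic.Linarith
import Mathlib.Tactic.Ring

/-!
Structure of graphs without the wheel on five vertices that have minimum degree at least
`49/100` of the number of vertices.
-/

namespace Pool.Agent.Q266.W4

open Finset

/-- If finitely many sets pairwise meet in at most one point then their union is large. -/
theorem card_biUnion_ge {ι α : Type*} [DecidableEq ι] [DecidableEq α] (M : Finset ι)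
    (A : ι → Finset α) (h : ∀ i ∈ M, ∀ j ∈ M, i ≠ j → (A i ∩ A j).card ≤ 1) :
    ∑ i ∈ M, (A i).card ≤ (M.biUnion A).card + M.card ^ 2 := by
  induction M using Finset.induction_on with
  | empty => simp
  | insert a s ha ih =>
    have ih' := ih (fun i hi j hj hij => h i (mem_insert_of_mem hi) j (mem_insert_of_mem hj) hij)
    rw [sum_insert ha, biUnion_insert, card_insert_of_notMem ha]
    have h1 : (A a ∩ s.biUnion A).card ≤ s.card := by
      have : A a ∩ s.biUnion A = s.biUnion (fun j => A a ∩ A j) := by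
        ext x; simp only [mem_inter, mem_biUnion]; constructor
        · rintro ⟨hx, j, hj, hxj⟩; exact ⟨j, hj, hx, hxj⟩
        · rintro ⟨j, hj, hx, hxj⟩; exact ⟨hx, j, hj, hxj⟩
      rw [this]
      calc (s.biUnion (fun j => A a ∩ A j)).card ≤ ∑ j ∈ s, (A a ∩ A j).card := card_biUnion_le
        _ ≤ ∑ j ∈ s, 1 := by
            apply sum_le_sum
            intro j hj
            apply h a (mem_insert_self _ _) j (mem_insert_of_mem hj)
            rintro rfl; exact ha hj
        _ = s.card := by simp
    have h2 := card_union_add_card_inter (A a) (s.biUnion A)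
    nlinarith

/-- `G` contains no wheel with four rim vertices: hub `h`, rim `a b c d`. -/
def NoWheel {V : Type*} (G : SimpleGraph V) : Prop :=
  ∀ h a b c d, G.Adj h a → G.Adj h b → G.Adj h c → G.Adj h d →
    G.Adj a b → G.Adj b c → G.Adj c d → G.Adj d a → a ≠ c → b ≠ d → False

section

variable {n : ℕ} (G : SimpleGraph (Fin n)) [DecidableRel G.Adj]

/-- two common neighbours inside a neighbourhood is impossible -/
theorem codeg_le_one (hw : NoWheel G) (u x y : Fin n) (hxy : x ≠ y)
    (hx : G.Adj u x) (hy : G.Adj u y) :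
    ((univ.filter (fun z => G.Adj u z ∧ G.Adj x z)) ∩
      (univ.filter (fun z => G.Adj u z ∧ G.Adj y z))).card ≤ 1 := by
  rw [card_le_one]
  intro a ha b hb
  simp only [mem_inter, mem_filter, mem_univ, true_and] at ha hb
  by_contra hab
  exact hw u x a y b hx ha.1.1 hy hb.1.1 ha.1.2 ha.2.2.symm hb.2.2 hb.1.2.symm hxy hab

theorem exists_small_codeg (hw : NoWheel G) (hn : 2000000 ≤ n)
    (hdeg : ∀ v, 49 * n ≤ 100 * (univ.filter (fun z => G.Adj v z)).card) :
    ∃ u v, G.Adj u v ∧ 1000 * (univ.filter (fun z => G.Adj u z ∧ G.Adj v z)).card ≤ n := by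
  have v : Fin n := ⟨0, by omega⟩
  have hNne : (univ.filter (fun z => G.Adj v z)).Nonempty := by
    rw [← card_pos]; have := hdeg v; omega
  obtain ⟨u, hu, hmin⟩ := exists_min_image (univ.filter (fun z => G.Adj v z))
    (fun w => (univ.filter (fun z => G.Adj v z ∧ G.Adj w z)).card) hNne
  refine ⟨v, u, (mem_filter.1 hu).2, ?_⟩
  set c := (univ.filter (fun z => G.Adj v z ∧ G.Adj u z)).card with hc
  have hvu : G.Adj v u := (mem_filter.1 hu).2
  by_contra hcon
  push Not at hcon
  -- neighbours of `u` in `N(v)`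
  set S := univ.filter (fun z => G.Adj v z ∧ G.Adj u z) with hS
  have hdis : ∀ s ∈ S, ∀ t ∈ S, s ≠ t →
      Disjoint ((univ.filter (fun z => G.Adj v z ∧ G.Adj s z)).erase u)
        ((univ.filter (fun z => G.Adj v z ∧ G.Adj t z)).erase u) := by
    intro s hs t ht hst
    rw [disjoint_left]
    intro z hz hz'
    simp only [mem_erase, mem_filter, mem_univ, true_and] at hz hz'
    simp only [hS, mem_filter, mem_univ, true_and] at hs ht
    exact hw v s u t z hs.1 hvu ht.1 hz.2.1 hs.2.symm ht.2 hz'.2.2 hz.2.2.symm hst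
      (fun h => hz.1 h.symm)
  have hcard : (S.biUnion (fun s => (univ.filter (fun z => G.Adj v z ∧ G.Adj s z)).erase u)).card
      = ∑ s ∈ S, ((univ.filter (fun z => G.Adj v z ∧ G.Adj s z)).erase u).card :=
    card_biUnion hdis
  have hle : (S.biUnion (fun s => (univ.filter (fun z => G.Adj v z ∧ G.Adj s z)).erase u)).card ≤ n := by
    calc _ ≤ (univ : Finset (Fin n)).card := card_le_card (subset_univ _)
      _ = n := by simp
  have hge : ∑ s ∈ S, (c - 1) ≤
      ∑ s ∈ S, ((univ.filter (fun z => G.Adj v z ∧ G.Adj s z)).erase u).card := by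
    apply sum_le_sum
    intro s hs
    have hs' : G.Adj v s := (mem_filter.1 hs).2.1
    have h1 := hmin s (mem_filter.2 ⟨mem_univ _, hs'⟩)
    have h2 := pred_card_le_card_erase (s := univ.filter (fun z => G.Adj v z ∧ G.Adj s z)) (a := u)
    omega
  rw [sum_const, smul_eq_mul] at hge
  have h3 : c * (c - 1) ≤ n := by
    calc c * (c - 1) = S.card * (c - 1) := rfl
      _ ≤ _ := hge
      _ = _ := hcard.symm
      _ ≤ n := hle
  have h4 : 2000 ≤ c := by omega
  obtain ⟨e, he⟩ : ∃ e, c = e + 1 := ⟨c - 1, by omega⟩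
  rw [he] at h3 hcon h4
  simp only [Nat.add_sub_cancel] at h3
  nlinarith

end

end Pool.Agent.Q266.W4
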