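import Pool.Agent.Q266.W4Key
import Mathlib.Algebra.BigOperators.Ring.Finset

/-!
Structure of graphs without the wheel on five vertices that have minimum degree at least
`49/100` of the number of vertices: there is a vertex set `A` such that every vertex has at most
one neighbour on its own side of the partition into `A` and its complement.
-/

namespace Pool.Agent.Q266.W4

open Finset

section

variable {n : ℕ} (G : SimpleGraph (Fin n)) [DecidableRel G.Adj]

/-- neighbourhood as a `Finset`. -/
def nb (v : Fin n) : Finset (Fin n) := univ.filter (fun z => G.Adj v z)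

@[simp] theorem mem_nb {v z : Fin n} : z ∈ nb G v ↔ G.Adj v z := by simp [nb]

/-- few vertices of `N(u)` have many neighbours in `N(u)`. -/
theorem atypical_card (hw : NoWheel G) (hn : 2000000 ≤ n) (u : Fin n) :
    ((nb G u).filter (fun x => n ≤ 100 * (nb G x ∩ nb G u).card)).card < 200 := by
  by_contra hcon
  push Not at hcon
  obtain ⟨M, hM, hMc⟩ := exists_subset_card_eq hcon
  have h1 := card_biUnion_ge M (fun x => nb G x ∩ nb G u) (by
    intro x hx y hy hxy
    have hx' := (mem_filter.1 (hM hx)).1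
    have hy' := (mem_filter.1 (hM hy)).1
    rw [mem_nb] at hx' hy'
    have := codeg_le_one G hw u x y hxy hx' hy'
    refine le_trans (card_le_card ?_) this
    intro z hz
    simp only [mem_inter, mem_nb, mem_filter, mem_univ, true_and] at hz ⊢
    exact ⟨⟨hz.1.2, hz.1.1⟩, ⟨hz.1.2, hz.2.1⟩⟩)
  have h2 : (M.biUnion (fun x => nb G x ∩ nb G u)).card ≤ n := by
    calc _ ≤ (univ : Finset (Fin n)).card := card_le_card (subset_univ _)
      _ = n := by simp
  have h3 : ∑ x ∈ M, n ≤ ∑ x ∈ M, 100 * (nb G x ∩ nb G u).card := by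
    apply sum_le_sum
    intro x hx
    exact (mem_filter.1 (hM hx)).2
  rw [sum_const, smul_eq_mul, ← mul_sum, hMc] at h3
  rw [hMc] at h1
  omega

/-- The common setup: an edge `u v` of small codegree. -/
structure Setup (u v : Fin n) : Prop where
  hw : NoWheel G
  hn : 2000000 ≤ n
  hdeg : ∀ w, 49 * n ≤ 100 * (nb G w).card
  hcod : 1000 * (nb G u ∩ nb G v).card ≤ n

variable {G}

theorem Setup.symm {u v : Fin n} (h : Setup G u v) : Setup G v u :=
  ⟨h.hw, h.hn, h.hdeg, by rw [inter_comm]; exact h.hcod⟩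

theorem Setup.card_union {u v : Fin n} (h : Setup G u v) :
    979 * n ≤ 1000 * (nb G u ∪ nb G v).card := by
  have h1 := card_union_add_card_inter (nb G u) (nb G v)
  have h2 := h.hdeg u
  have h3 := h.hdeg v
  have h4 := h.hcod
  omega

theorem Setup.card_le {u v : Fin n} (h : Setup G u v) :
    1000 * (nb G v).card ≤ 511 * n := by
  have h1 := card_union_add_card_inter (nb G u) (nb G v)
  have h2 := h.hdeg u
  have h4 := h.hcod
  have h5 : (nb G u ∪ nb G v).card ≤ n := by
    calc _ ≤ (univ : Finset (Fin n)).card := card_le_card (subset_univ _)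
      _ = n := by simp
  omega

/-- a typical vertex of `N(u)` sees almost all of `N(v)`. -/
theorem Setup.typical {u v : Fin n} (h : Setup G u v) (x : Fin n)
    (hx : ¬ (n ≤ 100 * (nb G x ∩ nb G u).card)) :
    1000 * (nb G v \ nb G x).card ≤ 52 * n := by
  have h1 := h.card_union
  have h2 := h.card_le
  have h3 : (nb G x).card ≤ (nb G x ∩ nb G u).card + (nb G x ∩ nb G v).card +
      (univ \ (nb G u ∪ nb G v)).card := by
    have : nb G x ⊆ (nb G x ∩ nb G u) ∪ (nb G x ∩ nb G v) ∪ (univ \ (nb G u ∪ nb G v)) := by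
      intro z hz
      simp only [mem_union, mem_inter, mem_sdiff, mem_univ, true_and]
      tauto
    calc (nb G x).card ≤ _ := card_le_card this
      _ ≤ _ := card_union_le _ _
      _ ≤ _ := by
        gcongr
        exact card_union_le _ _
  have h4 : (univ \ (nb G u ∪ nb G v)).card + (nb G u ∪ nb G v).card = n := by
    rw [card_sdiff_add_card_eq_card (subset_univ _)]; simp
  have h5 : (nb G v \ nb G x).card + (nb G x ∩ nb G v).card = (nb G v).card := by
    rw [inter_comm]; exact card_sdiff_add_card_inter _ _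
  have h6 := h.hdeg x
  omega

/-- no vertex has many neighbours in both `N(u)` and `N(v)`. -/
theorem Setup.not_both {u v : Fin n} (h : Setup G u v) (w : Fin n)
    (h1 : 12 * n ≤ 100 * (nb G w ∩ nb G u).card)
    (h2 : 12 * n ≤ 100 * (nb G w ∩ nb G v).card) : False := by
  have hn := h.hn
  set M := (nb G u).filter (fun x => n ≤ 100 * (nb G x ∩ nb G u).card) with hM
  have hMc : M.card < 200 := atypical_card G h.hw h.hn u
  have h3 : 1 < ((nb G w ∩ nb G u) \ M).card := by
    have := le_card_sdiff M (nb G w ∩ nb G u)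
    omega
  obtain ⟨x1, hx1, x2, hx2, hx12⟩ := one_lt_card.1 h3
  have key : ∀ x, x ∈ (nb G w ∩ nb G u) \ M →
      G.Adj w x ∧ 1000 * (nb G v \ nb G x).card ≤ 52 * n := by
    intro x hx
    simp only [mem_sdiff, mem_inter, hM, mem_filter, mem_nb] at hx
    refine ⟨hx.1.1, h.typical x ?_⟩
    intro hcon
    exact hx.2 ⟨hx.1.2, hcon⟩
  obtain ⟨hwx1, hc1⟩ := key x1 hx1
  obtain ⟨hwx2, hc2⟩ := key x2 hx2
  have h4 : 1 < ((nb G w ∩ nb G v) \ ((nb G v \ nb G x1) ∪ (nb G v \ nb G x2))).card := by
    have := le_card_sdiff ((nb G v \ nb G x1) ∪ (nb G v \ nb G x2)) (nb G w ∩ nb G v)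
    have := card_union_le (nb G v \ nb G x1) (nb G v \ nb G x2)
    omega
  obtain ⟨y1, hy1, y2, hy2, hy12⟩ := one_lt_card.1 h4
  simp only [mem_sdiff, mem_inter, mem_union, mem_nb, not_or, not_and, not_not] at hy1 hy2
  exact h.hw w x1 y1 x2 y2 hwx1 hy1.1.1 hwx2 hy2.1.1 (hy1.2.1 hy1.1.2) (hy1.2.2 hy1.1.2).symm
    (hy2.2.2 hy2.1.2) (hy2.2.1 hy2.1.2).symm hx12 hy12

/-- three vertices with few neighbours in `N(u)`: a path on three such vertices is impossible. -/
theorem Setup.no_path {u v : Fin n} (h : Setup G u v) (w a b : Fin n)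
    (hw' : ¬ 12 * n ≤ 100 * (nb G w ∩ nb G u).card)
    (ha' : ¬ 12 * n ≤ 100 * (nb G a ∩ nb G u).card)
    (hb' : ¬ 12 * n ≤ 100 * (nb G b ∩ nb G u).card)
    (hwa : G.Adj w a) (hwb : G.Adj w b) (hab : a ≠ b) : False := by
  have hn := h.hn
  have hU : 100 * (univ \ nb G u).card ≤ 51 * n := by
    have h1 : (univ \ nb G u).card + (nb G u).card = n := by
      rw [card_sdiff_add_card_eq_card (subset_univ _)]; simp
    have := h.hdeg u
    omega
  have key : ∀ z, ¬ 12 * n ≤ 100 * (nb G z ∩ nb G u).card →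
      37 * n < 100 * (nb G z \ nb G u).card := by
    intro z hz
    have h1 := card_sdiff_add_card_inter (nb G z) (nb G u)
    have := h.hdeg z
    omega
  have k1 := key w hw'
  have k2 := key a ha'
  have k3 := key b hb'
  have i1 : 23 * n < 100 * ((nb G w \ nb G u) ∩ (nb G a \ nb G u)).card := by
    have h1 := card_union_add_card_inter (nb G w \ nb G u) (nb G a \ nb G u)
    have h2 : ((nb G w \ nb G u) ∪ (nb G a \ nb G u)).card ≤ (univ \ nb G u).card := by
      apply card_le_card
      intro z hz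
      simp only [mem_union, mem_sdiff, mem_univ, true_and] at hz ⊢
      tauto
    omega
  have i2 : 9 * n < 100 * (((nb G w \ nb G u) ∩ (nb G a \ nb G u)) ∩ (nb G b \ nb G u)).card := by
    have h1 := card_union_add_card_inter ((nb G w \ nb G u) ∩ (nb G a \ nb G u)) (nb G b \ nb G u)
    have h2 : (((nb G w \ nb G u) ∩ (nb G a \ nb G u)) ∪ (nb G b \ nb G u)).card ≤
        (univ \ nb G u).card := by
      apply card_le_card
      intro z hz
      simp only [mem_union, mem_inter, mem_sdiff, mem_univ, true_and] at hz ⊢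
      tauto
    omega
  have i3 : 1 < (((nb G w \ nb G u) ∩ (nb G a \ nb G u)) ∩ (nb G b \ nb G u)).card := by omega
  obtain ⟨c, hc, d, hd, hcd⟩ := one_lt_card.1 i3
  simp only [mem_sdiff, mem_inter, mem_nb] at hc hd
  exact h.hw w a c b d hwa hc.1.1.1 hwb hd.1.1.1 hc.1.2.1 hc.2.1.symm hd.2.1 hd.1.2.1.symm hab hcd

variable (G)

/-- **Structure.**  A graph without a wheel on five vertices of minimum degree at least `49 n / 100`
has a vertex partition in which every vertex has at most one neighbour on its own side. -/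
theorem exists_side (hw : NoWheel G) (hn : 2000000 ≤ n)
    (hdeg : ∀ v, 49 * n ≤ 100 * (univ.filter (fun z => G.Adj v z)).card) :
    ∃ A : Finset (Fin n), ∀ w a b, (a ∈ A ↔ w ∈ A) → (b ∈ A ↔ w ∈ A) →
      G.Adj w a → G.Adj w b → a = b := by
  obtain ⟨u, v, huv, hc⟩ := exists_small_codeg G hw hn hdeg
  have hS : Setup G u v := by
    refine ⟨hw, hn, hdeg, ?_⟩
    have : nb G u ∩ nb G v = univ.filter (fun z => G.Adj u z ∧ G.Adj v z) := by
      ext z; simp
    rw [this]; exact hc
  refine ⟨univ.filter (fun w => ¬ 12 * n ≤ 100 * (nb G w ∩ nb G u).card), ?_⟩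
  intro w a b ha hb hwa hwb
  simp only [mem_filter, mem_univ, true_and] at ha hb
  by_contra hab
  by_cases hwA : 12 * n ≤ 100 * (nb G w ∩ nb G u).card
  · have hwA' := hwA
    have haA : 12 * n ≤ 100 * (nb G a ∩ nb G u).card := by
      by_contra h'; exact (ha.1 h') hwA
    have hbA : 12 * n ≤ 100 * (nb G b ∩ nb G u).card := by
      by_contra h'; exact (hb.1 h') hwA
    exact hS.symm.no_path w a b (fun h' => hS.not_both w hwA h') (fun h' => hS.not_both a haA h')
      (fun h' => hS.not_both b hbA h') hwa hwb hab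
  · exact hS.no_path w a b hwA (ha.2 hwA) (hb.2 hwA) hwa hwb hab

end

end Pool.Agent.Q266.W4
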