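import Pool.Agent.Q266.Thresh
import Pool.Agent.Q266.W4Struct
import Mathlib.Data.Fin.VecNotation
import Mathlib.Tactic.FinCases

/-!
Thresholds of the wheel with four rim vertices.
-/

namespace Pool.Agent.Q266.W4

open Finset Pool.Agent.Q266.Thresh

/-- every vertex has at most one neighbour on its own side of `A` and its complement. -/
def Sided {V : Type*} (G : SimpleGraph V) (A : Set V) : Prop :=
  ∀ w a b, (a ∈ A ↔ w ∈ A) → (b ∈ A ↔ w ∈ A) → G.Adj w a → G.Adj w b → a = b

theorem free_iff {V : Type} (G : SimpleGraph V) : W4.Free G ↔ NoWheel G := by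
  constructor
  · intro hf h a b c d ha hb hc hd hab hbc hcd hda hac hbd
    apply hf
    let f : Fin 5 → V := ![h, a, b, c, d]
    have hom : ∀ i j, W4.Adj i j → G.Adj (f i) (f j) := by
      intro i j hij
      fin_cases i <;> fin_cases j <;> simp [W4] at hij <;> simp [f] <;>
        first | assumption | (apply SimpleGraph.Adj.symm; assumption)
    have inj : Function.Injective f := by
      intro i j hij
      by_contra hne
      fin_cases i <;> fin_cases j <;> simp [f] at hij hne <;>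
        first
        | exact G.ne_of_adj ha hij | exact G.ne_of_adj ha hij.symm
        | exact G.ne_of_adj hb hij | exact G.ne_of_adj hb hij.symm
        | exact G.ne_of_adj hc hij | exact G.ne_of_adj hc hij.symm
        | exact G.ne_of_adj hd hij | exact G.ne_of_adj hd hij.symm
        | exact G.ne_of_adj hab hij | exact G.ne_of_adj hab hij.symm
        | exact G.ne_of_adj hbc hij | exact G.ne_of_adj hbc hij.symm
        | exact G.ne_of_adj hcd hij | exact G.ne_of_adj hcd hij.symm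
        | exact G.ne_of_adj hda hij | exact G.ne_of_adj hda hij.symm
        | exact hac hij | exact hac hij.symm | exact hbd hij | exact hbd hij.symm
    exact ⟨⟨⟨f, fun {i j} h => hom i j h⟩, inj⟩⟩
  · rintro hN ⟨f⟩
    have hadj : ∀ i j, W4.Adj i j → G.Adj (f i) (f j) := fun i j h => f.toHom.map_rel h
    have hinj := f.injective'
    refine hN (f 0) (f 1) (f 2) (f 3) (f 4) (hadj 0 1 (by simp [W4])) (hadj 0 2 (by simp [W4]))
      (hadj 0 3 (by simp [W4])) (hadj 0 4 (by simp [W4])) (hadj 1 2 (by simp [W4]))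
      (hadj 2 3 (by simp [W4])) (hadj 3 4 (by simp [W4])) (hadj 4 1 (by simp [W4])) ?_ ?_
    · intro h; have := hinj h; simp at this
    · intro h; have := hinj h; simp at this

theorem noWheel_of_sided {V : Type} (G : SimpleGraph V) (A : Set V) (hA : Sided G A) :
    NoWheel G := by
  intro h a b c d ha hb hc hd hab hbc hcd hda hac hbd
  have k1 : ¬ ((a ∈ A ↔ h ∈ A) ∧ (b ∈ A ↔ h ∈ A)) := fun k => G.ne_of_adj hab (hA h a b k.1 k.2 ha hb)
  have k2 : ¬ ((b ∈ A ↔ h ∈ A) ∧ (c ∈ A ↔ h ∈ A)) := fun k => G.ne_of_adj hbc (hA h b c k.1 k.2 hb hc)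
  have k3 : ¬ ((c ∈ A ↔ h ∈ A) ∧ (d ∈ A ↔ h ∈ A)) := fun k => G.ne_of_adj hcd (hA h c d k.1 k.2 hc hd)
  have k4 : ¬ ((d ∈ A ↔ h ∈ A) ∧ (a ∈ A ↔ h ∈ A)) := fun k => G.ne_of_adj hda (hA h d a k.1 k.2 hd ha)
  have k5 : ¬ ((a ∈ A ↔ h ∈ A) ∧ (c ∈ A ↔ h ∈ A)) := fun k => hac (hA h a c k.1 k.2 ha hc)
  have k6 : ¬ ((b ∈ A ↔ h ∈ A) ∧ (d ∈ A ↔ h ∈ A)) := fun k => hbd (hA h b d k.1 k.2 hb hd)
  have k7 : ¬ ((a ∈ A ↔ b ∈ A) ∧ (c ∈ A ↔ b ∈ A)) := fun k => hac (hA b a c k.1 k.2 hab.symm hbc)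
  have k8 : ¬ ((b ∈ A ↔ c ∈ A) ∧ (d ∈ A ↔ c ∈ A)) := fun k => hbd (hA c b d k.1 k.2 hbc.symm hcd)
  have k9 : ¬ ((c ∈ A ↔ d ∈ A) ∧ (a ∈ A ↔ d ∈ A)) := fun k => hac (hA d c a k.1 k.2 hcd.symm hda).symm
  have k10 : ¬ ((d ∈ A ↔ a ∈ A) ∧ (b ∈ A ↔ a ∈ A)) := fun k => hbd (hA a d b k.1 k.2 hda.symm hab).symm
  by_cases p0 : h ∈ A <;> by_cases p1 : a ∈ A <;> by_cases p2 : b ∈ A <;> by_cases p3 : c ∈ A <;>
    by_cases p4 : d ∈ A <;> simp_all

theorem sided_exists {n : ℕ} (G : SimpleGraph (Fin n)) (hf : W4.Free G) (hn : 2000000 ≤ n)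
    (hdeg : MinDegGe G (49 / 100)) : ∃ A : Set (Fin n), Sided G A := by
  classical
  obtain ⟨A, hA⟩ := exists_side G ((free_iff G).1 hf) hn (by
    intro v
    have h1 := hdeg v
    have h2 : (G.neighborSet v).ncard = (univ.filter (fun z => G.Adj v z)).card := by
      rw [← Set.ncard_coe_finset]
      congr 1
      ext z; simp
    rw [h2] at h1
    have h3 : (49 * n : ℝ) ≤ 100 * ((univ.filter (fun z => G.Adj v z)).card : ℝ) := by linarith
    exact_mod_cast h3)
  exact ⟨(A : Set (Fin n)), fun w a b h1 h2 => hA w a b (by simpa using h1) (by simpa using h2)⟩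

/-- a sided graph has a homomorphism to `K_4`. -/
theorem hom_of_sided {n : ℕ} (G : SimpleGraph (Fin n)) (A : Set (Fin n)) (hA : Sided G A) :
    Nonempty (G →g (⊤ : SimpleGraph (Fin 4))) := by
  classical
  let c : Fin n → Bool := fun w => decide (∃ z, (z ∈ A ↔ w ∈ A) ∧ G.Adj w z ∧ z < w)
  let s : Fin n → Bool := fun w => decide (w ∈ A)
  have key : ∀ w z, G.Adj w z → w < z → (s w, c w) ≠ (s z, c z) := by
    intro w z hwz hlt heq
    rw [Prod.mk.injEq] at heq
    have hs : (w ∈ A ↔ z ∈ A) := by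
      have := heq.1
      simpa [s] using this
    have hcz : c z = true := by
      simp only [c, decide_eq_true_eq]
      exact ⟨w, hs, hwz.symm, hlt⟩
    have hcw : c w = true := by rw [heq.2, hcz]
    simp only [c, decide_eq_true_eq] at hcw
    obtain ⟨z', hz', hadj, hlt'⟩ := hcw
    have := hA w z' z hz' hs.symm hadj hwz
    rw [this] at hlt'
    exact absurd hlt (not_lt.2 hlt'.le)
  have key2 : ∀ w z, G.Adj w z → (s w, c w) ≠ (s z, c z) := by
    intro w z hwz
    rcases lt_trichotomy w z with h | h | h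
    · exact key w z hwz h
    · exact absurd h (G.ne_of_adj hwz)
    · exact (key z w hwz.symm h).symm
  let e : Bool × Bool → Fin 4 := fun p => (if p.1 then 2 else 0) + (if p.2 then 1 else 0)
  have he : Function.Injective e := by decide
  exact ⟨⟨fun w => e (s w, c w), fun {w z} h => by
    rw [SimpleGraph.top_adj]
    intro h'
    exact key2 w z h (he h')⟩⟩

/-- the disjoint union of a family of graphs. -/
def sigmaGraph {ι : Type} {V : ι → Type} (G : ∀ i, SimpleGraph (V i)) : SimpleGraph (Σ i, V i) where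
  Adj p q := ∃ h : p.1 = q.1, (G q.1).Adj (h ▸ p.2) q.2
  symm := ⟨by
    rintro ⟨i, x⟩ ⟨j, y⟩ ⟨h, hxy⟩
    dsimp at h
    subst h
    exact ⟨rfl, hxy.symm⟩⟩
  loopless := ⟨by
    rintro ⟨i, x⟩ ⟨h, hxy⟩
    exact (G i).loopless.irrefl x hxy⟩

theorem sigmaGraph_adj {ι : Type} {V : ι → Type} (G : ∀ i, SimpleGraph (V i)) (i : ι) (x y : V i) :
    (sigmaGraph G).Adj ⟨i, x⟩ ⟨i, y⟩ ↔ (G i).Adj x y := by
  constructor
  · rintro ⟨h, hxy⟩; exact hxy
  · intro h; exact ⟨rfl, h⟩

theorem sigmaGraph_noWheel {ι : Type} {V : ι → Type} (G : ∀ i, SimpleGraph (V i))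
    (h : ∀ i, NoWheel (G i)) : NoWheel (sigmaGraph G) := by
  rintro ⟨i, x⟩ ⟨i1, a⟩ ⟨i2, b⟩ ⟨i3, c⟩ ⟨i4, d⟩ ha hb hc hd hab hbc hcd hda hac hbd
  obtain ⟨e1, ha'⟩ := ha
  obtain ⟨e2, hb'⟩ := hb
  obtain ⟨e3, hc'⟩ := hc
  obtain ⟨e4, hd'⟩ := hd
  dsimp at e1 e2 e3 e4
  subst e1
  subst e2
  subst e3
  subst e4
  rw [sigmaGraph_adj] at hab hbc hcd hda
  exact h i x a b c d ha' hb' hc' hd' hab hbc hcd hda (fun h' => hac (by rw [h']))
    (fun h' => hbd (by rw [h']))

/-- one `W_4`-free graph receiving all small `W_4`-free graphs. -/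
theorem exists_universal (N : ℕ) : ∃ (m : ℕ) (F : SimpleGraph (Fin m)), W4.Free F ∧
    ∀ k < N, ∀ G : SimpleGraph (Fin k), W4.Free G → Nonempty (G →g F) := by
  classical
  let ι : Type := Σ k : Fin N, {G : SimpleGraph (Fin k.1) // W4.Free G}
  let V : ι → Type := fun i => Fin i.1.1
  let Gs : ∀ i : ι, SimpleGraph (V i) := fun i => i.2.1
  have : Finite ι := inferInstance
  have : ∀ i, Finite (V i) := fun i => inferInstanceAs (Finite (Fin i.1.1))
  have : Finite (Σ i, V i) := inferInstance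
  have : Fintype (Σ i, V i) := Fintype.ofFinite _
  let e := Fintype.equivFin (Σ i, V i)
  let F : SimpleGraph (Fin (Fintype.card (Σ i, V i))) := (sigmaGraph Gs).map e.toEmbedding
  have iso : (sigmaGraph Gs) ≃g F := SimpleGraph.Iso.map e (sigmaGraph Gs)
  refine ⟨_, F, ?_, ?_⟩
  · rw [← SimpleGraph.free_congr_right iso]
    rw [free_iff]
    exact sigmaGraph_noWheel Gs (fun i => (free_iff _).1 i.2.2)
  · intro k hk G hG
    let i : ι := ⟨⟨k, hk⟩, ⟨G, hG⟩⟩
    have : Nonempty (G →g sigmaGraph Gs) := ⟨⟨fun x => (⟨i, x⟩ : Σ i, V i), fun {x y} h => by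
      rw [sigmaGraph_adj]; exact h⟩⟩
    exact ⟨iso.toHom.comp this.some⟩

theorem deltaHom_le : deltaHom W4 ≤ 49 / 100 := by
  apply csInf_le
  · exact ⟨0, fun α h => h.1⟩
  · refine ⟨by norm_num, ?_⟩
    obtain ⟨m, F, hF, hall⟩ := exists_universal 2000000
    have h4 : W4.Free (⊤ : SimpleGraph (Fin 4)) := by
      rintro ⟨f⟩
      have := Fintype.card_le_of_injective _ f.injective'
      simp at this
    obtain ⟨m', F', hF', hall'⟩ := exists_universal 2000000
    have h5 := hall' 4 (by norm_num) ⊤ h4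
    refine ⟨m', F', hF', ?_⟩
    intro n G hG hdeg
    by_cases hn : n < 2000000
    · exact hall' n hn G hG
    · push Not at hn
      obtain ⟨A, hA⟩ := sided_exists G hG hn hdeg
      obtain ⟨g⟩ := hom_of_sided G A hA
      exact ⟨h5.some.comp g⟩

theorem sided_sup_edge {V : Type} (G : SimpleGraph V) (A : Set V) (hA : Sided G A) (a b : V)
    (hab : ¬ (a ∈ A ↔ b ∈ A)) : Sided (G ⊔ SimpleGraph.edge a b) A := by
  intro w x y hx hy hwx hwy
  rw [SimpleGraph.sup_adj, SimpleGraph.edge_adj] at hwx hwy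
  have h1 : G.Adj w x := by
    rcases hwx with h | ⟨⟨rfl, rfl⟩ | ⟨rfl, rfl⟩, _⟩
    · exact h
    · exact absurd hx.symm hab
    · exact absurd hx hab
  have h2 : G.Adj w y := by
    rcases hwy with h | ⟨⟨rfl, rfl⟩ | ⟨rfl, rfl⟩, _⟩
    · exact h
    · exact absurd hy.symm hab
    · exact absurd hy hab
  exact hA w x y hx hy h1 h2

/-- in a maximal graph the two sides are completely joined. -/
theorem complete_of_maximal {V : Type} (G : SimpleGraph V) (A : Set V) (hA : Sided G A)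
    (hmax : MaximalFree W4 G) (a b : V) (hab : ¬ (a ∈ A ↔ b ∈ A)) : G.Adj a b := by
  by_contra hcon
  have hne : a ≠ b := by rintro rfl; exact hab Iff.rfl
  apply hmax.2 a b hne hcon
  rw [free_iff]
  exact noWheel_of_sided _ A (sided_sup_edge G A hA a b hab)

theorem vc_side {V : Type} (G : SimpleGraph V) (A : Set V) (hA : Sided G A)
    (hcomp : ∀ a b, ¬ (a ∈ A ↔ b ∈ A) → G.Adj a b) (S : Finset V)
    (hS : ∀ T ⊆ S, ∃ v, ∀ x ∈ S, x ∈ T ↔ G.Adj v x) (P : Finset V) (hP : P ⊆ S)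
    (hside : ∀ x ∈ P, ∀ y ∈ P, (x ∈ A ↔ y ∈ A)) : P.card ≤ 2 := by
  classical
  by_contra hcon
  push Not at hcon
  obtain ⟨x, hx, y, hy, z, hz, hxy, hxz, hyz⟩ := Finset.two_lt_card.1 hcon
  obtain ⟨v, hv⟩ := hS {x, y} (by
    intro t ht
    simp only [mem_insert, mem_singleton] at ht
    rcases ht with rfl | rfl
    · exact hP hx
    · exact hP hy)
  have h1 : G.Adj v x := (hv x (hP hx)).1 (by simp)
  have h2 : G.Adj v y := (hv y (hP hy)).1 (by simp)
  have h3 : ¬ G.Adj v z := fun h => by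
    have := (hv z (hP hz)).2 h
    simp only [mem_insert, mem_singleton] at this
    rcases this with h | h
    · exact hxz h.symm
    · exact hyz h.symm
  have h4 : (z ∈ A ↔ v ∈ A) := by
    by_contra h'
    exact h3 (hcomp v z (fun h'' => h' h''.symm))
  have h5 := hside x hx z hz
  have h6 := hside y hy z hz
  exact hxy (hA v x y (h5.trans h4) (h6.trans h4) h1 h2)

theorem deltaVC_le : deltaVC W4 ≤ 49 / 100 := by
  classical
  apply csInf_le
  · exact ⟨0, fun α h => h.1⟩
  · refine ⟨by norm_num, 2000000, ?_⟩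
    intro n G hG hdeg S hS
    by_cases hn : n < 2000000
    · have := card_le_univ S
      simp at this
      omega
    · push Not at hn
      obtain ⟨A, hA⟩ := sided_exists G hG.1 hn hdeg
      have hc := complete_of_maximal G A hA hG
      have h1 : (S.filter (fun x => x ∈ A)).card ≤ 2 :=
        vc_side G A hA hc S hS _ (filter_subset _ _) (by
          intro x hx y hy
          simp only [mem_filter] at hx hy
          tauto)
      have h2 : (S.filter (fun x => ¬ x ∈ A)).card ≤ 2 :=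
        vc_side G A hA hc S hS _ (filter_subset _ _) (by
          intro x hx y hy
          simp only [mem_filter] at hx hy
          tauto)
      have h3 := card_filter_add_card_filter_not (s := S) (fun x => x ∈ A)
      omega

end Pool.Agent.Q266.W4
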